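import Pool.Agent.Helper47.KP.Main

/-!
The lower bound for the `k`-point bound, for a given density: conclusion.
-/

set_option autoImplicit false

open MeasureTheory Finset
open scoped RealInnerProductSpace

namespace Pool.Agent.Helper47.KP

variable {d : ℕ}

section

variable [NeZero d] {k K : ℕ} {T : Finset (Sph d) → Sph d → Sph d → ℝ} {lam : ℝ}
  {g : ℝ → ℝ} {r ε N : ℝ}

/-- the sum of the three parts is the integral of the forms -/
lemma parts_eq (hf : IsFeasible d k T lam) (hm : Measurable g) (h0 : ∀ t, 0 ≤ g t)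
    (h1 : ∀ t, g t ≤ 1 + r) (q : ℕ) :
    PA (sig d) N (hg g) (tk k T) q + PB (sig d) N (hg g) (tk k T) q +
      PC (sig d) N (hg g) (tk k T) q =
    ∫ v : Fin q → Sph d, rho N (hg g) v * Form g (bz N (hg g) v) v (tk k T q v)
      ∂(pim (sig d) q) := by
  have hh := Bd_hg (d := d) hm h1
  have ht := Bd_tk hf
  have b1 := Bd_PA N hh ht q
  have bB := Bd_inB N hh ht q
  have m1 : Measurable (fun p : ((Fin q → Sph d) × Sph d) × Sph d => p.1.1) :=
    measurable_fst.comp measurable_fst
  have m2 : Measurable (fun p : ((Fin q → Sph d) × Sph d) × Sph d => p.1.2) :=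
    measurable_snd.comp measurable_fst
  have m3 : Measurable (fun p : ((Fin q → Sph d) × Sph d) × Sph d => p.2) := measurable_snd
  have bC : Bd (fun p : ((Fin q → Sph d) × Sph d) × Sph d => bz N (hg g) p.1.1 p.1.2 *
      (bz N (hg g) p.1.1 p.2 * ((hg g p.1.2 p.2 * hg g p.2 p.1.2) * tk k T q p.1.1 p.1.2 p.2))) :=
    ((Bd_bz N hh).comp (m1.prodMk m2)).mul (((Bd_bz N hh).comp (m1.prodMk m3)).mul
      (((hh.comp (m2.prodMk m3)).mul (hh.comp (m3.prodMk m2))).mul
        ((ht q).comp (m1.prodMk (m2.prodMk m3)))))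
  have bC1 := bC.integral (sig d)
  have b2 := (Bd_rho N hh (m := q)).mul (bB.integral (sig d))
  have b3 := (Bd_rho N hh (m := q)).mul (bC1.integral (sig d))
  unfold PA PB PC
  rw [← integral_add (b1.integrable _) (b2.integrable _),
    ← integral_add ((b1.add b2).integrable _) (b3.integrable _)]
  congr 1
  funext v
  have mv : Measurable (fun x : Sph d => (v, x)) := measurable_prodMk_left
  have i1 := (bB.comp mv).integrable (sig d)
  have i2 := (bC1.comp mv).integrable (sig d)
  rw [← mul_add, ← mul_add]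
  congr 1
  unfold Form
  simp only [hg_mul h0] at i1 i2 ⊢
  rw [add_assoc, ← integral_add i1 i2]

/-- positivity of the parts -/
lemma parts_nonneg (hd : 3 ≤ d) (hf : IsFeasible d k T lam) (hm : Measurable g)
    (h0 : ∀ t, 0 ≤ g t) (hr : 0 ≤ r) (h1 : ∀ t, g t ≤ 1 + r) (hI : ∫ t, g t ∂(den d) = 1)
    (hε : 0 ≤ ε) (hj : ∀ j, 1 ≤ j → -ε ≤ ∫ t, g t * (PP d j).eval t ∂(den d)) (hN : 0 ≤ N)
    (hεB : ε * (N * (1 + r) ^ (k - 2)) ≤ 1) (q : ℕ) (hq : q + 2 ≤ k) :
    0 ≤ PA (sig d) N (hg g) (tk k T) q + PB (sig d) N (hg g) (tk k T) q +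
      PC (sig d) N (hg g) (tk k T) q := by
  classical
  rw [parts_eq hf hm h0 h1 q]
  apply integral_nonneg
  intro v
  apply mul_nonneg (rho_nonneg hN g v)
  by_cases hv : SepT v
  · have hcard := hv.card
    have e1 : tk k T q v = T (univ.image v) := by
      funext x y
      rw [tk, if_pos ⟨hq, hv⟩]
    rw [e1]
    have hmb : Measurable (fun x => bz N (hg g) v x) := by
      have hB := Bd_bz (m := q) N (Bd_hg (d := d) hm h1)
      have mv : Measurable (fun x : Sph d => (v, x)) := measurable_prodMk_left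
      exact (hB.comp mv).meas
    have hb := fun x => bz_bounds hN h0 h1 hr (show q ≤ k - 2 by omega) v x
    have hw : WG g (1 + r) (bz N (hg g) v) (N * (1 + r) ^ (k - 2)) :=
      ⟨hm, fun t => by rw [abs_of_nonneg (h0 t)]; exact h1 t,
        ⟨hmb, fun x => by rw [abs_of_nonneg (hb x).1]; exact (hb x).2⟩⟩
    refine Form_nonneg hd hw (fun x => (hb x).1) hI hε hj hεB v ?_ ?_ ?_
    · have hc := hf.cont q hq
      have h2 : ContinuousOn (fun p : Sph d × Sph d => T (univ.image v) p.1 p.2) Set.univ := by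
        have h3 : Continuous (fun p : Sph d × Sph d => (v, p.1, p.2)) := by fun_prop
        exact hc.comp h3.continuousOn (fun p _ => hv)
      exact continuousOn_univ.1 h2
    · exact hf.symm _ (by rw [hcard]; exact hq) hv.separated
    · exact hf.psd _ (by rw [hcard]; exact hq) hv.separated
  · have e1 : tk k T q v = fun _ _ => 0 := by
      funext x y
      rw [tk, if_neg (fun h => hv h.2)]
    rw [e1, Form_zero]

lemma integral_rho_one (N : ℝ) (g : ℝ → ℝ) :
    ∫ z : Fin 1 → Sph d, rho N (hg g) z ∂(pim (sig d) 1) = N := by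
  have : ∀ z : Fin 1 → Sph d, rho N (hg g) z = N := by
    intro z
    simp [rho]
  simp [this]

lemma integral_rho_two (hd : 3 ≤ d) (N : ℝ) (hm : Measurable g) (h0 : ∀ t, 0 ≤ g t)
    (h1 : ∀ t, g t ≤ 1 + r) (hI : ∫ t, g t ∂(den d) = 1) :
    ∫ z : Fin 2 → Sph d, rho N (hg g) z ∂(pim (sig d) 2) = N ^ 2 := by
  have hh := Bd_hg (d := d) hm h1
  have e1 : ∀ z : Fin 2 → Sph d, rho N (hg g) z =
      rho N (hg g) (fun c : Fin 1 => z ((0 : Fin 2).succAbove c)) *
      bz N (hg g) (fun c : Fin 1 => z ((0 : Fin 2).succAbove c)) (z 0) := fun z => rho_succ N _ z 0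
  simp only [e1]
  rw [integral_succAbove (sig d) (0 : Fin 2) (F := fun v x => rho N (hg g) v * bz N (hg g) v x)
    (((Bd_rho N hh).comp measurable_fst).mul (Bd_bz N hh))]
  have e2 : ∀ v : Fin 1 → Sph d, ∫ x, rho N (hg g) v * bz N (hg g) v x ∂(sig d) = N ^ 2 := by
    intro v
    have e3 : ∀ x, rho N (hg g) v * bz N (hg g) v x = N ^ 2 * g ⟪(v 0 : EE d), (x : EE d)⟫ := by
      intro x
      have e4 : rho N (hg g) v = N := by simp [rho]
      rw [e4, bz]
      simp only [Fin.prod_univ_one, Fin.isValue]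
      rw [hg_mul h0, real_inner_comm]
      ring
    simp only [e3]
    rw [integral_const_mul, integral_zonal hd (v 0) hm, ← integral_den, hI, mul_one]
  simp only [e2]
  simp

/-- the constraint, integrated -/
lemma constraint (hf : IsFeasible d k T lam) (hm : Measurable g) (h1 : ∀ t, g t ≤ 1 + r)
    (hz : ∀ t, 1 / 2 < t → g t = 0) (hN : 0 ≤ N) (n : ℕ) (hn : n + 1 ≤ k) :
    ∫ z : Fin (n + 1) → Sph d, rho N (hg g) z * XB (tk k T) n z ∂(pim (sig d) (n + 1)) ≤
      ((if n = 0 then lam else 0) - (if n = 1 then 2 else 0)) *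
      ∫ z : Fin (n + 1) → Sph d, rho N (hg g) z ∂(pim (sig d) (n + 1)) := by
  classical
  have hh := Bd_hg (d := d) hm h1
  have ht := Bd_tk hf
  rw [← integral_const_mul]
  apply integral_mono
  · exact (integral_XB (sig d) N hh ht (tk_symm hf) n).1.integrable _
  · exact ((Bd.const _).mul (Bd_rho N hh)).integrable _
  · intro z
    show rho N (hg g) z * XB (tk k T) n z ≤
      ((if n = 0 then lam else 0) - (if n = 1 then 2 else 0)) * rho N (hg g) z
    by_cases hv : SepT z
    · rw [mul_comm]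
      apply mul_le_mul_of_nonneg_right _ (rho_nonneg hN g z)
      rw [← BB_eq_XB T hv]
      have hcard := hv.card
      have := hf.le (univ.image z) ⟨z 0, mem_image_of_mem z (mem_univ 0)⟩ (by rw [hcard]; exact hn)
        hv.separated
      rw [hcard] at this
      simpa using this
    · rw [rho_eq_zero N hz hv]
      simp

/-- The conclusion. -/
theorem kpoint_bound (hd : 3 ≤ d) (hk : 2 ≤ k) (hf : IsFeasible d k T lam) (hm : Measurable g)
    (h0 : ∀ t, 0 ≤ g t) (hr : 0 ≤ r) (h1 : ∀ t, g t ≤ 1 + r) (hI : ∫ t, g t ∂(den d) = 1)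
    (hz : ∀ t, 1 / 2 < t → g t = 0)
    (hε : 0 ≤ ε) (hj : ∀ j, 1 ≤ j → -ε ≤ ∫ t, g t * (PP d j).eval t ∂(den d)) (hN : 0 < N)
    (hεB : ε * (N * (1 + r) ^ (k - 2)) ≤ 1) : N ≤ lam := by
  classical
  obtain ⟨K, rfl⟩ : ∃ K, k = K + 1 := ⟨k - 1, by omega⟩
  have hh := Bd_hg (d := d) hm h1
  have ht := Bd_tk hf
  have hid := total_identity (sig d) N hh ht (tk_symm hf) K (by
    intro q hq v x y
    rw [tk, if_neg]
    rintro ⟨h2, _⟩
    omega)
  have hpos : 0 ≤ ∑ q ∈ range K, (1 / (q.factorial : ℝ)) *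
      (PA (sig d) N (hg g) (tk (K + 1) T) q + PB (sig d) N (hg g) (tk (K + 1) T) q +
        PC (sig d) N (hg g) (tk (K + 1) T) q) := by
    refine sum_nonneg fun q hq => mul_nonneg (by positivity) ?_
    rw [mem_range] at hq
    exact parts_nonneg hd hf hm h0 hr h1 hI hε hj hN.le hεB q (by omega)
  rw [← hid] at hpos
  have hle : ∑ n ∈ range (K + 1), (1 / ((n + 1).factorial : ℝ)) *
      ∫ z : Fin (n + 1) → Sph d, rho N (hg g) z * XB (tk (K + 1) T) n z
        ∂(pim (sig d) (n + 1)) ≤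
      ∑ n ∈ range (K + 1), (1 / ((n + 1).factorial : ℝ)) *
      (((if n = 0 then lam else 0) - (if n = 1 then 2 else 0)) *
      ∫ z : Fin (n + 1) → Sph d, rho N (hg g) z ∂(pim (sig d) (n + 1))) := by
    refine sum_le_sum fun n hn => ?_
    rw [mem_range] at hn
    apply mul_le_mul_of_nonneg_left _ (by positivity)
    exact constraint hf hm h1 hz hN.le n (by omega)
  have hval : ∑ n ∈ range (K + 1), (1 / ((n + 1).factorial : ℝ)) *
      (((if n = 0 then lam else 0) - (if n = 1 then 2 else 0)) *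
      ∫ z : Fin (n + 1) → Sph d, rho N (hg g) z ∂(pim (sig d) (n + 1))) = lam * N - N ^ 2 := by
    obtain ⟨L, rfl⟩ : ∃ L, K = L + 1 := ⟨K - 1, by omega⟩
    rw [sum_range_succ', sum_range_succ']
    have e1 : ∑ n ∈ range L, (1 / ((n + 1 + 1 + 1).factorial : ℝ)) *
      (((if n + 1 + 1 = 0 then lam else 0) - (if n + 1 + 1 = 1 then 2 else 0)) *
      ∫ z : Fin (n + 1 + 1 + 1) → Sph d, rho N (hg g) z ∂(pim (sig d) (n + 1 + 1 + 1))) = 0 := by
      apply sum_eq_zero
      intro n _
      rw [if_neg (by omega), if_neg (by omega)]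
      ring
    rw [e1]
    have e2 := integral_rho_one (d := d) N g
    have e3 := integral_rho_two (d := d) hd N hm h0 h1 hI
    simp only [zero_add] at *
    rw [e2, e3]
    norm_num [Nat.factorial]
    ring
  have hfin := hpos.trans (hle.trans (le_of_eq hval))
  nlinarith

end

end Pool.Agent.Helper47.KP
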