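import Pool.Agent.Helper47.KP.Main

/-!
Every feasible solution of the `k`-point program bounds the size of every separated set.
-/

set_option autoImplicit false

open Finset
open scoped RealInnerProductSpace

namespace Pool.Agent.Helper47.KP

variable {d : ℕ}

lemma BB_sub {X : Type} [DecidableEq X] (k : ℕ) (T : Finset X → X → X → ℝ) {S I : Finset X} (hS : S ⊆ I) :
    BB k T S = ∑ Q ∈ I.powerset with Q.card + 2 ≤ k, ∑ x ∈ I, ∑ y ∈ I,
      if Q ∪ {x, y} = S then T Q x y else 0 := by
  unfold BB
  have e1 : ∀ Q : Finset X, (∑ x ∈ S, ∑ y ∈ S, if Q ∪ {x, y} = S then T Q x y else 0) =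
      ∑ x ∈ I, ∑ y ∈ I, if Q ∪ {x, y} = S then T Q x y else 0 := by
    intro Q
    rw [← sum_subset hS]
    · refine sum_congr rfl fun x _ => ?_
      rw [← sum_subset hS]
      intro y _ hy
      rw [if_neg]
      rintro rfl
      exact hy (by simp)
    · intro x _ hx
      apply sum_eq_zero
      intro y _
      rw [if_neg]
      rintro rfl
      exact hx (by simp)
  simp only [e1]
  have hsub : (S.powerset.filter fun Q => Q.card + 2 ≤ k) ⊆
      (I.powerset.filter fun Q => Q.card + 2 ≤ k) := by
    intro Q hQ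
    rw [mem_filter, mem_powerset] at hQ ⊢
    exact ⟨hQ.1.trans hS, hQ.2⟩
  rw [← sum_subset hsub]
  intro Q hQ hQ'
  apply sum_eq_zero; intro x _
  apply sum_eq_zero; intro y _
  rw [if_neg]
  rintro rfl
  rw [mem_filter, mem_powerset] at hQ hQ'
  exact hQ' ⟨subset_union_left, hQ.2⟩

lemma sum_BB {X : Type} [DecidableEq X] (k : ℕ) (T : Finset X → X → X → ℝ) (I : Finset X) :
    ∑ S ∈ I.powerset, BB k T S =
      ∑ Q ∈ I.powerset with Q.card + 2 ≤ k, ∑ x ∈ I, ∑ y ∈ I, T Q x y := by
  have e1 : ∀ S ∈ I.powerset, BB k T S = ∑ Q ∈ I.powerset with Q.card + 2 ≤ k,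
      ∑ x ∈ I, ∑ y ∈ I, if Q ∪ {x, y} = S then T Q x y else 0 := fun S hS =>
    BB_sub k T (mem_powerset.1 hS)
  rw [sum_congr rfl e1, sum_comm]
  refine sum_congr rfl fun Q hQ => ?_
  rw [sum_comm]
  refine sum_congr rfl fun x hx => ?_
  rw [sum_comm]
  refine sum_congr rfl fun y hy => ?_
  rw [sum_ite_eq, if_pos]
  rw [mem_filter, mem_powerset] at hQ
  rw [mem_powerset]
  intro z hz
  rw [mem_union, mem_insert, mem_singleton] at hz
  rcases hz with h | rfl | rfl
  · exact hQ.1 h
  · exact hx
  · exact hy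

lemma Separated.mono {S I : Finset (Sph d)} (hI : Separated I) (hS : S ⊆ I) : Separated S :=
  fun x hx y hy => hI x (hS hx) y (hS hy)

/-- Every feasible solution bounds the size of every separated set. -/
theorem feasible_bound {k : ℕ} (hk : 2 ≤ k) {T : Finset (Sph d) → Sph d → Sph d → ℝ} {lam : ℝ}
    (hf : IsFeasible d k T lam) {I : Finset (Sph d)} (hI : Separated I) (hne : I.Nonempty) :
    (I.card : ℝ) ≤ 1 + lam := by
  classical
  have h1 : 0 ≤ ∑ Q ∈ I.powerset with Q.card + 2 ≤ k, ∑ x ∈ I, ∑ y ∈ I, T Q x y := by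
    apply sum_nonneg
    intro Q hQ
    rw [mem_filter, mem_powerset] at hQ
    have h2 := hf.psd Q hQ.2 (hI.mono hQ.1) I.card (fun i => (I.equivFin.symm i : Sph d))
      (fun _ => 1)
    simp only [one_mul] at h2
    have e1 : ∑ x ∈ I, ∑ y ∈ I, T Q x y = ∑ i : Fin I.card, ∑ j : Fin I.card,
        T Q (I.equivFin.symm i : Sph d) (I.equivFin.symm j : Sph d) := by
      rw [← sum_coe_sort I (fun x => ∑ y ∈ I, T Q x y),
        ← Equiv.sum_comp I.equivFin.symm (fun x : I => ∑ y ∈ I, T Q x y)]
      refine sum_congr rfl fun i _ => ?_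
      rw [← sum_coe_sort I (fun y => T Q (I.equivFin.symm i : Sph d) y),
        ← Equiv.sum_comp I.equivFin.symm
          (fun y : I => T Q (I.equivFin.symm i : Sph d) (y : Sph d))]
    rw [e1]
    exact h2
  have h2 : ∀ S ∈ I.powerset, BB k T S ≤
      (if S.card = 1 then lam else 0) - (if S.card = 2 then 2 else 0) := by
    intro S hS
    rcases S.eq_empty_or_nonempty with rfl | hSn
    · simp [BB]
    · by_cases hc : S.card ≤ k
      · convert hf.le S hSn hc (hI.mono (mem_powerset.1 hS))
      · rw [if_neg (by omega), if_neg (by omega)]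
        apply le_of_eq
        rw [sub_zero]
        unfold BB
        apply sum_eq_zero; intro Q hQ
        apply sum_eq_zero; intro x _
        apply sum_eq_zero; intro y _
        rw [if_neg]
        intro hQS
        rw [mem_filter] at hQ
        have h3 : (Q ∪ {x, y}).card ≤ Q.card + 2 :=
          (card_union_le _ _).trans (by gcongr; exact card_le_two)
        rw [hQS] at h3
        omega
  have h3 := sum_le_sum h2
  rw [sum_BB, sum_sub_distrib] at h3
  have e1 : ∀ (m : ℕ) (c : ℝ), ∑ S ∈ I.powerset, (if S.card = m then c else 0) =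
      (I.card.choose m : ℝ) * c := by
    intro m c
    rw [← sum_filter, sum_const, nsmul_eq_mul]
    congr 2
    rw [← card_powersetCard]
    congr 1
    ext S
    simp [mem_powersetCard]
  rw [e1, e1, Nat.choose_one_right, Nat.cast_choose_two] at h3
  have h4 : (1 : ℝ) ≤ I.card := by exact_mod_cast hne.card_pos
  have h5 : 0 ≤ (I.card : ℝ) * lam - (I.card : ℝ) * (I.card - 1) := by linarith
  have h6 : 0 ≤ lam - (I.card - 1) := by
    by_contra hlt
    push Not at hlt
    nlinarith
  linarith

end Pool.Agent.Helper47.KP
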