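import Pool.Agent.Helper47.KP.Law

/-!
The dual of the `L¹` Remez inequality: a bounded function with prescribed moments, obtained from
the minimiser of a convex functional on the space of polynomials of degree at most `n`.
-/

set_option autoImplicit false

open MeasureTheory Set Metric Polynomial Filter
open scoped Real Topology

namespace Pool.Agent.Helper47.KP

/-- polynomial with coefficient vector `c` -/
noncomputable def pol {n : ℕ} (c : Fin (n + 1) → ℝ) : ℝ[X] := ∑ k, C (c k) * X ^ (k : ℕ)

lemma pol_eval {n : ℕ} (c : Fin (n + 1) → ℝ) (t : ℝ) :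
    (pol c).eval t = ∑ k, c k * t ^ (k : ℕ) := by
  simp [pol, eval_finsetSum]

lemma pol_natDegree {n : ℕ} (c : Fin (n + 1) → ℝ) : (pol c).natDegree ≤ n := by
  unfold pol
  apply natDegree_sum_le_of_forall_le
  intro k _
  refine (natDegree_C_mul_le _ _).trans ?_
  rw [natDegree_X_pow]
  omega

lemma pol_coeff {n : ℕ} (c : Fin (n + 1) → ℝ) (k : Fin (n + 1)) : (pol c).coeff k = c k := by
  unfold pol
  simp only [finsetSum_coeff, coeff_C_mul, coeff_X_pow]
  rw [Finset.sum_eq_single k]
  · simp
  · intro j _ hj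
    rw [if_neg, mul_zero]
    intro h
    exact hj (Fin.ext h.symm)
  · intro h; exact absurd (Finset.mem_univ k) h

lemma pol_eq {n : ℕ} {f : ℝ[X]} (hf : f.natDegree ≤ n) :
    pol (fun k : Fin (n + 1) => f.coeff k) = f := by
  apply Polynomial.funext
  intro t
  rw [pol_eval, eval_eq_sum_range' (n := n + 1) (by omega),
    ← Fin.sum_univ_eq_sum_range (fun k => f.coeff k * t ^ k)]

lemma pol_add {n : ℕ} (c e : Fin (n + 1) → ℝ) (s t : ℝ) :
    (pol (c + s • e)).eval t = (pol c).eval t + s * (pol e).eval t := by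
  simp only [pol_eval, Pi.add_apply, Pi.smul_apply, smul_eq_mul, Finset.mul_sum,
    ← Finset.sum_add_distrib]
  apply Finset.sum_congr rfl
  intro k _; ring

lemma pol_smul {n : ℕ} (c : Fin (n + 1) → ℝ) (s t : ℝ) :
    (pol (s • c)).eval t = s * (pol c).eval t := by
  simp only [pol_eval, Pi.smul_apply, smul_eq_mul, Finset.mul_sum]
  apply Finset.sum_congr rfl
  intro k _; ring

lemma continuous_pol2 {n : ℕ} :
    Continuous (fun p : (Fin (n + 1) → ℝ) × ℝ => (pol p.1).eval p.2) := by
  simp only [pol_eval]
  fun_prop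

/-- `√(1+u²)` and its derivative -/
noncomputable def Psi (u : ℝ) : ℝ := Real.sqrt (1 + u ^ 2)

noncomputable def Psi' (u : ℝ) : ℝ := u / Real.sqrt (1 + u ^ 2)

lemma Psi_pos (u : ℝ) : 0 < Psi u := Real.sqrt_pos.2 (by positivity)

lemma hasDerivAt_Psi (u : ℝ) : HasDerivAt Psi (Psi' u) u := by
  unfold Psi Psi'
  have h1 : HasDerivAt (fun u : ℝ => 1 + u ^ 2) (2 * u) u := by
    simpa using (hasDerivAt_pow 2 u).const_add 1
  have h2 := h1.sqrt (by positivity)
  refine h2.congr_deriv ?_
  have : Real.sqrt (1 + u ^ 2) ≠ 0 := (Real.sqrt_pos.2 (by positivity)).ne'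
  field_simp

lemma continuous_Psi : Continuous Psi := by unfold Psi; fun_prop

lemma continuous_Psi' : Continuous Psi' := by
  unfold Psi'
  apply Continuous.div continuous_id (by fun_prop)
  intro u
  exact (Real.sqrt_pos.2 (by positivity)).ne'

lemma abs_le_Psi (u : ℝ) : |u| ≤ Psi u := by
  unfold Psi
  rw [← Real.sqrt_sq_eq_abs]
  apply Real.sqrt_le_sqrt
  linarith

lemma abs_Psi'_le (u : ℝ) : |Psi' u| ≤ 1 := by
  unfold Psi'
  rw [abs_div, abs_of_pos (Real.sqrt_pos.2 (by positivity)), div_le_one (Real.sqrt_pos.2 (by positivity))]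
  exact abs_le_Psi u

lemma wt_pos {D : ℕ} {t : ℝ} (ht : |t| < 1) : 0 < wt D t := by
  unfold wt
  have h := abs_lt.1 ht
  have : 0 < 1 - t ^ 2 := by nlinarith [h.1, h.2]
  positivity

/-- the `L¹` norm -/
noncomputable def N1 {n : ℕ} (D : ℕ) (b : ℝ) (c : Fin (n + 1) → ℝ) : ℝ :=
  ∫ t in (-b)..b, |(pol c).eval t| * wt D t

lemma continuous_N1 {n : ℕ} (D : ℕ) (b : ℝ) : Continuous (N1 (n := n) D b) := by
  unfold N1
  apply intervalIntegral.continuous_parametric_intervalIntegral_of_continuous'
  exact (continuous_pol2.abs).mul ((continuous_wt D).comp continuous_snd)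

lemma N1_smul {n : ℕ} (D : ℕ) (b : ℝ) (s : ℝ) (c : Fin (n + 1) → ℝ) :
    N1 D b (s • c) = |s| * N1 D b c := by
  unfold N1
  rw [← intervalIntegral.integral_const_mul]
  apply intervalIntegral.integral_congr
  intro t _
  simp only [pol_smul, abs_mul]
  ring

lemma N1_pos {n : ℕ} (D : ℕ) {b : ℝ} (hb0 : 0 < b) (hb1 : b < 1) {c : Fin (n + 1) → ℝ}
    (hc : c ≠ 0) : 0 < N1 D b c := by
  have hp : pol c ≠ 0 := by
    intro h
    apply hc
    funext k
    rw [← pol_coeff c k, h]
    simp
  have hroot : ∃ t ∈ Ioo (-b) b, (pol c).eval t ≠ 0 := by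
    by_contra hcon
    push Not at hcon
    apply hp
    apply Polynomial.eq_zero_of_infinite_isRoot
    apply (Ioo_infinite (show -b < b by linarith)).mono
    intro t ht
    exact hcon t ht
  obtain ⟨t₀, ht₀, hne⟩ := hroot
  unfold N1
  have hcont : Continuous (fun t => |(pol c).eval t| * wt D t) :=
    (pol c).continuous.abs.mul (continuous_wt D)
  rw [intervalIntegral.integral_of_le (by linarith), setIntegral_pos_iff_support_of_nonneg_ae]
  · have hopen : IsOpen (Function.support (fun t => |(pol c).eval t| * wt D t) ∩ Ioo (-b) b) :=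
      (hcont.isOpen_support).inter isOpen_Ioo
    have hne' : (Function.support (fun t => |(pol c).eval t| * wt D t) ∩ Ioo (-b) b).Nonempty := by
      refine ⟨t₀, ?_, ht₀⟩
      rw [Function.mem_support]
      apply mul_ne_zero (abs_ne_zero.2 hne)
      apply (wt_pos _).ne'
      rw [abs_lt]; exact ⟨by linarith [ht₀.1], by linarith [ht₀.2]⟩
    refine lt_of_lt_of_le (hopen.measure_pos volume hne') (measure_mono ?_)
    exact inter_subset_inter_right _ Ioo_subset_Ioc_self
  · exact Eventually.of_forall fun t => mul_nonneg (abs_nonneg _) (wt_nonneg _ _)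
  · exact (hcont.intervalIntegrable (-b) b).1

/-- duality -/
theorem exists_dual {n D : ℕ} {b r r' : ℝ} (hb0 : 0 < b) (hb1 : b < 1) (hr' : 0 ≤ r') (hr : r' < r)
    (hrem : ∀ f : ℝ[X], f.natDegree ≤ n → ∫ t in (1 / 2 : ℝ)..1, f.eval t * wt D t ≤
      r' * ∫ t in (-b)..b, |f.eval t| * wt D t) :
    ∃ a : ℝ → ℝ, Continuous a ∧ (∀ t, |a t| ≤ r) ∧ ∀ f : ℝ[X], f.natDegree ≤ n →
      ∫ t in (-b)..b, a t * (f.eval t * wt D t) = ∫ t in (1 / 2 : ℝ)..1, f.eval t * wt D t := by
  have hr0 : 0 < r := by linarith
  have hw := continuous_wt D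
  set ℓ : (Fin (n + 1) → ℝ) → ℝ := fun c => ∫ t in (1 / 2 : ℝ)..1, (pol c).eval t * wt D t with hℓ
  have hℓc : Continuous ℓ := by
    apply intervalIntegral.continuous_parametric_intervalIntegral_of_continuous'
    exact continuous_pol2.mul (hw.comp continuous_snd)
  have hℓadd : ∀ (c e : Fin (n + 1) → ℝ) (s : ℝ), ℓ (c + s • e) = ℓ c + s * ℓ e := by
    intro c e s
    simp only [hℓ]
    rw [← intervalIntegral.integral_const_mul, ← intervalIntegral.integral_add]
    · apply intervalIntegral.integral_congr
      intro t _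
      simp only [pol_add]
      ring
    · exact ((pol c).continuous.mul hw).intervalIntegrable _ _
    · exact (continuous_const.mul ((pol e).continuous.mul hw)).intervalIntegrable _ _
  set J : (Fin (n + 1) → ℝ) → ℝ := fun c =>
    (∫ t in (-b)..b, r * (Psi ((pol c).eval t) * wt D t)) - ℓ c with hJ
  have hJc : Continuous J := by
    apply Continuous.sub _ hℓc
    apply intervalIntegral.continuous_parametric_intervalIntegral_of_continuous'
    exact continuous_const.mul ((continuous_Psi.comp continuous_pol2).mul (hw.comp continuous_snd))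
  -- coercivity
  have hlow : ∀ c, (r - r') * N1 D b c ≤ J c := by
    intro c
    have h1 : r * N1 D b c ≤ ∫ t in (-b)..b, r * (Psi ((pol c).eval t) * wt D t) := by
      unfold N1
      rw [← intervalIntegral.integral_const_mul]
      apply intervalIntegral.integral_mono_on (by linarith)
      · exact (continuous_const.mul ((pol c).continuous.abs.mul hw)).intervalIntegrable _ _
      · exact (continuous_const.mul ((continuous_Psi.comp (pol c).continuous).mul
          hw)).intervalIntegrable _ _
      · intro t _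
        apply mul_le_mul_of_nonneg_left _ hr0.le
        exact mul_le_mul_of_nonneg_right (abs_le_Psi _) (wt_nonneg _ _)
    have h2 := hrem (pol c) (pol_natDegree c)
    have h3 : ℓ c ≤ r' * N1 D b c := h2
    simp only [hJ]
    linarith
  obtain ⟨κ, hκ, hκN⟩ : ∃ κ : ℝ, 0 < κ ∧ ∀ c : Fin (n + 1) → ℝ, κ * ‖c‖ ≤ N1 D b c := by
    have hcomp : IsCompact (sphere (0 : Fin (n + 1) → ℝ) 1) := isCompact_sphere _ _
    have hne : (sphere (0 : Fin (n + 1) → ℝ) 1).Nonempty := by
      refine ⟨fun _ => 1, ?_⟩
      rw [mem_sphere_zero_iff_norm]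
      simp
    obtain ⟨c₀, hc₀, hmin⟩ := hcomp.exists_isMinOn hne (continuous_N1 D b).continuousOn
    have hc₀ne : c₀ ≠ 0 := by
      intro h
      rw [h] at hc₀
      simp at hc₀
    refine ⟨N1 D b c₀, N1_pos D hb0 hb1 hc₀ne, fun c => ?_⟩
    by_cases hc : c = 0
    · subst hc
      rw [norm_zero, mul_zero]
      have := N1_smul D b 0 c₀
      rw [zero_smul, abs_zero, zero_mul] at this
      exact this.ge
    · have hn : 0 < ‖c‖ := norm_pos_iff.2 hc
      have h1 : (‖c‖⁻¹ • c) ∈ sphere (0 : Fin (n + 1) → ℝ) 1 := by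
        rw [mem_sphere_zero_iff_norm, norm_smul, norm_inv, norm_norm, inv_mul_cancel₀ hn.ne']
      have h2 := hmin h1
      simp only [mem_ofPred_eq] at h2
      rw [N1_smul, abs_of_pos (inv_pos.2 hn), inv_mul_eq_div, le_div_iff₀ hn] at h2
      exact h2
  have hlim : Tendsto J (cocompact _) atTop := by
    have h1 : Tendsto (fun c : Fin (n + 1) → ℝ => ((r - r') * κ) * ‖c‖) (cocompact _) atTop :=
      (tendsto_norm_cocompact_atTop).const_mul_atTop (mul_pos (by linarith) hκ)
    refine tendsto_atTop_mono (fun c => ?_) h1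
    have h2 := hlow c
    have h3 := hκN c
    have h4 : (r - r') * (κ * ‖c‖) ≤ (r - r') * N1 D b c :=
      mul_le_mul_of_nonneg_left h3 (by linarith)
    linarith
  obtain ⟨c, hc⟩ := hJc.exists_forall_le hlim
  -- the function
  refine ⟨fun t => r * Psi' ((pol c).eval t),
    continuous_const.mul (continuous_Psi'.comp (pol c).continuous), ?_, ?_⟩
  · intro t
    rw [abs_mul, abs_of_pos hr0]
    have := abs_Psi'_le ((pol c).eval t)
    nlinarith
  intro f hf
  set e : Fin (n + 1) → ℝ := fun k => f.coeff k with he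
  have hpe : pol e = f := pol_eq hf
  -- the derivative in direction `e`
  obtain ⟨M, hM⟩ := (isCompact_Icc (a := -b) (b := b)).image
    ((pol e).continuous.mul hw) |>.isBounded.exists_norm_le
  have hder := (intervalIntegral.hasDerivAt_integral_of_dominated_loc_of_deriv_le
    (μ := volume) (a := -b) (b := b) (x₀ := (0 : ℝ)) (s := univ)
    (F := fun s t => r * (Psi ((pol c).eval t + s * (pol e).eval t) * wt D t))
    (F' := fun s t => r * (Psi' ((pol c).eval t + s * (pol e).eval t) * (pol e).eval t * wt D t))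
    (bound := fun _ => r * M) univ_mem
    (Eventually.of_forall fun s => by
      apply Continuous.aestronglyMeasurable
      exact continuous_const.mul ((continuous_Psi.comp
        ((pol c).continuous.add (continuous_const.mul (pol e).continuous))).mul hw))
    (by
      apply Continuous.intervalIntegrable
      exact continuous_const.mul ((continuous_Psi.comp
        ((pol c).continuous.add (continuous_const.mul (pol e).continuous))).mul hw))
    (by
      apply Continuous.aestronglyMeasurable
      exact continuous_const.mul (((continuous_Psi'.comp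
        ((pol c).continuous.add (continuous_const.mul (pol e).continuous))).mul
          (pol e).continuous).mul hw))
    (Eventually.of_forall fun t ht s _ => by
      rw [uIoc_of_le (by linarith)] at ht
      have h1 : |(pol e).eval t * wt D t| ≤ M := hM _ ⟨t, ⟨ht.1.le, ht.2⟩, rfl⟩
      rw [Real.norm_eq_abs]
      rw [abs_mul, abs_of_pos hr0, mul_assoc, abs_mul]
      apply mul_le_mul_of_nonneg_left _ hr0.le
      have h2 := abs_Psi'_le ((pol c).eval t + s * (pol e).eval t)
      have h3 := abs_nonneg ((pol e).eval t * wt D t)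
      nlinarith)
    (by simp)
    (Eventually.of_forall fun t _ s _ => by
      have h1 : HasDerivAt (fun s => (pol c).eval t + s * (pol e).eval t) ((pol e).eval t) s := by
        simpa using ((hasDerivAt_id s).mul_const ((pol e).eval t)).const_add ((pol c).eval t)
      have h2 := (hasDerivAt_Psi ((pol c).eval t + s * (pol e).eval t)).comp s h1
      exact (h2.mul_const (wt D t)).const_mul r)).2
  have hder2 : HasDerivAt (fun s : ℝ => J (c + s • e))
      ((∫ t in (-b)..b, r * (Psi' ((pol c).eval t + 0 * (pol e).eval t) * (pol e).eval t * wt D t))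
        - ℓ e) 0 := by
    have h1 : (fun s : ℝ => J (c + s • e)) = fun s =>
        (∫ t in (-b)..b, r * (Psi ((pol c).eval t + s * (pol e).eval t) * wt D t)) -
          (ℓ c + s * ℓ e) := by
      funext s
      simp only [hJ, hℓadd, pol_add]
    rw [h1]
    apply hder.sub
    simpa using ((hasDerivAt_id (0 : ℝ)).mul_const (ℓ e)).const_add (ℓ c)
  have hmin : IsLocalMin (fun s : ℝ => J (c + s • e)) 0 := by
    apply Eventually.of_forall
    intro s
    simp only [zero_smul, add_zero]
    exact hc _
  have h0 := hmin.hasDerivAt_eq_zero hder2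
  have h1 : ℓ e = ∫ t in (1 / 2 : ℝ)..1, f.eval t * wt D t := by
    simp only [hℓ, hpe]
  rw [← h1]
  rw [sub_eq_zero] at h0
  rw [← h0]
  apply intervalIntegral.integral_congr
  intro t _
  simp only [hpe, zero_mul, add_zero]
  ring

end Pool.Agent.Helper47.KP
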