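import Pool.Agent.Helper47.KP.Law

/-!
A weighted `L¹` Remez inequality: for polynomials of degree at most `β D`,
`|f(t)| (1-t²)^(D/2) ≤ C θ^D ∫_{|s| ≤ b} |f(s)| (1-s²)^(D/2) ds` for `t ∈ [1/2,1]`.
-/

set_option autoImplicit false

open MeasureTheory Set Metric Polynomial
open scoped Real

namespace Pool.Agent.Helper47.KP

/-- `z^n f(b (z + 1/z) / 2)` as a polynomial function -/
noncomputable def Fz (f : ℝ[X]) (n : ℕ) (b : ℝ) (z : ℂ) : ℂ :=
  ∑ k ∈ Finset.range (n + 1), ((f.coeff k : ℝ) : ℂ) * (((b / 2 : ℝ) : ℂ)) ^ k * z ^ (n - k) *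
    (z ^ 2 + 1) ^ k

lemma Fz_eq {f : ℝ[X]} {n : ℕ} (hf : f.natDegree ≤ n) {b : ℝ} {z : ℂ} (hz : z ≠ 0) {r : ℝ}
    (hr : ((b / 2 : ℝ) : ℂ) * (z + z⁻¹) = (r : ℂ)) : Fz f n b z = z ^ n * ((f.eval r : ℝ) : ℂ) := by
  unfold Fz
  rw [eval_eq_sum_range' (n := n + 1) (by omega)]
  push_cast
  rw [Finset.mul_sum]
  apply Finset.sum_congr rfl
  intro k hk
  rw [Finset.mem_range] at hk
  have h1 : z ^ n = z ^ (n - k) * z ^ k := by rw [← pow_add]; congr 1; omega
  have h2 : (z ^ 2 + 1) = z * (z + z⁻¹) := by field_simp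
  rw [h1, h2, mul_pow, ← hr, mul_pow]
  push_cast
  ring

/-- the analytic function -/
noncomputable def Hz (f : ℝ[X]) (n D : ℕ) (A b : ℝ) (z : ℂ) : ℂ :=
  Fz f n b z * (1 - z ^ 2) * (((b * A / 2 : ℝ) : ℂ) * (1 - z ^ 2 / ((A ^ 2 : ℝ) : ℂ))) ^ D

lemma differentiable_Hz (f : ℝ[X]) (n D : ℕ) (A b : ℝ) : Differentiable ℂ (Hz f n D A b) := by
  unfold Hz Fz
  fun_prop

/-- the parameters -/
structure Par (A b : ℝ) : Prop where
  hA : 1 < A
  hb : b * (A ^ 2 + 1) = 2 * A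

lemma Par.b_pos {A b : ℝ} (h : Par A b) : 0 < b := by
  have h1 := h.hb
  have h2 := h.hA
  by_contra hb
  push Not at hb
  have : b * (A ^ 2 + 1) ≤ 0 := mul_nonpos_of_nonpos_of_nonneg hb (by positivity)
  linarith

lemma Par.b_lt {A b : ℝ} (h : Par A b) : b < 1 := by
  have h1 := h.hb
  have h2 := h.hA
  by_contra hb
  push Not at hb
  have h3 : (A ^ 2 + 1) ≤ b * (A ^ 2 + 1) := by
    have : 0 < A ^ 2 + 1 := by positivity
    nlinarith
  nlinarith [sq_nonneg (A - 1), sq_pos_of_pos (sub_pos.2 h2)]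

/-- the modulus on the unit circle -/
lemma norm_Hz {A b : ℝ} (h : Par A b) {f : ℝ[X]} {n : ℕ} (hf : f.natDegree ≤ n) (D : ℕ) (θ : ℝ) :
    ‖Hz f n D A b (circleMap 0 1 θ)‖ =
      2 * (|Real.sin θ| * (|f.eval (b * Real.cos θ)| * wt D (b * Real.cos θ))) := by
  have hA := h.hA
  have hb := h.hb
  set z := circleMap 0 1 θ with hz
  have hze : z = Complex.exp (θ * Complex.I) := by simp [hz, circleMap]
  have hzc : z = (Real.cos θ : ℂ) + (Real.sin θ : ℂ) * Complex.I := by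
    rw [hze, Complex.exp_mul_I, Complex.ofReal_cos, Complex.ofReal_sin]
  have hz0 : z ≠ 0 := by rw [hze]; exact Complex.exp_ne_zero _
  have hzn : ‖z‖ = 1 := by rw [hze]; exact Complex.norm_exp_ofReal_mul_I θ
  have hzinv : z⁻¹ = (Real.cos θ : ℂ) - (Real.sin θ : ℂ) * Complex.I := by
    rw [hze, ← Complex.exp_neg, ← neg_mul, Complex.exp_mul_I, Complex.cos_neg, Complex.sin_neg,
      Complex.ofReal_cos, Complex.ofReal_sin]
    ring
  have hr : ((b / 2 : ℝ) : ℂ) * (z + z⁻¹) = ((b * Real.cos θ : ℝ) : ℂ) := by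
    rw [hzinv, hzc]; push_cast; ring
  have hs2 : Real.sin θ ^ 2 = 1 - Real.cos θ ^ 2 := by
    have := Real.sin_sq_add_cos_sq θ; linarith
  -- first factor
  have n1 : ‖Fz f n b z‖ = |f.eval (b * Real.cos θ)| := by
    rw [Fz_eq hf hz0 hr, norm_mul, norm_pow, hzn, one_pow, one_mul, Complex.norm_real,
      Real.norm_eq_abs]
  -- second factor
  have n2 : ‖1 - z ^ 2‖ = 2 * |Real.sin θ| := by
    have h1 : ‖1 - z ^ 2‖ ^ 2 = (2 * |Real.sin θ|) ^ 2 := by
      rw [← Complex.normSq_eq_norm_sq, hzc, Complex.normSq_apply]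
      simp only [sq, Complex.sub_re, Complex.sub_im, Complex.one_re, Complex.one_im,
        Complex.mul_re, Complex.mul_im, Complex.add_re, Complex.add_im, Complex.ofReal_re,
        Complex.ofReal_im, Complex.I_re, Complex.I_im]
      rw [show 2 * |Real.sin θ| * (2 * |Real.sin θ|) = 4 * |Real.sin θ| ^ 2 by ring, sq_abs]
      have : Real.sin θ * Real.sin θ = 1 - Real.cos θ * Real.cos θ := by
        have := hs2; nlinarith
      set s := Real.sin θ
      set c := Real.cos θ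
      linear_combination (s * s + c * c - 1) * this
    exact (pow_left_inj₀ (norm_nonneg _) (by positivity) two_ne_zero).1 h1
  -- third factor
  have n3 : ‖((b * A / 2 : ℝ) : ℂ) * (1 - z ^ 2 / ((A ^ 2 : ℝ) : ℂ))‖ =
      Real.sqrt (1 - (b * Real.cos θ) ^ 2) := by
    have hv : z ^ 2 / ((A ^ 2 : ℝ) : ℂ) = z ^ 2 * (((A ^ 2)⁻¹ : ℝ) : ℂ) := by
      rw [Complex.ofReal_inv, div_eq_mul_inv]
    have hA0 : A ≠ 0 := by linarith
    have hkey : b ^ 2 * (A ^ 2 + 2 + (A ^ 2)⁻¹) = 4 := by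
      have h1 : b ^ 2 * (A ^ 2 + 1) ^ 2 = 4 * A ^ 2 := by
        rw [← mul_pow, hb]; ring
      field_simp
      linarith
    have hvA : (A ^ 2)⁻¹ * A ^ 2 = 1 := inv_mul_cancel₀ (by positivity)
    have hn : ‖((b * A / 2 : ℝ) : ℂ) * (1 - z ^ 2 / ((A ^ 2 : ℝ) : ℂ))‖ ^ 2 =
        1 - (b * Real.cos θ) ^ 2 := by
      rw [hv, ← Complex.normSq_eq_norm_sq, hzc, Complex.normSq_apply]
      simp only [sq (((Real.cos θ : ℝ) : ℂ) + ((Real.sin θ : ℝ) : ℂ) * Complex.I),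
        Complex.sub_re, Complex.sub_im, Complex.one_re, Complex.one_im,
        Complex.mul_re, Complex.mul_im, Complex.add_re, Complex.add_im, Complex.ofReal_re,
        Complex.ofReal_im, Complex.I_re, Complex.I_im]
      set s := Real.sin θ
      set c := Real.cos θ
      set v := (A ^ 2)⁻¹
      have e1 : s * s = 1 - c * c := by nlinarith
      have e2 : ∀ a : ℝ, (a * (1 - ((c * c - s * s) * v))) * (a * (1 - ((c * c - s * s) * v))) +
          (a * (2 * (c * s) * v)) * (a * (2 * (c * s) * v)) =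
          a ^ 2 * (1 - 2 * (2 * c * c - 1) * v + v ^ 2) := by
        intro a
        have e3 : (c * s) * (c * s) = c * c * (1 - c * c) := by rw [← e1]; ring
        rw [e1]
        linear_combination (4 * a ^ 2 * v ^ 2) * e3
      have e4 : (b * A / 2) ^ 2 * (1 - 2 * (2 * c * c - 1) * v + v ^ 2) = 1 - (b * c) ^ 2 := by
        linear_combination (1 / 4) * hkey +
          (b ^ 2 / 4 * (-(2 * (2 * c * c - 1)) + v)) * hvA
      rw [← e4, ← e2]
      ring
    rw [← hn, Real.sqrt_sq (norm_nonneg _)]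
  unfold Hz
  rw [norm_mul, norm_mul, norm_pow, n1, n2, n3]
  unfold wt
  ring

/-- change of variables -/
lemma integral_circle {Φ : ℝ → ℝ} (hΦ : Continuous Φ) {b : ℝ} (hb : 0 < b) :
    ∫ θ in (0 : ℝ)..2 * π, |Real.sin θ| * Φ (b * Real.cos θ) = 2 / b * ∫ s in (-b)..b, Φ s := by
  have hcont : Continuous (fun θ : ℝ => |Real.sin θ| * Φ (b * Real.cos θ)) := by fun_prop
  have h1 : ∫ θ in (0 : ℝ)..π, |Real.sin θ| * Φ (b * Real.cos θ) = 1 / b * ∫ s in (-b)..b, Φ s := by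
    have h2 := intervalIntegral.integral_comp_mul_deriv (a := 0) (b := π)
      (f := fun θ => b * Real.cos θ) (f' := fun θ => b * (-Real.sin θ)) (g := Φ)
      (fun θ _ => (Real.hasDerivAt_cos θ).const_mul b) (by fun_prop) hΦ
    have h3 : ∫ θ in (0 : ℝ)..π, (Φ ∘ fun θ => b * Real.cos θ) θ * (b * -Real.sin θ) =
        -b * ∫ θ in (0 : ℝ)..π, |Real.sin θ| * Φ (b * Real.cos θ) := by
      rw [← intervalIntegral.integral_const_mul]
      apply intervalIntegral.integral_congr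
      intro θ hθ
      rw [uIcc_of_le Real.pi_pos.le] at hθ
      simp only [Function.comp_apply]
      rw [abs_of_nonneg (Real.sin_nonneg_of_mem_Icc hθ)]
      ring
    rw [h3, Real.cos_zero, Real.cos_pi, mul_one, mul_neg_one,
      intervalIntegral.integral_symm (-b) b] at h2
    field_simp
    linarith
  have h4 : ∫ θ in π..2 * π, |Real.sin θ| * Φ (b * Real.cos θ) =
      ∫ θ in (0 : ℝ)..π, |Real.sin θ| * Φ (b * Real.cos θ) := by
    have h5 := intervalIntegral.integral_comp_sub_left (a := 0) (b := π)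
      (fun θ => |Real.sin θ| * Φ (b * Real.cos θ)) (2 * π)
    rw [show 2 * π - π = π by ring, sub_zero] at h5
    rw [← h5]
    apply intervalIntegral.integral_congr
    intro θ _
    simp only
    rw [Real.sin_two_pi_sub, Real.cos_two_pi_sub, abs_neg]
  rw [← intervalIntegral.integral_add_adjacent_intervals (hcont.intervalIntegrable 0 π)
    (hcont.intervalIntegrable π (2 * π)), h4, h1]
  ring

/-- the Cauchy estimate -/
lemma cauchy_est {A b : ℝ} (h : Par A b) {f : ℝ[X]} {n : ℕ} (hf : f.natDegree ≤ n) (D : ℕ)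
    {w : ℂ} (hw : ‖w‖ < 1) : ‖Hz f n D A b w‖ * (1 - ‖w‖) ≤
      2 / (π * b) * ∫ s in (-b)..b, |f.eval s| * wt D s := by
  have hb := h.b_pos
  have hdiff := (differentiable_Hz f n D A b)
  have hC := (hdiff.diffContOnCl (s := ball (0 : ℂ) 1)).two_pi_i_inv_smul_circleIntegral_sub_inv_smul
    (w := w) (by simpa using hw)
  have hcontΦ : Continuous (fun s : ℝ => |f.eval s| * wt D s) :=
    f.continuous.abs.mul (continuous_wt D)
  have hw1 : 0 < 1 - ‖w‖ := by linarith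
  have h1 : ‖∮ z in C(0, 1), (z - w)⁻¹ • Hz f n D A b z‖ ≤
      ∫ θ in (0 : ℝ)..2 * π, (1 - ‖w‖)⁻¹ *
        (2 * (|Real.sin θ| * (|f.eval (b * Real.cos θ)| * wt D (b * Real.cos θ)))) := by
    unfold circleIntegral
    apply intervalIntegral.norm_integral_le_of_norm_le (by positivity)
    · refine Filter.Eventually.of_forall fun θ _ => ?_
      rw [norm_smul, norm_smul, norm_Hz h hf D θ, norm_inv, deriv_circleMap, norm_mul,
        Complex.norm_I, mul_one]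
      have e1 : ‖circleMap 0 1 θ‖ = 1 := by simp
      rw [e1, one_mul]
      apply mul_le_mul_of_nonneg_right
      · apply inv_anti₀ hw1
        have := norm_sub_norm_le (circleMap 0 1 θ) w
        rw [e1] at this
        exact this
      · have := wt_nonneg D (b * Real.cos θ)
        positivity
    · apply Continuous.intervalIntegrable
      have : Continuous (fun θ : ℝ => |f.eval (b * Real.cos θ)| * wt D (b * Real.cos θ)) :=
        hcontΦ.comp (continuous_const.mul Real.continuous_cos)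
      fun_prop
  have h2 : ∫ θ in (0 : ℝ)..2 * π, (1 - ‖w‖)⁻¹ *
        (2 * (|Real.sin θ| * (|f.eval (b * Real.cos θ)| * wt D (b * Real.cos θ)))) =
        (1 - ‖w‖)⁻¹ * (2 * (2 / b * ∫ s in (-b)..b, |f.eval s| * wt D s)) := by
    rw [intervalIntegral.integral_const_mul, intervalIntegral.integral_const_mul,
      integral_circle hcontΦ hb]
  rw [h2] at h1
  have h3 : ‖Hz f n D A b w‖ = (2 * π)⁻¹ * ‖∮ z in C(0, 1), (z - w)⁻¹ • Hz f n D A b z‖ := by
    rw [← hC, norm_smul, norm_inv, norm_mul, norm_mul, Complex.norm_I, mul_one, Complex.norm_real,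
      Real.norm_eq_abs, abs_of_pos Real.pi_pos]
    norm_num
  rw [h3]
  have h4 : (2 * π)⁻¹ * ‖∮ z in C(0, 1), (z - w)⁻¹ • Hz f n D A b z‖ * (1 - ‖w‖) ≤
      (2 * π)⁻¹ * ((1 - ‖w‖)⁻¹ * (2 * (2 / b * ∫ s in (-b)..b, |f.eval s| * wt D s))) * (1 - ‖w‖) := by
    apply mul_le_mul_of_nonneg_right _ hw1.le
    apply mul_le_mul_of_nonneg_left h1 (by positivity)
  refine h4.trans (le_of_eq ?_)
  have := Real.pi_pos.ne'
  field_simp

/-- the key inequality -/
lemma key_ineq {a y : ℝ} (ha : 1 < a) (hy : 1 ≤ y) (hya : y < a) :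
    y * (a - y) / (a * y - 1) ≤ y ^ (-(2 / (a - 1))) := by
  have hy0 : 0 < y := by linarith
  have ha1 : 0 < a - 1 := by linarith
  have hay : 0 < a * y - 1 := by nlinarith
  have hay2 : 0 < a - y := by linarith
  set κ : ℝ := 1 + 2 / (a - 1) with hκ
  set h : ℝ → ℝ := fun u => Real.log (a * u - 1) - κ * Real.log u - Real.log (a - u) with hh
  have hder : ∀ u ∈ Icc 1 y, HasDerivAt h (a / (a * u - 1) - κ * (1 / u) - (-1) / (a - u)) u := by
    intro u hu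
    have hu0 : 0 < u := by linarith [hu.1]
    have h1 : 0 < a * u - 1 := by nlinarith [hu.1]
    have h2 : 0 < a - u := by linarith [hu.2]
    have d1 : HasDerivAt (fun u => a * u - 1) a u := by
      simpa using ((hasDerivAt_id u).const_mul a).sub_const 1
    have d2 : HasDerivAt (fun u => a - u) (-1) u := by
      simpa using (hasDerivAt_id u).const_sub a
    have d3 := (Real.hasDerivAt_log hu0.ne').const_mul κ
    rw [← one_div] at d3
    exact ((d1.log h1.ne').sub d3).sub (d2.log h2.ne')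
  have hmono : h 1 ≤ h y := by
    have hcont : ContinuousOn h (Icc 1 y) := fun u hu => (hder u hu).continuousAt.continuousWithinAt
    apply monotoneOn_of_deriv_nonneg (convex_Icc 1 y) hcont
    · intro u hu
      rw [interior_Icc] at hu
      exact (hder u ⟨hu.1.le, hu.2.le⟩).differentiableAt.differentiableWithinAt
    · intro u hu
      rw [interior_Icc] at hu
      rw [(hder u ⟨hu.1.le, hu.2.le⟩).deriv]
      have hu0 : 0 < u := by linarith [hu.1]
      have h1 : 0 < a * u - 1 := by nlinarith [hu.1]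
      have h2 : 0 < a - u := by linarith [hu.2]
      have e : a / (a * u - 1) - κ * (1 / u) - (-1) / (a - u) =
          (a + 1) * a * (u - 1) ^ 2 / ((a - 1) * (a * u - 1) * u * (a - u)) := by
        rw [hκ]
        field_simp
        ring
      rw [e]
      positivity
    · exact ⟨le_refl _, hy⟩
    · exact ⟨hy, le_refl _⟩
    · exact hy
  have h1 : h 1 = 0 := by
    simp [hh]
  rw [h1] at hmono
  have e1 : y * (a - y) / (a * y - 1) =
      Real.exp (Real.log y + Real.log (a - y) - Real.log (a * y - 1)) := by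
    rw [Real.exp_sub, Real.exp_add, Real.exp_log hy0, Real.exp_log hay2, Real.exp_log hay]
  rw [e1, Real.rpow_def_of_pos hy0]
  apply Real.exp_le_exp.2
  simp only [hh, hκ] at hmono
  nlinarith

/-- the value of the analytic function at real points -/
lemma Hz_real {A b : ℝ} (h : Par A b) {f : ℝ[X]} {n : ℕ} (hf : f.natDegree ≤ n) (D : ℕ)
    {x t : ℝ} (hx : 1 < x) (hxt : b / 2 * (x + x⁻¹) = t) :
    ‖Hz f n D A b ((x⁻¹ : ℝ) : ℂ)‖ = (x⁻¹) ^ n * |f.eval t| * (1 - (x⁻¹) ^ 2) *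
      (b * A / 2 * (1 - (x⁻¹) ^ 2 / A ^ 2)) ^ D := by
  have hx0 : 0 < x := by linarith
  have hxi : 0 < x⁻¹ := inv_pos.2 hx0
  have hxi1 : x⁻¹ < 1 := inv_lt_one_of_one_lt₀ hx
  have hA := h.hA
  have hb := h.b_pos
  have e1 : Fz f n b ((x⁻¹ : ℝ) : ℂ) = ((x⁻¹ : ℝ) : ℂ) ^ n * ((f.eval t : ℝ) : ℂ) := by
    apply Fz_eq hf
    · exact_mod_cast hxi.ne'
    · rw [← hxt]
      push_cast
      rw [inv_inv]
      ring
  have e2 : Hz f n D A b ((x⁻¹ : ℝ) : ℂ) = (((x⁻¹) ^ n * f.eval t * (1 - (x⁻¹) ^ 2) *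
      (b * A / 2 * (1 - (x⁻¹) ^ 2 / A ^ 2)) ^ D : ℝ) : ℂ) := by
    unfold Hz
    rw [e1]
    push_cast
    ring
  rw [e2, Complex.norm_real, Real.norm_eq_abs, abs_mul, abs_mul, abs_mul]
  have h1 : 0 < 1 - (x⁻¹) ^ 2 := by nlinarith
  have h2 : 0 < 1 - (x⁻¹) ^ 2 / A ^ 2 := by
    rw [sub_pos, div_lt_one (by positivity)]
    nlinarith
  have h3 : 0 ≤ (b * A / 2 * (1 - (x⁻¹) ^ 2 / A ^ 2)) ^ D := by positivity
  rw [abs_of_pos (pow_pos hxi n), abs_of_pos h1, abs_of_nonneg h3]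

/-- the point `x` -/
lemma exists_x {A b : ℝ} (h : Par A b) (hb2 : b < 1 / 2) {t : ℝ} (ht1 : 1 / 2 ≤ t) (ht : t < 1) :
    ∃ x, 1 / (2 * b) ≤ x ∧ x < A ∧ b / 2 * (x + x⁻¹) = t := by
  have hA := h.hA
  have hb := h.b_pos
  have hb' := h.hb
  set r := Real.sqrt (t ^ 2 - b ^ 2) with hr
  have hr2 : r ^ 2 = t ^ 2 - b ^ 2 := Real.sq_sqrt (by nlinarith)
  have hr0 : 0 ≤ r := Real.sqrt_nonneg _
  set x := (t + r) / b with hx
  have hx0 : 0 < x := by
    rw [hx]; apply div_pos _ hb; linarith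
  have hxb : x * b = t + r := by rw [hx]; field_simp
  have hxeq : b * (x ^ 2 + 1) = 2 * t * x := by
    have h1 : (x * b) ^ 2 = 2 * t * (x * b) - b ^ 2 := by
      rw [hxb]; linear_combination hr2
    have h2 : b * (b * (x ^ 2 + 1)) = b * (2 * t * x) := by linear_combination h1
    exact mul_left_cancel₀ hb.ne' h2
  have hxt : b / 2 * (x + x⁻¹) = t := by
    field_simp
    linarith
  have hxx₀ : 1 / (2 * b) ≤ x := by
    rw [div_le_iff₀ (by positivity)]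
    linarith
  refine ⟨x, hxx₀, ?_, hxt⟩
  by_contra hcon
  push Not at hcon
  have h2 : 0 ≤ (x - A) * (A * x - 1) :=
    mul_nonneg (by linarith) (by nlinarith)
  have h4 : 0 ≤ b * ((x - A) * (A * x - 1)) := mul_nonneg hb.le h2
  have h5 : b * ((x - A) * (A * x - 1)) = 2 * t * x * A - 2 * A * x := by
    linear_combination A * hxeq - x * hb'
  have h3 : 0 < A * x := mul_pos (by linarith) hx0
  have h6 : 0 < (1 - t) * (A * x) := mul_pos (by linarith) h3
  linarith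

/-- the estimate for the weight -/
lemma sqrt_est {A b : ℝ} (h : Par A b) {x t : ℝ} (hx1 : 1 < x) (hxA : x < A)
    (hxt : b / 2 * (x + x⁻¹) = t) : 0 < b * A / 2 * (1 - (x⁻¹) ^ 2 / A ^ 2) ∧
    Real.sqrt (1 - t ^ 2) ≤
      b * A / 2 * (1 - (x⁻¹) ^ 2 / A ^ 2) * x ^ (-(2 / (A ^ 2 - 1))) := by
  have hA := h.hA
  have hA0 : 0 < A := by linarith
  have hb := h.b_pos
  have hb' := h.hb
  have hx0 : 0 < x := by linarith
  have hxi : 0 < x⁻¹ := inv_pos.2 hx0
  have hxi1 : x⁻¹ < 1 := inv_lt_one_of_one_lt₀ hx1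
  have hA2 : 1 < A ^ 2 := one_lt_pow₀ hA two_ne_zero
  have hx2 : 1 < x ^ 2 := one_lt_pow₀ hx1 two_ne_zero
  have hxA2 : x ^ 2 < A ^ 2 := pow_lt_pow_left₀ hxA hx0.le two_ne_zero
  set P := b * A / 2 * (1 - (x⁻¹) ^ 2 / A ^ 2) with hP
  have hP0 : 0 < P := by
    rw [hP]
    have : 0 < 1 - (x⁻¹) ^ 2 / A ^ 2 := by
      rw [sub_pos, div_lt_one (by positivity)]
      have : (x⁻¹) ^ 2 < 1 := pow_lt_one₀ hxi.le hxi1 two_ne_zero
      linarith
    positivity
  refine ⟨hP0, ?_⟩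
  set bs := 2 / (A ^ 2 - 1) with hbs
  have hy := key_ineq (a := A ^ 2) (y := x ^ 2) hA2 hx2.le hxA2
  have hyy : (x ^ 2) ^ (-bs) = (x ^ (-bs)) ^ 2 := by
    rw [← Real.rpow_natCast x 2, ← Real.rpow_mul hx0.le, ← Real.rpow_natCast (x ^ (-bs)) 2,
      ← Real.rpow_mul hx0.le]
    congr 1
    push_cast; ring
  rw [← hbs, hyy] at hy
  have e : 1 - t ^ 2 = P ^ 2 * (x ^ 2 * (A ^ 2 - x ^ 2) / (A ^ 2 * x ^ 2 - 1)) := by
    have h1 : A ^ 2 * x ^ 2 - 1 ≠ 0 := by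
      have : 1 < A ^ 2 * x ^ 2 := one_lt_mul_of_lt_of_le hA2 hx2.le
      linarith
    have hbe : b = 2 * A / (A ^ 2 + 1) := by
      field_simp; linarith
    have hte : t = A * (x ^ 2 + 1) / (x * (A ^ 2 + 1)) := by
      rw [← hxt, hbe]
      field_simp
    rw [hP, hte, hbe]
    field_simp
    ring
  have h2 : 1 - t ^ 2 ≤ (P * x ^ (-bs)) ^ 2 := by
    calc 1 - t ^ 2 = P ^ 2 * (x ^ 2 * (A ^ 2 - x ^ 2) / (A ^ 2 * x ^ 2 - 1)) := e
      _ ≤ P ^ 2 * (x ^ (-bs)) ^ 2 := mul_le_mul_of_nonneg_left hy (sq_nonneg P)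
      _ = (P * x ^ (-bs)) ^ 2 := (mul_pow P _ 2).symm
  exact Real.sqrt_le_iff.2 ⟨by positivity, h2⟩

/-- the gain -/
lemma gain {x x₀ bs β : ℝ} (hx₀ : 1 < x₀) (hx : x₀ ≤ x) (hβ : β < bs) {n D : ℕ}
    (hn : (n : ℝ) ≤ β * D) :
    x ^ n * (x ^ (-bs)) ^ D ≤ Real.exp (-((bs - β) * Real.log x₀)) ^ D := by
  have hx0 : 0 < x := by linarith
  have hx₀0 : 0 < x₀ := by linarith
  have hlog : 0 < Real.log x₀ := Real.log_pos hx₀
  have e1 : x ^ n * (x ^ (-bs)) ^ D = Real.exp (((n : ℝ) - bs * D) * Real.log x) := by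
    rw [← Real.rpow_natCast, ← Real.rpow_natCast, ← Real.rpow_mul hx0.le, ← Real.rpow_add hx0,
      Real.rpow_def_of_pos hx0]
    congr 1; ring
  rw [e1, ← Real.exp_nat_mul]
  apply Real.exp_le_exp.2
  have hD' : (0 : ℝ) ≤ D := Nat.cast_nonneg D
  have hl : Real.log x₀ ≤ Real.log x := Real.log_le_log hx₀0 hx
  have h7 : (n : ℝ) - bs * D ≤ -((bs - β) * D) := by linarith
  have h8 : 0 ≤ (bs - β) * D := mul_nonneg (by linarith) hD'
  calc ((n : ℝ) - bs * D) * Real.log x ≤ -((bs - β) * D) * Real.log x :=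
        mul_le_mul_of_nonneg_right h7 (by linarith)
    _ ≤ -((bs - β) * D) * Real.log x₀ := by nlinarith
    _ = _ := by ring

/-- the weighted Remez inequality, pointwise form -/
theorem remez_point {A b : ℝ} (h : Par A b) (hb2 : b < 1 / 2) {β : ℝ} (hβ : β < 2 / (A ^ 2 - 1)) :
    ∃ C θ : ℝ, 0 < C ∧ 0 < θ ∧ θ < 1 ∧ ∀ (D n : ℕ) (f : ℝ[X]), 1 ≤ D → (n : ℝ) ≤ β * D →
      f.natDegree ≤ n → ∀ t : ℝ, 1 / 2 ≤ t → t ≤ 1 →
        |f.eval t| * wt D t ≤ C * θ ^ D * ∫ s in (-b)..b, |f.eval s| * wt D s := by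
  have hA := h.hA
  have hb := h.b_pos
  have hπ := Real.pi_pos
  set x₀ := 1 / (2 * b) with hx₀
  have hx₀1 : 1 < x₀ := by
    rw [hx₀, lt_div_iff₀ (by positivity)]; linarith
  have hx₀0 : 0 < x₀ := by linarith
  have hlog : 0 < Real.log x₀ := Real.log_pos hx₀1
  set bs := 2 / (A ^ 2 - 1) with hbs
  have hx₀i : x₀⁻¹ < 1 := inv_lt_one_of_one_lt₀ hx₀1
  have hxi0 : 0 < 1 - x₀⁻¹ := by linarith
  refine ⟨2 / (π * b) / (1 - x₀⁻¹) ^ 2, Real.exp (-((bs - β) * Real.log x₀)), by positivity,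
    Real.exp_pos _, ?_, ?_⟩
  · rw [Real.exp_lt_one_iff]
    have : 0 < (bs - β) * Real.log x₀ := mul_pos (by linarith) hlog
    linarith
  intro D n f hD hn hf t ht1 ht2
  have hI0 : 0 ≤ ∫ s in (-b)..b, |f.eval s| * wt D s :=
    intervalIntegral.integral_nonneg (by linarith) fun s _ =>
      mul_nonneg (abs_nonneg _) (wt_nonneg _ _)
  rcases ht2.lt_or_eq with ht | ht
  swap
  · -- `t = 1`
    rw [ht]
    have : wt D 1 = 0 := by
      unfold wt
      rw [show (1 : ℝ) - 1 ^ 2 = 0 by norm_num, Real.sqrt_zero, zero_pow (by omega)]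
    rw [this, mul_zero]
    positivity
  obtain ⟨x, hxx₀, hxA, hxt⟩ := exists_x h hb2 ht1 ht
  rw [← hx₀] at hxx₀
  have hx1 : 1 < x := by linarith
  have hx0 : 0 < x := by linarith
  have hxi : 0 < x⁻¹ := inv_pos.2 hx0
  have hxi1 : x⁻¹ < 1 := inv_lt_one_of_one_lt₀ hx1
  obtain ⟨hP0, hsq⟩ := sqrt_est h hx1 hxA hxt
  rw [← hbs] at hsq
  set P := b * A / 2 * (1 - (x⁻¹) ^ 2 / A ^ 2) with hP
  have hwt : wt D t ≤ P ^ D * (x ^ (-bs)) ^ D := by
    unfold wt
    rw [← mul_pow]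
    exact pow_le_pow_left₀ (Real.sqrt_nonneg _) hsq D
  -- Cauchy
  have hw : ‖((x⁻¹ : ℝ) : ℂ)‖ = x⁻¹ := by
    rw [Complex.norm_real, Real.norm_eq_abs, abs_of_pos hxi]
  have hc := cauchy_est h hf D (w := ((x⁻¹ : ℝ) : ℂ)) (by rw [hw]; exact hxi1)
  rw [Hz_real h hf D hx1 hxt, hw, ← hP] at hc
  set I := ∫ s in (-b)..b, |f.eval s| * wt D s with hI
  have hx₀x : x⁻¹ ≤ x₀⁻¹ := inv_anti₀ hx₀0 hxx₀
  have hfac : (1 - x₀⁻¹) ^ 2 ≤ (1 - (x⁻¹) ^ 2) * (1 - x⁻¹) := by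
    have h1 : 1 - x₀⁻¹ ≤ 1 - x⁻¹ := by linarith
    have h2 : 1 - x⁻¹ ≤ 1 - (x⁻¹) ^ 2 := by nlinarith
    rw [sq]
    exact mul_le_mul (h1.trans h2) h1 hxi0.le (by linarith)
  have h3 : |f.eval t| * P ^ D * (1 - x₀⁻¹) ^ 2 ≤ x ^ n * (2 / (π * b) * I) := by
    have h4 : |f.eval t| * P ^ D * ((1 - (x⁻¹) ^ 2) * (1 - x⁻¹)) ≤ x ^ n * (2 / (π * b) * I) := by
      have h5 : x ^ n * ((x⁻¹) ^ n * |f.eval t| * (1 - (x⁻¹) ^ 2) * P ^ D * (1 - x⁻¹)) ≤
          x ^ n * (2 / (π * b) * I) := mul_le_mul_of_nonneg_left hc (by positivity)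
      have h6 : x ^ n * (x⁻¹) ^ n = 1 := by
        rw [← mul_pow, mul_inv_cancel₀ hx0.ne', one_pow]
      calc |f.eval t| * P ^ D * ((1 - (x⁻¹) ^ 2) * (1 - x⁻¹))
          = (x ^ n * (x⁻¹) ^ n) * (|f.eval t| * P ^ D * ((1 - (x⁻¹) ^ 2) * (1 - x⁻¹))) := by
            rw [h6, one_mul]
        _ = x ^ n * ((x⁻¹) ^ n * |f.eval t| * (1 - (x⁻¹) ^ 2) * P ^ D * (1 - x⁻¹)) := by ring
        _ ≤ _ := h5
    refine le_trans ?_ h4
    exact mul_le_mul_of_nonneg_left hfac (by positivity)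
  have hgain := gain hx₀1 hxx₀ hβ hn
  have hxbs : 0 ≤ (x ^ (-bs)) ^ D := by positivity
  have h9 : |f.eval t| * wt D t * (1 - x₀⁻¹) ^ 2 ≤
      Real.exp (-((bs - β) * Real.log x₀)) ^ D * (2 / (π * b) * I) := by
    calc |f.eval t| * wt D t * (1 - x₀⁻¹) ^ 2
        ≤ |f.eval t| * (P ^ D * (x ^ (-bs)) ^ D) * (1 - x₀⁻¹) ^ 2 := by gcongr
      _ = (|f.eval t| * P ^ D * (1 - x₀⁻¹) ^ 2) * (x ^ (-bs)) ^ D := by ring
      _ ≤ (x ^ n * (2 / (π * b) * I)) * (x ^ (-bs)) ^ D :=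
          mul_le_mul_of_nonneg_right h3 hxbs
      _ = (x ^ n * (x ^ (-bs)) ^ D) * (2 / (π * b) * I) := by ring
      _ ≤ _ := mul_le_mul_of_nonneg_right hgain (by positivity)
  have h10 : 0 < (1 - x₀⁻¹) ^ 2 := by positivity
  rw [← le_div_iff₀ h10] at h9
  refine h9.trans (le_of_eq ?_)
  ring

end Pool.Agent.Helper47.KP
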