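import Pool.Agent.Helper47.KP.Op
import Pool.Agent.Helper47.KP.Remez
import Pool.Agent.Helper47.KP.Extremal

/-!
The density `g`: supported in `t ≤ 1/2`, between `0` and `1 + C θ^D`, of mean `1`, with small
Gegenbauer coefficients.
-/

set_option autoImplicit false

open MeasureTheory Set Metric Polynomial
open scoped Real

namespace Pool.Agent.Helper47.KP

variable {d : ℕ}

/-- the density built from the function `a` -/
noncomputable def dens (b : ℝ) (a : ℝ → ℝ) (t : ℝ) : ℝ :=
  (Iic (1 / 2 : ℝ)).indicator (fun _ => (1 : ℝ)) t + (Ioc (-b) b).indicator a t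

lemma measurable_dens (b : ℝ) {a : ℝ → ℝ} (ha : Measurable a) : Measurable (dens b a) :=
  (measurable_const.indicator measurableSet_Iic).add (ha.indicator measurableSet_Ioc)

lemma dens_of_gt {b : ℝ} (hb2 : b < 1 / 2) (a : ℝ → ℝ) {t : ℝ} (ht : 1 / 2 < t) :
    dens b a t = 0 := by
  unfold dens
  rw [indicator_of_notMem, indicator_of_notMem, add_zero]
  · intro h; linarith [h.2]
  · intro h; exact absurd h (not_le.2 ht)

lemma dens_bounds {b : ℝ} (hb2 : b < 1 / 2) {a : ℝ → ℝ} {r : ℝ} (hr : r ≤ 1)
    (ha : ∀ t, |a t| ≤ r) (t : ℝ) : 0 ≤ dens b a t ∧ dens b a t ≤ 1 + r ∧ |dens b a t - 1| ≤ 1 := by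
  have hr0 : 0 ≤ r := (abs_nonneg _).trans (ha 0)
  rcases le_or_gt t (1 / 2) with ht | ht
  · unfold dens
    rw [indicator_of_mem (show t ∈ Iic (1 / 2 : ℝ) from ht)]
    by_cases h : t ∈ Ioc (-b) b
    · rw [indicator_of_mem h]
      have := abs_le.1 (ha t)
      refine ⟨by linarith [this.1], by linarith [this.2], ?_⟩
      rw [add_sub_cancel_left]
      exact (ha t).trans hr
    · rw [indicator_of_notMem h]
      refine ⟨by norm_num, by linarith, by norm_num⟩
  · rw [dens_of_gt hb2 a ht]
    refine ⟨le_rfl, by linarith, by norm_num⟩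

/-- integration against the density -/
lemma integral_dens {b : ℝ} (hb0 : 0 < b) (hb2 : b < 1 / 2) {a : ℝ → ℝ} (hac : Continuous a)
    {f : ℝ → ℝ} (hf : Continuous f) :
    ∫ t, dens b a t * f t ∂(den d) = cst d *
      ((∫ t in (-1 : ℝ)..(1 / 2), f t * wt (d - 3) t) +
        ∫ t in (-b)..b, a t * (f t * wt (d - 3) t)) := by
  rw [integral_den]
  congr 1
  have hw := continuous_wt (d - 3)
  have hfw : Continuous (fun t => f t * wt (d - 3) t) := hf.mul hw
  have hafw : Continuous (fun t => a t * (f t * wt (d - 3) t)) := hac.mul hfw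
  have e1 : ∫ t in (-1 : ℝ)..1, dens b a t * f t * wt (d - 3) t =
      ∫ t in (-1 : ℝ)..1, ((Iic (1 / 2 : ℝ)).indicator (fun t => f t * wt (d - 3) t) t +
        (Ioc (-b) b).indicator (fun t => a t * (f t * wt (d - 3) t)) t) := by
    congr 1; funext t
    unfold dens
    by_cases h1 : t ∈ Iic (1 / 2 : ℝ) <;> by_cases h2 : t ∈ Ioc (-b) b <;>
      simp only [indicator_of_mem, indicator_of_notMem, h1, h2, not_false_eq_true] <;> ring
  rw [e1, intervalIntegral.integral_of_le (by norm_num), integral_add]
  · rw [setIntegral_indicator measurableSet_Iic, setIntegral_indicator measurableSet_Ioc,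
      intervalIntegral.integral_of_le (by norm_num), intervalIntegral.integral_of_le (by linarith)]
    congr 2
    · congr 1
      ext t
      simp only [mem_inter_iff, mem_Ioc, mem_Iic]
      constructor
      · rintro ⟨⟨h1, _⟩, h3⟩; exact ⟨h1, h3⟩
      · rintro ⟨h1, h3⟩; exact ⟨⟨h1, by linarith⟩, h3⟩
    · congr 1
      ext t
      simp only [mem_inter_iff, mem_Ioc]
      constructor
      · rintro ⟨_, h3⟩; exact h3
      · rintro ⟨h1, h3⟩; exact ⟨⟨by linarith, by linarith⟩, h1, h3⟩
  · exact ((hfw.intervalIntegrable (-1) 1).1).indicator measurableSet_Iic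
  · exact ((hafw.intervalIntegrable (-1) 1).1).indicator measurableSet_Ioc

lemma nrm_le [NeZero d] (hd : 3 ≤ d) {n j : ℕ} (hnj : n ≤ j) :
    nrm d j ≤ 1 / (Nat.choose (n + (d - 3)) n : ℝ) := by
  obtain ⟨x⟩ := exists_point (d := d)
  have h1 := zon_norm_le hd x j
  rw [zon_eq_nrm hd x] at h1
  have h2 : (Nat.choose (n + (d - 3)) n : ℝ) ≤ (Nat.choose (j + (d - 3)) j : ℝ) := by
    rw [Nat.choose_symm_add, Nat.choose_symm_add]
    exact_mod_cast Nat.choose_le_choose _ (by omega)
  have h3 : 0 < (Nat.choose (n + (d - 3)) n : ℝ) := by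
    exact_mod_cast Nat.choose_pos (by omega)
  rw [le_div_iff₀ h3]
  have h4 := (nrm_pos hd (d := d) j).le
  nlinarith

lemma integral_PP_den [NeZero d] (hd : 3 ≤ d) {j : ℕ} (hj : 1 ≤ j) :
    ∫ t, (PP d j).eval t ∂(den d) = 0 := by
  obtain ⟨x⟩ := exists_point (d := d)
  rw [← int_zonal_den hd x (f := fun t => (PP d j).eval t) (PP d j).continuous.measurable]
  have := PP_orth hd (i := 0) (j := j) (by omega) x x
  simpa [PP_zero] using this

/-- existence of the density -/
theorem exists_density {A b : ℝ} (h : Par A b) (hb2 : b < 1 / 2) {β : ℝ}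
    (hβ : β < 2 / (A ^ 2 - 1)) :
    ∃ C θ : ℝ, 0 < C ∧ 0 < θ ∧ θ < 1 ∧ ∀ (d n : ℕ) [NeZero d], 4 ≤ d →
      (n : ℝ) ≤ β * ((d - 3 : ℕ) : ℝ) → C * θ ^ (d - 3) ≤ 1 →
      ∃ g : ℝ → ℝ, Measurable g ∧ (∀ t, 0 ≤ g t) ∧ (∀ t, g t ≤ 1 + C * θ ^ (d - 3)) ∧
        (∀ t, 1 / 2 < t → g t = 0) ∧ ∫ t, g t ∂(den d) = 1 ∧
        ∀ j, 1 ≤ j → |∫ t, g t * (PP d j).eval t ∂(den d)| ≤
          Real.sqrt (1 / (Nat.choose (n + (d - 3)) n : ℝ)) := by
  obtain ⟨C, θ, hC, hθ0, hθ1, hrem⟩ := remez_point h hb2 hβ
  refine ⟨C, θ, hC, hθ0, hθ1, ?_⟩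
  intro d n _ hd hn hr1
  have hd3 : 3 ≤ d := by omega
  have hb0 := h.b_pos
  set D := d - 3 with hD
  have hw := continuous_wt D
  set r := C * θ ^ D with hr
  have hr0 : 0 < r := by positivity
  have hrem' : ∀ f : ℝ[X], f.natDegree ≤ n → ∫ t in (1 / 2 : ℝ)..1, f.eval t * wt D t ≤
      r / 2 * ∫ t in (-b)..b, |f.eval t| * wt D t := by
    intro f hf
    have h1 := hrem D n f (by omega) hn hf
    have h2 : ∫ t in (1 / 2 : ℝ)..1, f.eval t * wt D t ≤
        ∫ _t in (1 / 2 : ℝ)..1, r * ∫ t in (-b)..b, |f.eval t| * wt D t := by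
      apply intervalIntegral.integral_mono_on (by norm_num)
      · exact (f.continuous.mul hw).intervalIntegrable _ _
      · exact intervalIntegrable_const
      · intro t ht
        refine le_trans ?_ (h1 t ht.1 ht.2)
        exact mul_le_mul_of_nonneg_right (le_abs_self _) (wt_nonneg _ _)
    refine h2.trans (le_of_eq ?_)
    rw [intervalIntegral.integral_const, smul_eq_mul]
    ring
  obtain ⟨a, hac, har, haf⟩ := exists_dual hb0 (by linarith) (by positivity)
    (show r / 2 < r by linarith) hrem'
  have hb := dens_bounds hb2 hr1 har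
  have hgm := measurable_dens b hac.measurable
  -- moments
  have hmom : ∀ f : ℝ[X], f.natDegree ≤ n →
      ∫ t, dens b a t * f.eval t ∂(den d) = ∫ t, f.eval t ∂(den d) := by
    intro f hf
    rw [integral_dens hb0 hb2 hac f.continuous, haf f hf, integral_den]
    congr 1
    exact intervalIntegral.integral_add_adjacent_intervals
      ((f.continuous.mul hw).intervalIntegrable _ _) ((f.continuous.mul hw).intervalIntegrable _ _)
  refine ⟨dens b a, hgm, fun t => (hb t).1, fun t => (hb t).2.1,
    fun t ht => dens_of_gt hb2 a ht, ?_, ?_⟩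
  · have h1 := hmom 1 (by simp)
    simp only [eval_one, mul_one] at h1
    rw [h1, integral_den]
    simp only [one_mul]
    unfold cst
    exact inv_mul_cancel₀ (integral_wt_pos _).ne'
  · intro j hj
    by_cases hjn : j ≤ n
    · rw [hmom (PP d j) ((natDegree_PP j).trans hjn), integral_PP_den hd3 hj, abs_zero]
      exact Real.sqrt_nonneg _
    · push Not at hjn
      have hpos := nrm_pos hd3 (d := d) j
      have hle := nrm_le hd3 (d := d) hjn.le
      refine le_trans ?_ (Real.sqrt_le_sqrt hle)
      set s := Real.sqrt (nrm d j) with hs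
      have hs0 : 0 < s := Real.sqrt_pos.2 hpos
      have hs2 : s * s = nrm d j := Real.mul_self_sqrt hpos.le
      -- integrability
      obtain ⟨M, hM⟩ := (isCompact_Icc (a := (-1 : ℝ)) (b := 1)).image
        (PP d j).continuous |>.isBounded.exists_norm_le
      have hM' : ∀ t ∈ Icc (-1 : ℝ) 1, |(PP d j).eval t| ≤ M := fun t ht => hM _ ⟨t, ht, rfl⟩
      have hM0 : 0 ≤ M := (abs_nonneg _).trans (hM' 0 ⟨by norm_num, by norm_num⟩)
      have i1 : Integrable (fun t => (PP d j).eval t) (den d) := by
        refine Integrable.of_bound (PP d j).continuous.aestronglyMeasurable M ?_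
        filter_upwards [den_supp] with t ht
        exact hM' t ht
      have i2 : Integrable (fun t => dens b a t * (PP d j).eval t) (den d) := by
        refine Integrable.of_bound (hgm.mul (PP d j).continuous.measurable).aestronglyMeasurable
          (2 * M) ?_
        filter_upwards [den_supp] with t ht
        rw [norm_mul, Real.norm_eq_abs, Real.norm_eq_abs]
        apply mul_le_mul _ (hM' t ht) (abs_nonneg _) (by norm_num)
        rw [abs_of_nonneg (hb t).1]
        linarith [(hb t).2.1]
      have i3 : Integrable (fun t => (dens b a t - 1) * (PP d j).eval t) (den d) := by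
        have := i2.sub i1
        refine this.congr (Filter.Eventually.of_forall fun t => ?_)
        show dens b a t * (PP d j).eval t - (PP d j).eval t = _
        ring
      have i4 : Integrable (fun t => (s + (PP d j).eval t ^ 2 / s) / 2) (den d) := by
        refine Integrable.of_bound (by
          apply Continuous.aestronglyMeasurable
          exact (continuous_const.add (((PP d j).continuous.pow 2).div_const _)).div_const _)
          ((s + M ^ 2 / s) / 2) ?_
        filter_upwards [den_supp] with t ht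
        rw [Real.norm_eq_abs, abs_of_nonneg (by positivity)]
        have h1 : (PP d j).eval t ^ 2 ≤ M ^ 2 := by
          rw [← sq_abs]
          exact pow_le_pow_left₀ (abs_nonneg _) (hM' t ht) 2
        gcongr
      have e1 : ∫ t, dens b a t * (PP d j).eval t ∂(den d) =
          ∫ t, (dens b a t - 1) * (PP d j).eval t ∂(den d) := by
        have h1 : ∫ t, (dens b a t - 1) * (PP d j).eval t ∂(den d) =
            ∫ t, dens b a t * (PP d j).eval t ∂(den d) - ∫ t, (PP d j).eval t ∂(den d) := by
          rw [← integral_sub i2 i1]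
          congr 1; funext t; ring
        rw [h1, integral_PP_den hd3 hj, sub_zero]
      rw [e1]
      refine (abs_integral_le_integral_abs).trans ?_
      have h2 : ∫ t, |(dens b a t - 1) * (PP d j).eval t| ∂(den d) ≤
          ∫ t, (s + (PP d j).eval t ^ 2 / s) / 2 ∂(den d) := by
        apply integral_mono i3.abs i4
        intro t
        show |(dens b a t - 1) * (PP d j).eval t| ≤ (s + (PP d j).eval t ^ 2 / s) / 2
        rw [abs_mul]
        have h3 := (hb t).2.2
        have h4 := abs_nonneg ((PP d j).eval t)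
        have h5 : |(PP d j).eval t| ≤ (s + (PP d j).eval t ^ 2 / s) / 2 := by
          rw [le_div_iff₀ (by norm_num : (0 : ℝ) < 2), ← sq_abs]
          have h6 : s + |(PP d j).eval t| ^ 2 / s = (s ^ 2 + |(PP d j).eval t| ^ 2) / s := by
            field_simp
          rw [h6, le_div_iff₀ hs0]
          nlinarith [sq_nonneg (s - |(PP d j).eval t|)]
        calc |dens b a t - 1| * |(PP d j).eval t| ≤ 1 * |(PP d j).eval t| :=
              mul_le_mul_of_nonneg_right h3 h4
          _ ≤ _ := by rw [one_mul]; exact h5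
      refine h2.trans (le_of_eq ?_)
      rw [integral_den]
      have e2 : ∀ t, (s + (PP d j).eval t ^ 2 / s) / 2 * wt D t =
          s / 2 * wt D t + 1 / (2 * s) * ((PP d j).eval t ^ 2 * wt D t) := by
        intro t; field_simp
      simp only [← hD, e2]
      rw [intervalIntegral.integral_add, intervalIntegral.integral_const_mul,
        intervalIntegral.integral_const_mul]
      · have e3 : cst d * ∫ t in (-1 : ℝ)..1, wt D t = 1 := by
          unfold cst
          exact inv_mul_cancel₀ (integral_wt_pos _).ne'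
        have e4 : cst d * ∫ t in (-1 : ℝ)..1, (PP d j).eval t ^ 2 * wt D t = nrm d j := rfl
        set I1 := ∫ t in (-1 : ℝ)..1, wt D t
        set I2 := ∫ t in (-1 : ℝ)..1, (PP d j).eval t ^ 2 * wt D t
        have e5 : cst d * (s / 2 * I1 + 1 / (2 * s) * I2) =
            s / 2 * (cst d * I1) + 1 / (2 * s) * (cst d * I2) := by ring
        rw [e5, e3, e4, ← hs2]
        field_simp
        ring
      · exact (continuous_const.mul hw).intervalIntegrable _ _
      · exact (continuous_const.mul (((PP d j).continuous.pow 2).mul hw)).intervalIntegrable _ _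

end Pool.Agent.Helper47.KP
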