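import Pool.Agent.Helper47.KP.Sphere

/-!
The k-point semidefinite program and its index form.
-/

set_option autoImplicit false

open Finset
open scoped RealInnerProductSpace

namespace Pool.Agent.Helper47.KP

/-- The operator `B_k` of the `k`-point bound. -/
noncomputable def BB {X : Type} [DecidableEq X] (k : ℕ) (T : Finset X → X → X → ℝ) (S : Finset X) : ℝ :=
  ∑ Q ∈ S.powerset with Q.card + 2 ≤ k, ∑ x ∈ S, ∑ y ∈ S, if Q ∪ {x, y} = S then T Q x y else 0

section

variable {X : Type} [DecidableEq X] {m : ℕ}

/-- the kernel in terms of index sets -/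
noncomputable def tJ (k : ℕ) (T : Finset X → X → X → ℝ) (z : Fin m → X) (J : Finset (Fin m))
    (a b : Fin m) : ℝ :=
  if J.card + 2 ≤ k then T (J.image z) (z a) (z b) else 0

theorem BB_index (k : ℕ) (T : Finset X → X → X → ℝ) (z : Fin m → X) (hz : Function.Injective z) :
    BB k T (univ.image z) = ∑ a : Fin m, ∑ b : Fin m, ∑ J : Finset (Fin m),
      if J ∪ {a, b} = univ then tJ k T z J a b else 0 := by
  unfold BB
  rw [powerset_image, filter_image, sum_image (fun A _ B _ h => image_injective hz h), sum_filter]
  have e1 : ∀ J : Finset (Fin m), (if (J.image z).card + 2 ≤ k then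
      ∑ x ∈ univ.image z, ∑ y ∈ univ.image z,
        if J.image z ∪ {x, y} = univ.image z then T (J.image z) x y else 0 else 0) =
      ∑ a : Fin m, ∑ b : Fin m, if J ∪ {a, b} = univ then tJ k T z J a b else 0 := by
    intro J
    rw [card_image_of_injective _ hz]
    simp only [sum_image (fun A _ B _ h => hz h)]
    by_cases hJ : J.card + 2 ≤ k
    · rw [if_pos hJ]
      refine sum_congr rfl fun a _ => sum_congr rfl fun b _ => ?_
      have e2 : J.image z ∪ {z a, z b} = (J ∪ {a, b}).image z := by
        rw [image_union, image_insert, image_singleton]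
      have e3 : J.image z ∪ {z a, z b} = univ.image z ↔ J ∪ {a, b} = univ := by
        rw [e2]
        exact (image_injective hz).eq_iff
      simp only [e3, tJ, if_pos hJ]
    · rw [if_neg hJ]
      symm
      apply sum_eq_zero; intro a _
      apply sum_eq_zero; intro b _
      simp only [tJ, if_neg hJ, ite_self]
  rw [powerset_univ, sum_congr rfl (fun J _ => e1 J), sum_comm]
  refine sum_congr rfl fun a _ => ?_
  rw [sum_comm]

/-- the sets `J` with `J ∪ {a,a} = univ` -/
theorem sum_J_diag (a : Fin m) (f : Finset (Fin m) → ℝ) :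
    (∑ J : Finset (Fin m), if J ∪ {a, a} = univ then f J else 0) = f univ + f {a}ᶜ := by
  rw [← sum_filter]
  have : (univ.filter fun J : Finset (Fin m) => J ∪ {a, a} = univ) = {univ, {a}ᶜ} := by
    ext J
    simp only [mem_filter, mem_univ, true_and, mem_insert, mem_singleton, insert_eq_of_mem]
    constructor
    · intro h
      by_cases ha : a ∈ J
      · left
        rw [← h]
        rw [union_eq_left.2 (by simpa using ha)]
      · right
        ext b
        rw [mem_compl, mem_singleton]
        constructor
        · rintro hb rfl; exact ha hb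
        · intro hb
          have : b ∈ J ∪ {a} := by rw [h]; exact mem_univ _
          simpa [hb] using this
    · rintro (rfl | rfl)
      · simp
      · ext b; simp
  rw [this, sum_pair]
  intro h
  have := congrArg (fun s => a ∈ s) h
  simp at this

/-- the sets `J` with `J ∪ {a,b} = univ` -/
theorem sum_J_off {a b : Fin m} (hab : a ≠ b) (f : Finset (Fin m) → ℝ) :
    (∑ J : Finset (Fin m), if J ∪ {a, b} = univ then f J else 0) =
      f univ + f {a}ᶜ + f {b}ᶜ + f {a, b}ᶜ := by
  rw [← sum_filter]
  have : (univ.filter fun J : Finset (Fin m) => J ∪ {a, b} = univ) =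
      {univ, {a}ᶜ, {b}ᶜ, {a, b}ᶜ} := by
    ext J
    simp only [mem_filter, mem_univ, true_and, mem_insert, mem_singleton]
    constructor
    · intro h
      have h' : ∀ c, c ≠ a → c ≠ b → c ∈ J := by
        intro c h1 h2
        have : c ∈ J ∪ {a, b} := by rw [h]; exact mem_univ _
        simpa [h1, h2] using this
      by_cases ha : a ∈ J <;> by_cases hb : b ∈ J
      · left
        ext c
        simp only [mem_univ, iff_true]
        by_cases h1 : c = a
        · rwa [h1]
        · by_cases h2 : c = b
          · rwa [h2]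
          · exact h' c h1 h2
      · right; right; left
        ext c
        simp only [mem_compl, mem_singleton]
        constructor
        · rintro hc rfl; exact hb hc
        · intro h2
          by_cases h1 : c = a
          · rwa [h1]
          · exact h' c h1 h2
      · right; left
        ext c
        simp only [mem_compl, mem_singleton]
        constructor
        · rintro hc rfl; exact ha hc
        · intro h1
          by_cases h2 : c = b
          · rwa [h2]
          · exact h' c h1 h2
      · right; right; right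
        ext c
        simp only [mem_compl, mem_insert, mem_singleton, not_or]
        constructor
        · intro hc
          exact ⟨fun h => ha (h ▸ hc), fun h => hb (h ▸ hc)⟩
        · rintro ⟨h1, h2⟩
          exact h' c h1 h2
    · rintro (rfl | rfl | rfl | rfl) <;>
      · ext c
        simp
        try tauto
  rw [this]
  have ne1 : (univ : Finset (Fin m)) ≠ {a}ᶜ := fun h => by
    have := congrArg (fun s => a ∈ s) h
    simp at this
  have ne2 : (univ : Finset (Fin m)) ≠ {b}ᶜ := fun h => by
    have := congrArg (fun s => b ∈ s) h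
    simp at this
  have ne3 : (univ : Finset (Fin m)) ≠ {a, b}ᶜ := fun h => by
    have := congrArg (fun s => a ∈ s) h
    simp at this
  have ne4 : ({a}ᶜ : Finset (Fin m)) ≠ {b}ᶜ := fun h => by
    have := congrArg (fun s => b ∈ s) h
    simp [hab.symm] at this
  have ne5 : ({a}ᶜ : Finset (Fin m)) ≠ {a, b}ᶜ := fun h => by
    have := congrArg (fun s => b ∈ s) h
    simp [hab.symm] at this
  have ne6 : ({b}ᶜ : Finset (Fin m)) ≠ {a, b}ᶜ := fun h => by
    have := congrArg (fun s => a ∈ s) h
    simp [hab] at this
  rw [sum_insert (by simp only [mem_insert, mem_singleton, not_or]; exact ⟨ne1, ne2, ne3⟩),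
    sum_insert (by simp only [mem_insert, mem_singleton, not_or]; exact ⟨ne4, ne5⟩),
    sum_insert (by simp only [mem_singleton]; exact ne6), sum_singleton]
  ring

theorem sum_swap {n : ℕ} (G : Fin (n + 1) → Fin (n + 1) → ℝ) :
    ∑ a, ∑ c : Fin n, G a (a.succAbove c) = ∑ a, ∑ c : Fin n, G (a.succAbove c) a := by
  have h1 : ∑ a, ∑ b, G a b = ∑ a, G a a + ∑ a, ∑ c : Fin n, G a (a.succAbove c) := by
    rw [← sum_add_distrib]
    refine sum_congr rfl fun a _ => ?_
    rw [Fin.sum_univ_succAbove _ a]
  have h2 : ∑ a, ∑ b, G a b = ∑ a, G a a + ∑ a, ∑ c : Fin n, G (a.succAbove c) a := by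
    rw [sum_comm, ← sum_add_distrib]
    refine sum_congr rfl fun a _ => ?_
    rw [Fin.sum_univ_succAbove _ a]
  linarith

theorem BB_succ {n : ℕ} (k : ℕ) (T : Finset X → X → X → ℝ) (t : ∀ q, (Fin q → X) → X → X → ℝ)
    (z : Fin (n + 1) → X) (hz : Function.Injective z)
    (ht : ∀ (q : ℕ) (f : Fin q → Fin (n + 1)), Function.Injective f → ∀ x y,
      t q (fun c => z (f c)) x y = if q + 2 ≤ k then T (univ.image fun c => z (f c)) x y else 0) :
    BB k T (univ.image z) = ∑ a, ∑ b, t (n + 1) z (z a) (z b) +
      ∑ a, (t n (fun c => z (a.succAbove c)) (z a) (z a) + ∑ c : Fin n,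
        (t n (fun c => z (a.succAbove c)) (z a) (z (a.succAbove c)) +
         t n (fun c => z (a.succAbove c)) (z (a.succAbove c)) (z a))) +
      ∑ a, ∑ c : Fin n, tJ k T z {a, a.succAbove c}ᶜ a (a.succAbove c) := by
  rw [BB_index k T z hz]
  have u1 : ∀ a b : Fin (n + 1), tJ k T z univ a b = t (n + 1) z (z a) (z b) := by
    intro a b
    have := ht (n + 1) id Function.injective_id (z a) (z b)
    simp only [id] at this
    rw [tJ, this, card_univ, Fintype.card_fin]
  have u2 : ∀ a b c : Fin (n + 1), tJ k T z {a}ᶜ b c =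
      t n (fun c => z (a.succAbove c)) (z b) (z c) := by
    intro a b c
    rw [ht n a.succAbove Fin.succAbove_right_injective (z b) (z c), tJ, card_compl,
      card_singleton, Fintype.card_fin]
    have e1 : ({a}ᶜ : Finset (Fin (n + 1))).image z = univ.image fun c => z (a.succAbove c) := by
      rw [← Fin.image_succAbove_univ, image_image]; rfl
    rw [e1]
    simp
  have e1 : ∀ a : Fin (n + 1), (∑ b : Fin (n + 1), ∑ J : Finset (Fin (n + 1)),
      if J ∪ {a, b} = univ then tJ k T z J a b else 0) =
      ∑ b, t (n + 1) z (z a) (z b) +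
      (t n (fun c => z (a.succAbove c)) (z a) (z a) + ∑ c : Fin n,
        t n (fun c => z (a.succAbove c)) (z a) (z (a.succAbove c))) +
      ∑ c : Fin n, tJ k T z {a.succAbove c}ᶜ a (a.succAbove c) +
      ∑ c : Fin n, tJ k T z {a, a.succAbove c}ᶜ a (a.succAbove c) := by
    intro a
    rw [Fin.sum_univ_succAbove _ a, sum_J_diag]
    have : ∀ c : Fin n, (∑ J : Finset (Fin (n + 1)), if J ∪ {a, a.succAbove c} = univ then
        tJ k T z J a (a.succAbove c) else 0) = tJ k T z univ a (a.succAbove c) +
        tJ k T z {a}ᶜ a (a.succAbove c) + tJ k T z {a.succAbove c}ᶜ a (a.succAbove c) +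
        tJ k T z {a, a.succAbove c}ᶜ a (a.succAbove c) := fun c =>
      sum_J_off (Fin.succAbove_ne a c).symm _
    simp only [this, sum_add_distrib]
    rw [Fin.sum_univ_succAbove (fun b => t (n + 1) z (z a) (z b)) a]
    simp only [u1, u2]
    ring
  rw [sum_congr rfl (fun a _ => e1 a)]
  simp only [sum_add_distrib]
  have e2 : ∑ a : Fin (n + 1), ∑ c : Fin n, tJ k T z {a.succAbove c}ᶜ a (a.succAbove c) =
      ∑ a : Fin (n + 1), ∑ c : Fin n,
        t n (fun c => z (a.succAbove c)) (z (a.succAbove c)) (z a) := by
    rw [sum_swap (fun a b => tJ k T z {b}ᶜ a b)]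
    simp only [u2]
  rw [e2]
  ring

theorem tJ_pair {n : ℕ} (k : ℕ) (T : Finset X → X → X → ℝ) (t : ∀ q, (Fin q → X) → X → X → ℝ)
    (z : Fin (n + 2) → X)
    (ht : ∀ (q : ℕ) (f : Fin q → Fin (n + 2)), Function.Injective f → ∀ x y,
      t q (fun c => z (f c)) x y = if q + 2 ≤ k then T (univ.image fun c => z (f c)) x y else 0)
    (a : Fin (n + 2)) (c : Fin (n + 1)) :
    tJ k T z {a, a.succAbove c}ᶜ a (a.succAbove c) =
      t n (fun e => z (a.succAbove (c.succAbove e))) (z a) (z (a.succAbove c)) := by
  rw [ht n (fun e => a.succAbove (c.succAbove e))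
    (Fin.succAbove_right_injective.comp Fin.succAbove_right_injective) (z a)
    (z (a.succAbove c)), tJ, card_compl, card_pair (Fin.succAbove_ne a c).symm, Fintype.card_fin]
  have e1 : ({a, a.succAbove c}ᶜ : Finset (Fin (n + 2))) =
      univ.image (fun e => a.succAbove (c.succAbove e)) := by
    ext b
    simp only [mem_compl, mem_insert, mem_singleton, not_or, mem_image, mem_univ, true_and]
    constructor
    · rintro ⟨h1, h2⟩
      obtain ⟨b', rfl⟩ := Fin.exists_succAbove_eq h1
      have h3 : b' ≠ c := fun h => h2 (by rw [h])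
      obtain ⟨b'', rfl⟩ := Fin.exists_succAbove_eq h3
      exact ⟨b'', rfl⟩
    · rintro ⟨e, rfl⟩
      exact ⟨Fin.succAbove_ne _ _, fun h =>
        Fin.succAbove_ne c e (Fin.succAbove_right_injective h)⟩
  rw [e1, image_image]
  simp only [Nat.add_sub_cancel]
  rfl

end

end Pool.Agent.Helper47.KP
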