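import Pool.Agent.Helper47.KP.Op

/-!
Positivity of the form for positive semidefinite kernels.
-/

set_option autoImplicit false

open MeasureTheory Set Metric Polynomial
open scoped RealInnerProductSpace ENNReal

namespace Pool.Agent.Helper47.KP

variable {d : ℕ}

/-- bounded measurable kernels -/
structure BK (K : Sph d → Sph d → ℝ) (C : ℝ) : Prop where
  meas : Measurable (fun p : Sph d × Sph d => K p.1 p.2)
  bd : ∀ x y, |K x y| ≤ C

/-- hypotheses on the weight and the density -/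
structure WG (g : ℝ → ℝ) (G : ℝ) (b : Sph d → ℝ) (B : ℝ) : Prop where
  gm : Measurable g
  gb : ∀ t, |g t| ≤ G
  bb : BM b B

/-- the conditional form -/
noncomputable def Form (g : ℝ → ℝ) (b : Sph d → ℝ) {q : ℕ} (z : Fin q → Sph d)
    (K : Sph d → Sph d → ℝ) : ℝ :=
  ∑ a, ∑ a', K (z a) (z a') + ∫ x : Sph d, (b x * K x x + ∑ a, b x * (K x (z a) + K (z a) x) +
    ∫ y : Sph d, b x * (b y * (g ⟪(x : EE d), y⟫ * K x y)) ∂(sig d)) ∂(sig d)

lemma BM.add {f g : Sph d → ℝ} {A B : ℝ} (hf : BM f A) (hg : BM g B) :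
    BM (fun x => f x + g x) (A + B) :=
  ⟨hf.meas.add hg.meas, fun x => (abs_add_le _ _).trans (add_le_add (hf.bd x) (hg.bd x))⟩

lemma BM.mul {f g : Sph d → ℝ} {A B : ℝ} (hf : BM f A) (hg : BM g B) :
    BM (fun x => f x * g x) (A * B) :=
  ⟨hf.meas.mul hg.meas, fun x => by
    rw [abs_mul]; exact mul_le_mul (hf.bd x) (hg.bd x) (abs_nonneg _) (hf.nonneg x)⟩

lemma BM.sum {ι : Type*} (s : Finset ι) {f : ι → Sph d → ℝ} {A : ι → ℝ}
    (hf : ∀ i ∈ s, BM (f i) (A i)) : BM (fun x => ∑ i ∈ s, f i x) (∑ i ∈ s, A i) :=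
  ⟨Finset.measurable_fun_sum _ fun i hi => (hf i hi).meas, fun x =>
    (Finset.abs_sum_le_sum_abs _ _).trans (Finset.sum_le_sum fun i hi => (hf i hi).bd x)⟩

lemma BM.abs_integral_le [NeZero d] {f : Sph d → ℝ} {A : ℝ} (hf : BM f A) :
    |∫ x, f x ∂(sig d)| ≤ A := by
  have h := norm_integral_le_of_norm_le_const (μ := sig d) (C := A) (f := f)
    (Filter.Eventually.of_forall fun x => by rw [Real.norm_eq_abs]; exact hf.bd x)
  simpa using h

lemma BK.diag {K : Sph d → Sph d → ℝ} {C : ℝ} (h : BK K C) : BM (fun x => K x x) C :=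
  ⟨h.meas.comp (measurable_id.prodMk measurable_id), fun x => h.bd x x⟩

lemma BK.left {K : Sph d → Sph d → ℝ} {C : ℝ} (h : BK K C) (y : Sph d) : BM (fun x => K x y) C :=
  ⟨h.meas.comp measurable_prodMk_right, fun x => h.bd x y⟩

lemma BK.right {K : Sph d → Sph d → ℝ} {C : ℝ} (h : BK K C) (x : Sph d) : BM (fun y => K x y) C :=
  ⟨h.meas.comp measurable_prodMk_left, fun y => h.bd x y⟩

lemma BK.inner [NeZero d] {K : Sph d → Sph d → ℝ} {C : ℝ} (h : BK K C) {g : ℝ → ℝ} {G : ℝ}
    {b : Sph d → ℝ} {B : ℝ} (w : WG g G b B) :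
    (∀ x, BM (fun y : Sph d => b x * (b y * (g ⟪(x : EE d), y⟫ * K x y))) (B * (B * (G * C)))) ∧
    BM (fun x : Sph d => ∫ y : Sph d, b x * (b y * (g ⟪(x : EE d), y⟫ * K x y)) ∂(sig d))
      (B * (B * (G * C))) := by
  have hm : Measurable (fun p : Sph d × Sph d =>
      b p.1 * (b p.2 * (g ⟪(p.1 : EE d), (p.2 : EE d)⟫ * K p.1 p.2))) :=
    (w.bb.meas.comp measurable_fst).mul ((w.bb.meas.comp measurable_snd).mul
      ((w.gm.comp continuous_inner2.measurable).mul h.meas))
  have h1 : ∀ x, BM (fun y : Sph d => b x * (b y * (g ⟪(x : EE d), y⟫ * K x y)))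
      (B * (B * (G * C))) := by
    intro x
    refine ⟨hm.comp measurable_prodMk_left, fun y => ?_⟩
    have hG : 0 ≤ G := (abs_nonneg _).trans (w.gb 0)
    have hB : 0 ≤ B := w.bb.nonneg x
    rw [abs_mul, abs_mul, abs_mul]
    exact mul_le_mul (w.bb.bd x) (mul_le_mul (w.bb.bd y) (mul_le_mul (w.gb _) (h.bd x y)
      (abs_nonneg _) hG) (by positivity) hB) (by positivity) hB
  refine ⟨h1, hm.stronglyMeasurable.integral_prod_right.measurable, fun x => ?_⟩
  exact (h1 x).abs_integral_le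

lemma BM_integrand [NeZero d] {K : Sph d → Sph d → ℝ} {C : ℝ} (h : BK K C) {g : ℝ → ℝ} {G : ℝ}
    {b : Sph d → ℝ} {B : ℝ} (w : WG g G b B) {q : ℕ} (z : Fin q → Sph d) :
    BM (fun x : Sph d => b x * K x x + ∑ a, b x * (K x (z a) + K (z a) x) +
      ∫ y : Sph d, b x * (b y * (g ⟪(x : EE d), y⟫ * K x y)) ∂(sig d))
      (B * C + ∑ _a : Fin q, B * (C + C) + B * (B * (G * C))) :=
  ((w.bb.mul h.diag).add (BM.sum _ fun a _ => w.bb.mul ((h.left (z a)).add (h.right (z a))))).add
    (h.inner w).2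

lemma Form_add [NeZero d] {K L : Sph d → Sph d → ℝ} {C C' : ℝ} (hK : BK K C) (hL : BK L C')
    {g : ℝ → ℝ} {G : ℝ} {b : Sph d → ℝ} {B : ℝ} (w : WG g G b B) {q : ℕ} (z : Fin q → Sph d) :
    Form g b z (fun x y => K x y + L x y) = Form g b z K + Form g b z L := by
  have i1 := (BM_integrand hK w z).integrable
  have i2 := (BM_integrand hL w z).integrable
  unfold Form
  have e : ∀ A A' I I' : ℝ, A + I + (A' + I') = (A + A') + (I + I') := by intros; ring
  rw [e, ← integral_add i1 i2]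
  congr 1
  · simp only [Finset.sum_add_distrib]
  · congr 1; funext x
    have e2 : ∫ y : Sph d, b x * (b y * (g ⟪(x : EE d), y⟫ * (K x y + L x y))) ∂(sig d) =
        ∫ y : Sph d, b x * (b y * (g ⟪(x : EE d), y⟫ * K x y)) ∂(sig d) +
        ∫ y : Sph d, b x * (b y * (g ⟪(x : EE d), y⟫ * L x y)) ∂(sig d) := by
      rw [← integral_add ((hK.inner w).1 x).integrable ((hL.inner w).1 x).integrable]
      congr 1; funext y; ring
    rw [e2]
    have e3 : ∑ a, b x * (K x (z a) + L x (z a) + (K (z a) x + L (z a) x)) =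
        ∑ a, b x * (K x (z a) + K (z a) x) + ∑ a, b x * (L x (z a) + L (z a) x) := by
      rw [← Finset.sum_add_distrib]
      apply Finset.sum_congr rfl
      intro a _; ring
    rw [e3]
    ring

lemma Form_zero {g : ℝ → ℝ} {b : Sph d → ℝ} {q : ℕ} (z : Fin q → Sph d) :
    Form g b z (fun _ _ => 0) = 0 := by
  simp [Form]

lemma Form_sum [NeZero d] {ι : Type*} (s : Finset ι) {K : ι → Sph d → Sph d → ℝ} {C : ι → ℝ}
    (hK : ∀ i, BK (K i) (C i))
    {g : ℝ → ℝ} {G : ℝ} {b : Sph d → ℝ} {B : ℝ} (w : WG g G b B) {q : ℕ} (z : Fin q → Sph d) :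
    Form g b z (fun x y => ∑ i ∈ s, K i x y) = ∑ i ∈ s, Form g b z (K i) := by
  classical
  induction s using Finset.induction_on with
  | empty => simp [Form_zero]
  | insert i s hi ih =>
    simp only [Finset.sum_insert hi]
    have hs : BK (fun x y => ∑ j ∈ s, K j x y) (∑ j ∈ s, C j) :=
      ⟨Finset.measurable_fun_sum _ fun j _ => (hK j).meas, fun x y =>
        (Finset.abs_sum_le_sum_abs _ _).trans (Finset.sum_le_sum fun j _ => (hK j).bd x y)⟩
    rw [Form_add (hK i) hs w z, ih]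

lemma abs_Form_le [NeZero d] {K : Sph d → Sph d → ℝ} {C : ℝ} (hK : BK K C)
    {g : ℝ → ℝ} {G : ℝ} {b : Sph d → ℝ} {B : ℝ} (w : WG g G b B) {q : ℕ} (z : Fin q → Sph d) :
    |Form g b z K| ≤ C * ((q : ℝ) * q + (B + q * (B * 2) + B * (B * G))) := by
  have h1 := (BM_integrand hK w z).abs_integral_le
  have h2 : |∑ a, ∑ a', K (z a) (z a')| ≤ ∑ _a : Fin q, ∑ _a' : Fin q, C := by
    refine (Finset.abs_sum_le_sum_abs _ _).trans (Finset.sum_le_sum fun a _ => ?_)
    exact (Finset.abs_sum_le_sum_abs _ _).trans (Finset.sum_le_sum fun a' _ => hK.bd _ _)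
  unfold Form
  refine (abs_add_le _ _).trans ((add_le_add h2 h1).trans (le_of_eq ?_))
  simp only [Finset.sum_const, Finset.card_univ, Fintype.card_fin, nsmul_eq_mul]
  ring

/-- rank one kernels -/
lemma Form_rank_one [NeZero d] (hd : 3 ≤ d) {g : ℝ → ℝ} {G : ℝ} {b : Sph d → ℝ} {B : ℝ}
    (w : WG g G b B) (hb0 : ∀ x, 0 ≤ b x) (h0 : ∫ t, g t ∂(den d) = 1) {ε : ℝ} (hε : 0 ≤ ε)
    (hj : ∀ j, 1 ≤ j → -ε ≤ ∫ t, g t * (PP d j).eval t ∂(den d)) (hεB : ε * B ≤ 1)
    {q : ℕ} (z : Fin q → Sph d) {ψ : Sph d → ℝ} {A : ℝ} (hψ : BM ψ A) :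
    0 ≤ Form g b z (fun x y => ψ x * ψ y) := by
  set φ : Sph d → ℝ := fun x => b x * ψ x with hφ
  have hφb : BM φ (B * A) := w.bb.mul hψ
  have hop := op_ineq hd w.gm w.gb h0 hε hj hφb
  set I := ∫ x : Sph d, φ x ∂(sig d) with hI
  set S := ∑ a, ψ (z a) with hS
  have i1 : Integrable (fun x => b x * (ψ x * ψ x)) (sig d) :=
    (w.bb.mul (hψ.mul hψ)).integrable
  have i2 : Integrable (fun x => ∑ a, b x * (ψ x * ψ (z a) + ψ (z a) * ψ x)) (sig d) := by
    have h : BM (fun x => ∑ a, b x * (ψ x * ψ (z a) + ψ (z a) * ψ x))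
        (∑ _a : Fin q, B * (A * A + A * A)) := by
      apply BM.sum
      intro a _
      have hc : BM (fun _ : Sph d => ψ (z a)) A := ⟨measurable_const, fun _ => hψ.bd _⟩
      exact w.bb.mul ((hψ.mul hc).add (hc.mul hψ))
    exact h.integrable
  have hK : BK (fun x y => ψ x * ψ y) (A * A) :=
    ⟨(hψ.meas.comp measurable_fst).mul (hψ.meas.comp measurable_snd), fun x y => by
      rw [abs_mul]; exact mul_le_mul (hψ.bd x) (hψ.bd y) (abs_nonneg _) (hψ.nonneg x)⟩
  have i3 := (hK.inner w).2.integrable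
  have e1 : Form g b z (fun x y => ψ x * ψ y) =
      S ^ 2 + ∫ x, b x * (ψ x * ψ x) ∂(sig d) + 2 * S * I + QF g φ := by
    unfold Form
    have i12 : ∫ x : Sph d, (b x * (ψ x * ψ x) + ∑ a, b x * (ψ x * ψ (z a) + ψ (z a) * ψ x) +
        ∫ y : Sph d, b x * (b y * (g ⟪(x : EE d), y⟫ * (ψ x * ψ y))) ∂(sig d)) ∂(sig d) =
        ∫ x, b x * (ψ x * ψ x) ∂(sig d) + ∫ x, ∑ a, b x * (ψ x * ψ (z a) + ψ (z a) * ψ x) ∂(sig d) +
        ∫ x : Sph d, ∫ y : Sph d, b x * (b y * (g ⟪(x : EE d), y⟫ * (ψ x * ψ y)))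
        ∂(sig d) ∂(sig d) := by
      rw [← integral_add i1 i2]
      exact integral_add (i1.add i2) i3
    simp only
    rw [i12]
    have a1 : ∑ a, ∑ a', ψ (z a) * ψ (z a') = S ^ 2 := by
      rw [sq, hS, Finset.sum_mul_sum]
    have a2 : ∫ x, ∑ a, b x * (ψ x * ψ (z a) + ψ (z a) * ψ x) ∂(sig d) = 2 * S * I := by
      rw [hI, ← integral_const_mul]
      congr 1; funext x
      rw [hS, Finset.mul_sum, Finset.sum_mul]
      apply Finset.sum_congr rfl
      intro a _
      simp only [hφ]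
      ring
    have a3 : ∫ x : Sph d, ∫ y : Sph d, b x * (b y * (g ⟪(x : EE d), y⟫ * (ψ x * ψ y)))
        ∂(sig d) ∂(sig d) = QF g φ := by
      unfold QF
      congr 1; funext x
      rw [← integral_const_mul]
      congr 1; funext y
      simp only [hφ]
      ring
    rw [a1, a2, a3]
    ring
  have e2 : ε * ∫ x : Sph d, φ x ^ 2 ∂(sig d) ≤ ∫ x, b x * (ψ x * ψ x) ∂(sig d) := by
    rw [← integral_const_mul]
    apply integral_mono
    · have : BM (fun x => φ x ^ 2) ((B * A) * (B * A)) := by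
        have := hφb.mul hφb
        refine ⟨hφb.meas.pow_const 2, fun x => ?_⟩
        have h := this.bd x
        rwa [← sq] at h
      exact this.integrable.const_mul ε
    · exact i1
    · intro x
      show ε * φ x ^ 2 ≤ b x * (ψ x * ψ x)
      have h1 : b x ≤ B := (le_abs_self _).trans (w.bb.bd x)
      have h2 : ε * φ x ^ 2 = (ε * b x) * (b x * (ψ x * ψ x)) := by
        simp only [hφ]; ring
      rw [h2]
      have h3 : ε * b x ≤ 1 := (mul_le_mul_of_nonneg_left h1 hε).trans hεB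
      have h4 : 0 ≤ b x * (ψ x * ψ x) := mul_nonneg (hb0 x) (mul_self_nonneg _)
      nlinarith
  rw [e1]
  nlinarith [sq_nonneg (S + I)]

/-- PSD kernels -/
def PSDK (K : Sph d → Sph d → ℝ) : Prop :=
  ∀ (n : ℕ) (x : Fin n → Sph d) (c : Fin n → ℝ), 0 ≤ ∑ i, ∑ j, c i * c j * K (x i) (x j)

/-- the main positivity statement -/
theorem Form_nonneg [NeZero d] (hd : 3 ≤ d) {g : ℝ → ℝ} {G : ℝ} {b : Sph d → ℝ} {B : ℝ}
    (w : WG g G b B) (hb0 : ∀ x, 0 ≤ b x) (h0 : ∫ t, g t ∂(den d) = 1) {ε : ℝ} (hε : 0 ≤ ε)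
    (hj : ∀ j, 1 ≤ j → -ε ≤ ∫ t, g t * (PP d j).eval t ∂(den d)) (hεB : ε * B ≤ 1)
    {q : ℕ} (z : Fin q → Sph d) {K : Sph d → Sph d → ℝ}
    (hKc : Continuous (fun p : Sph d × Sph d => K p.1 p.2)) (hs : ∀ x y, K x y = K y x)
    (hpsd : PSDK K) : 0 ≤ Form g b z K := by
  classical
  obtain ⟨x0⟩ := exists_point (d := d)
  obtain ⟨C, hC⟩ := (isCompact_range hKc).isBounded.exists_norm_le
  have hKb : BK K C := ⟨hKc.measurable, fun x y => hC _ ⟨(x, y), rfl⟩⟩
  set M := (q : ℝ) * q + (B + q * (B * 2) + B * (B * G)) with hM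
  have hM0 : 0 ≤ M := by
    have hB : 0 ≤ B := w.bb.nonneg x0
    have hG : 0 ≤ G := (abs_nonneg _).trans (w.gb 0)
    positivity
  have key : ∀ η : ℝ, 0 < η → -(η * M) ≤ Form g b z K := by
    intro η hη
    -- uniform continuity
    have huc := CompactSpace.uniformContinuous_of_continuous hKc
    rw [Metric.uniformContinuous_iff] at huc
    obtain ⟨δ, hδ, hδK⟩ := huc η hη
    obtain ⟨t, _, ht, htc⟩ := finite_cover_balls_of_compact (isCompact_univ (X := Sph d)) hδ
    have htne : t.Nonempty := by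
      rcases t.eq_empty_or_nonempty with h | h
      · rw [h] at htc
        have := htc (mem_univ x0)
        simp at this
      · exact h
    obtain ⟨e, N, he⟩ : ∃ (e : ℕ → Sph d) (N : ℕ), ∀ y ∈ t, ∃ k ≤ N, e k = y := by
      have hte : t = ↑ht.toFinset := ht.coe_toFinset.symm
      set l := ht.toFinset.toList with hl
      refine ⟨fun k => l.getD k x0, l.length, fun y hy => ?_⟩
      have hyl : y ∈ l := by
        rw [hl, Finset.mem_toList, Set.Finite.mem_toFinset]; exact hy
      obtain ⟨k, hk, hky⟩ := List.getElem_of_mem hyl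
      refine ⟨k, hk.le, ?_⟩
      simp only
      rw [List.getD_eq_getElem _ _ hk, hky]
    set s := SimpleFunc.nearestPt e N with hsdef
    have hsd : ∀ x, dist (s x) x < δ := by
      intro x
      have hx := htc (mem_univ x)
      simp only [mem_iUnion, mem_ball, exists_prop] at hx
      obtain ⟨y, hy, hxy⟩ := hx
      obtain ⟨k, hk, hky⟩ := he y hy
      have h1 := SimpleFunc.edist_nearestPt_le e x hk
      rw [edist_dist, edist_dist, ENNReal.ofReal_le_ofReal_iff dist_nonneg, hky] at h1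
      rw [dist_comm] at hxy
      exact lt_of_le_of_lt h1 hxy
    set Ks : Sph d → Sph d → ℝ := fun x y => K (s x) (s y) with hKs
    have hsm : Measurable (s : Sph d → Sph d) := s.measurable
    have hKsb : BK Ks C :=
      ⟨hKc.measurable.comp ((hsm.comp measurable_fst).prodMk (hsm.comp measurable_snd)),
        fun x y => hKb.bd _ _⟩
    have hdiff : BK (fun x y => K x y - Ks x y) η := by
      refine ⟨hKc.measurable.sub hKsb.meas, fun x y => ?_⟩
      have h1 := hδK (a := (s x, s y)) (b := (x, y)) (by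
        rw [Prod.dist_eq]
        exact max_lt (hsd x) (hsd y))
      rw [Real.dist_eq, abs_sub_comm] at h1
      exact h1.le
    have hsplit : Form g b z K = Form g b z (fun x y => K x y - Ks x y) + Form g b z Ks := by
      rw [← Form_add hdiff hKsb w z]
      congr 1; funext x y; ring
    have hrem := abs_Form_le hdiff w z
    -- positivity of the discretised form
    have hpos : 0 ≤ Form g b z Ks := by
      let ι := {x : Sph d // x ∈ s.range}
      let Mx : Matrix ι ι ℝ := fun k l => K k.1 l.1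
      have hMx : Mx.PosSemidef := by
        refine Matrix.PosSemidef.of_dotProduct_mulVec_nonneg ?_ (fun c => ?_)
        · ext k l
          simp only [Matrix.conjTranspose_apply, star_trivial]
          exact hs _ _
        · let eq := Fintype.equivFin ι
          have h1 := hpsd (Fintype.card ι) (fun i => (eq.symm i).1) (fun i => c (eq.symm i))
          have h2 : ∑ i, ∑ j, c (eq.symm i) * c (eq.symm j) * K (eq.symm i).1 (eq.symm j).1 =
              ∑ k : ι, ∑ l : ι, c k * c l * K k.1 l.1 := by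
            rw [← Equiv.sum_comp eq.symm (fun k => ∑ l : ι, c k * c l * K k.1 l.1)]
            apply Finset.sum_congr rfl
            intro i _
            rw [← Equiv.sum_comp eq.symm (fun l => c (eq.symm i) * c l * K (eq.symm i).1 l.1)]
          rw [h2] at h1
          refine h1.trans (le_of_eq ?_)
          simp only [dotProduct, Matrix.mulVec, Mx, Pi.star_apply, star_trivial, Finset.mul_sum]
          apply Finset.sum_congr rfl
          intro k _
          apply Finset.sum_congr rfl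
          intro l _
          ring
      obtain ⟨m, R, hR⟩ := Matrix.posSemidef_iff_eq_sum_vecMulVec.1 hMx
      let ψ : Fin m → Sph d → ℝ := fun r x => R r ⟨s x, s.mem_range_self x⟩
      have hψ : ∀ r, ∃ A, BM (ψ r) A := by
        intro r
        let h : Sph d → ℝ := fun y => if hy : y ∈ s.range then R r ⟨y, hy⟩ else 0
        have e1 : ψ r = ⇑(s.map h) := by
          funext x
          simp only [SimpleFunc.map_apply, h, ψ]
          rw [dif_pos (s.mem_range_self x)]
        obtain ⟨A, hA⟩ := (s.map h).exists_forall_norm_le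
        refine ⟨A, ?_, ?_⟩
        · rw [e1]; exact (s.map h).measurable
        · intro x; rw [e1]; exact hA x
      choose A hA using hψ
      have hKsum : Ks = fun x y => ∑ r, ψ r x * ψ r y := by
        funext x y
        have h1 := congrFun (congrFun hR ⟨s x, s.mem_range_self x⟩) ⟨s y, s.mem_range_self y⟩
        simp only [Mx, Matrix.sum_apply, Matrix.vecMulVec_apply, star_trivial] at h1
        exact h1
      rw [hKsum, Form_sum (C := fun r => A r * A r) _ _ w z]
      · apply Finset.sum_nonneg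
        intro r _
        exact Form_rank_one hd w hb0 h0 hε hj hεB z (hA r)
      · intro r
        exact ⟨((hA r).meas.comp measurable_fst).mul ((hA r).meas.comp measurable_snd),
          fun x y => by
            rw [abs_mul]
            exact mul_le_mul ((hA r).bd x) ((hA r).bd y) (abs_nonneg _) ((hA r).nonneg x)⟩
    have h2 := (abs_le.1 hrem).1
    rw [hsplit]
    linarith
  by_contra hneg
  push Not at hneg
  have h1 := key (-(Form g b z K) / (2 * (M + 1))) (by
    apply div_pos (by linarith) (by positivity))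
  have h2 : -(Form g b z K) / (2 * (M + 1)) * M < -(Form g b z K) := by
    rw [div_mul_eq_mul_div, div_lt_iff₀ (by positivity)]
    nlinarith
  linarith

end Pool.Agent.Helper47.KP
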