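import Pool.Agent.Helper47.KP.Law

/-!
The convolution formula `∫ P_j(⟨x,z⟩) P_j(⟨z,y⟩) dσ(z) = n_j P_j(⟨x,y⟩)`.
-/

set_option autoImplicit false

open MeasureTheory Set Metric Polynomial
open scoped RealInnerProductSpace ENNReal

namespace Pool.Agent.Helper47.KP

variable {d : ℕ}

/-- the Gegenbauer polynomials span all polynomials -/
lemma span_PP (hd : 3 ≤ d) : Submodule.span ℝ (Set.range (PP d)) = ⊤ := by
  have hd' : (3 : ℝ) ≤ d := by exact_mod_cast hd
  set V := Submodule.span ℝ (Set.range (PP d)) with hV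
  have hmem : ∀ j, PP d j ∈ V := fun j => Submodule.subset_span ⟨j, rfl⟩
  have hXP : ∀ j, X * PP d j ∈ V := by
    intro j
    rcases j with _ | j
    · rw [PP_zero, mul_one, ← PP_one (d := d)]
      exact hmem 1
    · have hj : (0 : ℝ) ≤ j := Nat.cast_nonneg j
      have h1 : (2 * (j : ℝ) + d) ≠ 0 := by
        have : 0 < 2 * (j : ℝ) + d := by linarith
        exact this.ne'
      have h : X * PP d (j + 1) = (((j : ℝ) + d - 1) / (2 * j + d)) • PP d (j + 2) +
          (((j : ℝ) + 1) / (2 * j + d)) • PP d j := by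
        apply Polynomial.funext
        intro t
        have h2 := PP_rec hd j t
        simp only [eval_add, eval_smul, smul_eq_mul, eval_mul, eval_X]
        field_simp
        linarith
      rw [h]
      exact V.add_mem (V.smul_mem _ (hmem _)) (V.smul_mem _ (hmem _))
  have hX : ∀ p ∈ V, X * p ∈ V := by
    intro p hp
    induction hp using Submodule.span_induction with
    | mem p hp => obtain ⟨j, rfl⟩ := hp; exact hXP j
    | zero => rw [mul_zero]; exact V.zero_mem
    | add p q _ _ hp hq => rw [mul_add]; exact V.add_mem hp hq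
    | smul c p _ hp => rw [mul_smul_comm]; exact V.smul_mem _ hp
  have hpow : ∀ n : ℕ, (X : ℝ[X]) ^ n ∈ V := by
    intro n
    induction n with
    | zero => rw [pow_zero, ← PP_zero (d := d)]; exact hmem 0
    | succ n ih => rw [pow_succ']; exact hX _ ih
  rw [eq_top_iff]
  intro p _
  induction p using Polynomial.induction_on' with
  | add p q hp hq => exact V.add_mem (hp trivial) (hq trivial)
  | monomial n a =>
    rw [← C_mul_X_pow_eq_monomial, ← smul_eq_C_mul]
    exact V.smul_mem _ (hpow n)

/-- every polynomial is a combination of Gegenbauer polynomials -/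
lemma exists_expansion (hd : 3 ≤ d) (p : ℝ[X]) : ∃ (J : ℕ) (a : ℕ → ℝ),
    ∀ t, p.eval t = ∑ j ∈ Finset.range (J + 1), a j * (PP d j).eval t := by
  have hp : p ∈ Submodule.span ℝ (Set.range (PP d)) := by rw [span_PP hd]; trivial
  rw [Finsupp.mem_span_range_iff_exists_finsupp] at hp
  obtain ⟨c, rfl⟩ := hp
  refine ⟨c.support.sup id, c, fun t => ?_⟩
  rw [Finsupp.sum, eval_finsetSum]
  simp only [eval_smul, smul_eq_mul]
  apply Finset.sum_subset
  · intro j hj
    rw [Finset.mem_range]
    have := Finset.le_sup (f := id) hj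
    simp only [id] at this
    omega
  · intro j _ hj
    rw [Finsupp.notMem_support_iff.1 hj, zero_mul]

lemma natDegree_PP (j : ℕ) : (PP d j).natDegree ≤ j := by
  have main : ∀ j, (PP d j).natDegree ≤ j ∧ (PP d (j + 1)).natDegree ≤ j + 1 := by
    intro j
    induction j with
    | zero => simp [PP_zero, PP_one]
    | succ j ih =>
      refine ⟨ih.2, ?_⟩
      rw [show j + 1 + 1 = j + 2 by ring, PP_succ]
      refine (natDegree_sub_le _ _).trans (max_le ?_ ?_)
      · refine (natDegree_C_mul_le _ _).trans ((natDegree_mul_le).trans ?_)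
        have := natDegree_X_le (R := ℝ)
        omega
      · exact (natDegree_C_mul_le _ _).trans (by omega)
  exact (main j).1

instance sig_openPos [NeZero d] : (sig d).IsOpenPosMeasure := by
  unfold sig
  constructor
  intro U hU hne
  rw [Measure.smul_apply, smul_eq_mul]
  apply mul_ne_zero
  · exact ENNReal.inv_ne_zero.2 (measure_ne_top _ _)
  · exact hU.measure_ne_zero _ hne

/-- the convolution of `P_j` with itself -/
noncomputable def conv (d j : ℕ) (x y : Sph d) : ℝ :=
  ∫ z : Sph d, (PP d j).eval ⟪(x : EE d), z⟫ * (PP d j).eval ⟪(y : EE d), z⟫ ∂(sig d)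

lemma conv_rot (U : EE d ≃ₗᵢ[ℝ] EE d) (j : ℕ) (x y : Sph d) :
    conv d j (rotS U x) (rotS U y) = conv d j x y := by
  unfold conv
  rw [← integral_rotS U]
  simp

lemma continuous_inner2 : Continuous (fun p : Sph d × Sph d => ⟪(p.1 : EE d), (p.2 : EE d)⟫) :=
  (continuous_subtype_val.comp continuous_fst).inner (continuous_subtype_val.comp continuous_snd)

lemma integrable_prod_of_continuous [NeZero d] {f : Sph d × Sph d → ℝ} (hf : Continuous f) :
    Integrable f ((sig d).prod (sig d)) := by
  obtain ⟨C, hC⟩ := (isCompact_range hf).isBounded.exists_norm_le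
  exact Integrable.of_bound hf.aestronglyMeasurable C
    (Filter.Eventually.of_forall fun x => hC _ (mem_range_self x))

lemma continuous_conv [NeZero d] (j : ℕ) (x : Sph d) : Continuous (fun y => conv d j x y) := by
  unfold conv
  have h1 : Continuous (fun p : Sph d × Sph d => (PP d j).eval ⟪(x : EE d), (p.2 : EE d)⟫ *
      (PP d j).eval ⟪(p.1 : EE d), (p.2 : EE d)⟫) :=
    ((PP d j).continuous.comp ((continuous_inner_S _).comp continuous_snd)).mul
      ((PP d j).continuous.comp continuous_inner2)
  obtain ⟨C, hC⟩ := (isCompact_range h1).isBounded.exists_norm_le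
  apply continuous_of_dominated (bound := fun _ => C)
  · intro y
    exact (h1.comp (Continuous.prodMk_right y)).aestronglyMeasurable
  · intro y
    exact Filter.Eventually.of_forall fun z => hC _ ⟨(y, z), rfl⟩
  · exact integrable_const _
  · exact Filter.Eventually.of_forall fun z => h1.comp (Continuous.prodMk_left z)

/-- the convolution is orthogonal to the other Gegenbauer polynomials -/
lemma conv_orth [NeZero d] (hd : 3 ≤ d) {i j : ℕ} (hij : i ≠ j) (x : Sph d) :
    ∫ y : Sph d, conv d j x y * (PP d i).eval ⟪(x : EE d), y⟫ ∂(sig d) = 0 := by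
  have h1 : ∫ y : Sph d, conv d j x y * (PP d i).eval ⟪(x : EE d), y⟫ ∂(sig d) =
      ∫ y : Sph d, ∫ z : Sph d, (PP d j).eval ⟪(x : EE d), z⟫ * (PP d j).eval ⟪(y : EE d), z⟫ *
        (PP d i).eval ⟪(x : EE d), y⟫ ∂(sig d) ∂(sig d) := by
    congr 1; funext y
    rw [integral_mul_const]; rfl
  rw [h1, integral_integral_swap]
  · have h2 : ∀ z : Sph d, ∫ y : Sph d, (PP d j).eval ⟪(x : EE d), z⟫ *
        (PP d j).eval ⟪(y : EE d), z⟫ * (PP d i).eval ⟪(x : EE d), y⟫ ∂(sig d) = 0 := by
      intro z
      have h3 := PP_orth hd hij x z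
      have h4 : ∫ y : Sph d, (PP d j).eval ⟪(x : EE d), z⟫ *
          (PP d j).eval ⟪(y : EE d), z⟫ * (PP d i).eval ⟪(x : EE d), y⟫ ∂(sig d) =
          (PP d j).eval ⟪(x : EE d), z⟫ * ∫ y : Sph d, (PP d i).eval ⟪(x : EE d), y⟫ *
            (PP d j).eval ⟪(z : EE d), y⟫ ∂(sig d) := by
        rw [← integral_const_mul]
        congr 1; funext y
        rw [real_inner_comm (y : EE d) (z : EE d)]
        ring
      rw [h4, h3, mul_zero]
    simp only [h2, integral_zero]
  · apply integrable_prod_of_continuous
    have a1 : Continuous (fun p : Sph d × Sph d => (PP d j).eval ⟪(x : EE d), (p.2 : EE d)⟫) :=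
      (PP d j).continuous.comp ((continuous_inner_S _).comp continuous_snd)
    have a2 : Continuous (fun p : Sph d × Sph d => (PP d j).eval ⟪(p.1 : EE d), (p.2 : EE d)⟫) :=
      (PP d j).continuous.comp continuous_inner2
    have a3 : Continuous (fun p : Sph d × Sph d => (PP d i).eval ⟪(x : EE d), (p.1 : EE d)⟫) :=
      (PP d i).continuous.comp ((continuous_inner_S _).comp continuous_fst)
    exact (a1.mul a2).mul a3

/-- a continuous zonal function orthogonal to all zonal polynomials vanishes -/
lemma zonal_zero [NeZero d] (hd : 3 ≤ d) (x : Sph d) {D : Sph d → ℝ} (hc : Continuous D)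
    (hz : ∀ y y' : Sph d, ⟪(x : EE d), y⟫ = ⟪(x : EE d), y'⟫ → D y = D y')
    (ho : ∀ j, ∫ y : Sph d, D y * (PP d j).eval ⟪(x : EE d), y⟫ ∂(sig d) = 0) : ∀ y, D y = 0 := by
  -- a unit vector orthogonal to `x`
  obtain ⟨u, hu, hxu⟩ : ∃ u : EE d, ‖u‖ = 1 ∧ ⟪(x : EE d), u⟫ = 0 := by
    have hne : (ℝ ∙ (x : EE d))ᗮ ≠ ⊥ := by
      intro h
      have h1 := Submodule.finrank_add_finrank_orthogonal (ℝ ∙ (x : EE d))
      have h2 : Module.finrank ℝ (ℝ ∙ (x : EE d)) = 1 := by
        apply finrank_span_singleton
        intro h0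
        have := norm_S x
        rw [h0, norm_zero] at this
        norm_num at this
      rw [h, h2, finrank_bot, finrank_euclideanSpace, Fintype.card_fin] at h1
      omega
    obtain ⟨v, hv, hv0⟩ := Submodule.exists_mem_ne_zero_of_ne_bot hne
    refine ⟨(‖v‖)⁻¹ • v, ?_, ?_⟩
    · rw [norm_smul, norm_inv, norm_norm, inv_mul_cancel₀ (norm_ne_zero_iff.2 hv0)]
    · rw [inner_smul_right, Submodule.mem_orthogonal_singleton_iff_inner_right.1 hv, mul_zero]
  -- the path
  let yy : ℝ → EE d := fun t => t • (x : EE d) + Real.sqrt (1 - t ^ 2) • u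
  have hyy : ∀ t ∈ Icc (-1 : ℝ) 1, ‖yy t‖ = 1 := by
    intro t ht
    have h0 : 0 ≤ 1 - t ^ 2 := by nlinarith [ht.1, ht.2]
    have h1 : ‖yy t‖ ^ 2 = 1 := by
      rw [← real_inner_self_eq_norm_sq]
      simp only [yy, inner_add_left, inner_add_right, inner_smul_left, inner_smul_right,
        RCLike.conj_to_real, hxu, real_inner_comm (x : EE d) u]
      rw [real_inner_self_eq_norm_sq, real_inner_self_eq_norm_sq, norm_S, hu]
      nlinarith [Real.sq_sqrt h0]
    have h2 : ‖yy t‖ ^ 2 = 1 ^ 2 := by rw [h1]; norm_num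
    exact (pow_left_inj₀ (norm_nonneg _) (by norm_num) two_ne_zero).1 h2
  have hyc : Continuous yy := by fun_prop
  have hyx : ∀ t, ⟪(x : EE d), yy t⟫ = t := by
    intro t
    simp only [yy, inner_add_right, inner_smul_right, hxu, mul_zero, add_zero]
    rw [inner_self_S, mul_one]
  let Φ : ℝ → ℝ := fun t => D ⟨yy (max (-1) (min 1 t)), by
    rw [mem_sphere_zero_iff_norm]
    exact hyy _ ⟨le_max_left _ _, max_le (by norm_num) (min_le_left _ _)⟩⟩
  have hΦc : Continuous Φ := by
    apply hc.comp
    apply Continuous.subtype_mk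
    exact hyc.comp (by fun_prop)
  have hΦ : ∀ y : Sph d, D y = Φ ⟪(x : EE d), y⟫ := by
    intro y
    apply hz
    have h1 := abs_inner_le x y
    show _ = ⟪(x : EE d), yy _⟫
    rw [hyx, min_eq_right h1.2, max_eq_right h1.1]
  -- orthogonality to all polynomials
  have hp : ∀ p : ℝ[X], ∫ y : Sph d, D y * p.eval ⟪(x : EE d), y⟫ ∂(sig d) = 0 := by
    intro p
    obtain ⟨J, a, ha⟩ := exists_expansion hd p
    simp only [ha, Finset.mul_sum]
    rw [integral_finsetSum]
    · apply Finset.sum_eq_zero
      intro j _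
      have : ∫ y : Sph d, D y * (a j * (PP d j).eval ⟪(x : EE d), y⟫) ∂(sig d) =
          a j * ∫ y : Sph d, D y * (PP d j).eval ⟪(x : EE d), y⟫ ∂(sig d) := by
        rw [← integral_const_mul]
        congr 1; funext y; ring
      rw [this, ho, mul_zero]
    · intro j _
      apply integrable_of_continuous
      exact hc.mul (continuous_const.mul (continuous_eval _ _))
  -- `∫ D² = 0`
  have hD2 : ∫ y : Sph d, D y ^ 2 ∂(sig d) = 0 := by
    have hnn : 0 ≤ ∫ y : Sph d, D y ^ 2 ∂(sig d) := integral_nonneg fun y => sq_nonneg _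
    set M := ∫ y : Sph d, |D y| ∂(sig d) with hM
    have hMnn : 0 ≤ M := integral_nonneg fun y => abs_nonneg _
    have key : ∀ η : ℝ, 0 < η → ∫ y : Sph d, D y ^ 2 ∂(sig d) ≤ η * M := by
      intro η hη
      obtain ⟨p, hp'⟩ := exists_polynomial_near_of_continuousOn (-1) 1 Φ hΦc.continuousOn η hη
      have h1 : ∫ y : Sph d, D y ^ 2 ∂(sig d) =
          ∫ y : Sph d, D y * (D y - p.eval ⟪(x : EE d), y⟫) ∂(sig d) := by
        have h2 : ∫ y : Sph d, D y * (D y - p.eval ⟪(x : EE d), y⟫) ∂(sig d) =
            ∫ y : Sph d, D y ^ 2 ∂(sig d) -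
              ∫ y : Sph d, D y * p.eval ⟪(x : EE d), y⟫ ∂(sig d) := by
          rw [← integral_sub]
          · congr 1; funext y; ring
          · exact integrable_of_continuous (hc.pow 2)
          · exact integrable_of_continuous (hc.mul (continuous_eval _ _))
        rw [h2, hp, sub_zero]
      rw [h1, hM, ← integral_const_mul]
      apply integral_mono
      · exact integrable_of_continuous (hc.mul (hc.sub (continuous_eval _ _)))
      · exact integrable_of_continuous (continuous_const.mul hc.abs)
      · intro y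
        show D y * (D y - p.eval ⟪(x : EE d), y⟫) ≤ η * |D y|
        have h3 := hp' _ (abs_inner_le x y)
        rw [← hΦ y] at h3
        calc D y * (D y - p.eval ⟪(x : EE d), y⟫)
            ≤ |D y * (D y - p.eval ⟪(x : EE d), y⟫)| := le_abs_self _
          _ = |D y| * |p.eval ⟪(x : EE d), y⟫ - D y| := by rw [abs_mul, abs_sub_comm (D y)]
          _ ≤ |D y| * η := mul_le_mul_of_nonneg_left h3.le (abs_nonneg _)
          _ = η * |D y| := mul_comm _ _
    by_contra hne
    have hpos : 0 < ∫ y : Sph d, D y ^ 2 ∂(sig d) := lt_of_le_of_ne hnn (Ne.symm hne)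
    have h1 := key ((∫ y : Sph d, D y ^ 2 ∂(sig d)) / (2 * (M + 1))) (by positivity)
    rw [div_mul_eq_mul_div, le_div_iff₀ (by positivity)] at h1
    nlinarith
  rw [integral_eq_zero_iff_of_nonneg (fun y => sq_nonneg _)
    (integrable_of_continuous (hc.pow 2))] at hD2
  have h1 : (fun y => D y ^ 2) = fun _ => (0 : ℝ) := by
    apply Measure.eq_of_ae_eq (μ := sig d) hD2 (hc.pow 2) continuous_const
  intro y
  have := congrFun h1 y
  exact pow_eq_zero_iff (two_ne_zero) |>.1 this

/-- the norm of `P_j` with respect to the zonal law -/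
noncomputable def nrm (d j : ℕ) : ℝ := cst d * ∫ t in (-1 : ℝ)..1, (PP d j).eval t ^ 2 * wt (d - 3) t

lemma zon_eq_nrm [NeZero d] (hd : 3 ≤ d) (x : Sph d) (j : ℕ) :
    zon x (PP d j * PP d j) = nrm d j := by
  unfold zon nrm
  rw [integral_zonal hd x (f := fun t => (PP d j * PP d j).eval t)
    (PP d j * PP d j).continuous.measurable]
  simp only [eval_mul, sq]

/-- the convolution formula -/
theorem conv_eq [NeZero d] (hd : 3 ≤ d) (j : ℕ) (x y : Sph d) :
    conv d j x y = nrm d j * (PP d j).eval ⟪(x : EE d), y⟫ := by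
  have hn : 0 < nrm d j := by
    rw [← zon_eq_nrm hd x]; exact zon_norm_pos hd x j
  set c := (∫ y : Sph d, conv d j x y * (PP d j).eval ⟪(x : EE d), y⟫ ∂(sig d)) / nrm d j with hc
  have key : ∀ y, conv d j x y - c * (PP d j).eval ⟪(x : EE d), y⟫ = 0 := by
    apply zonal_zero hd x
    · exact (continuous_conv j x).sub (continuous_const.mul (continuous_eval _ _))
    · intro y y' hyy
      have h1 : conv d j x y = conv d j x y' := by
        set U := (ℝ ∙ ((y : EE d) - y'))ᗮ.reflection with hU
        have hUy : U (y : EE d) = y' := by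
          apply Submodule.reflection_sub
          rw [norm_S, norm_S]
        have hUx : U (x : EE d) = x := by
          apply Submodule.reflection_mem_subspace_eq_self
          rw [Submodule.mem_orthogonal_singleton_iff_inner_right, real_inner_comm, inner_sub_right,
            hyy, sub_self]
        have h2 := conv_rot U j x y
        have e1 : rotS U x = x := by ext1; exact hUx
        have e2 : rotS U y = y' := by ext1; exact hUy
        rw [e1, e2] at h2
        exact h2.symm
      rw [h1, hyy]
    · intro i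
      have h2 : ∫ y : Sph d, (conv d j x y - c * (PP d j).eval ⟪(x : EE d), y⟫) *
          (PP d i).eval ⟪(x : EE d), y⟫ ∂(sig d) =
          ∫ y : Sph d, conv d j x y * (PP d i).eval ⟪(x : EE d), y⟫ ∂(sig d) -
          c * ∫ y : Sph d, (PP d j).eval ⟪(x : EE d), y⟫ * (PP d i).eval ⟪(x : EE d), y⟫ ∂(sig d) := by
        rw [← integral_const_mul, ← integral_sub]
        · congr 1; funext y; ring
        · exact integrable_of_continuous ((continuous_conv j x).mul (continuous_eval _ _))
        · exact integrable_of_continuous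
            (continuous_const.mul ((continuous_eval _ _).mul (continuous_eval _ _)))
      rw [h2]
      by_cases hij : i = j
      · subst hij
        have h3 : ∫ y : Sph d, (PP d i).eval ⟪(x : EE d), y⟫ * (PP d i).eval ⟪(x : EE d), y⟫ ∂(sig d)
            = nrm d i := by
          rw [← zon_eq_nrm hd x]
          unfold zon
          simp only [eval_mul]
        rw [h3, hc, div_mul_cancel₀ _ hn.ne', sub_self]
      · rw [conv_orth hd hij, PP_orth hd (Ne.symm hij), mul_zero, sub_zero]
  have hcn : c = nrm d j := by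
    have h1 := key x
    rw [inner_self_S, PP_eval_one hd, mul_one, sub_eq_zero] at h1
    rw [← h1, ← zon_eq_nrm hd x]
    unfold zon conv
    simp only [eval_mul]
  have := key y
  rw [hcn] at this
  linarith

end Pool.Agent.Helper47.KP
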