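import Pool.Agent.Helper47.KP.Bound
import Pool.Agent.Helper47.KP.Dens

/-!
Numbers, and the final theorem.
-/

set_option autoImplicit false

open Filter Topology

namespace Pool.Agent.Helper47.KP

lemma log_fact_lower (m : ℕ) : (m : ℝ) * Real.log m - m ≤ Real.log (m.factorial : ℝ) := by
  rcases Nat.eq_zero_or_pos m with rfl | hm
  · simp
  have hm' : (0 : ℝ) < m := by exact_mod_cast hm
  have h1 := Real.pow_div_factorial_le_exp (x := (m : ℝ)) hm'.le m
  have hf : (0 : ℝ) < m.factorial := by positivity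
  have h2 := Real.log_le_log (by positivity) h1
  rw [Real.log_div (by positivity) hf.ne', Real.log_pow, Real.log_exp] at h2
  linarith

lemma log_fact_upper (m : ℕ) (hm : 1 ≤ m) : Real.log (m.factorial : ℝ) ≤
    1 + Real.log m + ((m : ℝ) * Real.log m - m) := by
  induction m, hm using Nat.le_induction with
  | base => simp
  | succ m hm ih =>
    have hm' : (0 : ℝ) < m := by exact_mod_cast hm
    have hm1 : (0 : ℝ) < (m : ℝ) + 1 := by positivity
    have h1 : Real.log ((m + 1).factorial : ℝ) = Real.log ((m : ℝ) + 1) +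
        Real.log (m.factorial : ℝ) := by
      rw [Nat.factorial_succ]
      push_cast
      rw [Real.log_mul hm1.ne' (by positivity)]
    have h2 : 1 / ((m : ℝ) + 1) ≤ Real.log ((m : ℝ) + 1) - Real.log m := by
      have h3 := Real.one_sub_inv_le_log_of_pos (x := ((m : ℝ) + 1) / m) (by positivity)
      rw [Real.log_div hm1.ne' hm'.ne'] at h3
      refine le_trans (le_of_eq ?_) h3
      field_simp
      ring
    have h4 : 1 ≤ ((m : ℝ) + 1) * (Real.log ((m : ℝ) + 1) - Real.log m) := by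
      have := mul_le_mul_of_nonneg_left h2 hm1.le
      rwa [mul_one_div_cancel hm1.ne'] at this
    rw [h1]
    push_cast
    nlinarith

lemma log_choose_lower (t : ℕ) (ht : 1 ≤ t) :
    (t : ℝ) * (209 * Real.log 209 - 28 * Real.log 28 - 181 * Real.log 181) - 2 -
      Real.log 28 - Real.log 181 - 2 * Real.log t ≤
      Real.log ((Nat.choose (28 * t + 181 * t) (28 * t) : ℕ) : ℝ) := by
  have ht' : (0 : ℝ) < t := by exact_mod_cast ht
  have e1 : ((Nat.choose (28 * t + 181 * t) (28 * t) : ℕ) : ℝ) =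
      ((28 * t + 181 * t).factorial : ℝ) / ((28 * t).factorial * (181 * t).factorial) := by
    have h := Nat.choose_mul_factorial_mul_factorial (show 28 * t ≤ 28 * t + 181 * t by omega)
    rw [Nat.add_sub_cancel_left] at h
    rw [eq_div_iff (by positivity), ← mul_assoc]
    exact_mod_cast h
  rw [e1, Real.log_div (by positivity) (by positivity), Real.log_mul (by positivity)
    (by positivity)]
  have a1 := log_fact_lower (28 * t + 181 * t)
  have a2 := log_fact_upper (28 * t) (by omega)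
  have a3 := log_fact_upper (181 * t) (by omega)
  push_cast at a1 a2 a3
  have l1 : Real.log (28 * (t : ℝ) + 181 * t) = Real.log 209 + Real.log t := by
    rw [← Real.log_mul (by norm_num) ht'.ne']
    congr 1; ring
  have l2 : Real.log (28 * (t : ℝ)) = Real.log 28 + Real.log t :=
    Real.log_mul (by norm_num) ht'.ne'
  have l3 : Real.log (181 * (t : ℝ)) = Real.log 181 + Real.log t :=
    Real.log_mul (by norm_num) ht'.ne'
  rw [l1] at a1
  rw [l2] at a2
  rw [l3] at a3
  nlinarith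

lemma log_of_pow (p q r i j k l : ℕ) (hp : 0 < p) (hq : 0 < q) (hr : 0 < r)
    (h : p ^ i * q ^ j * 2 ^ k < r ^ l) :
    (i : ℝ) * Real.log p + j * Real.log q + k * Real.log 2 < l * Real.log r := by
  have h1 : (p : ℝ) ^ i * (q : ℝ) ^ j * 2 ^ k < (r : ℝ) ^ l := by exact_mod_cast h
  have hp' : (0 : ℝ) < p := by exact_mod_cast hp
  have hq' : (0 : ℝ) < q := by exact_mod_cast hq
  have hr' : (0 : ℝ) < r := by exact_mod_cast hr
  have h2 := Real.log_lt_log (by positivity) h1
  rwa [Real.log_mul (by positivity) (by positivity), Real.log_mul (by positivity) (by positivity),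
    Real.log_pow, Real.log_pow, Real.log_pow, Real.log_pow] at h2

lemma kappa_pos : 0 < (209 * Real.log 209 - 28 * Real.log 28 - 181 * Real.log 181) -
    (14842 / 125) * Real.log 2 := by
  have h := log_of_pow 28 181 209 3500 22625 14842 26125 (by norm_num) (by norm_num) (by norm_num)
    (by decide +kernel)
  push_cast at h
  linarith

/-- the binomial coefficient for the parameters of the final theorem -/
lemma choose_large : ∃ d₀ : ℕ, ∀ d : ℕ, d₀ ≤ d →
    (4 : ℝ) * 2 ^ ((0.656 : ℝ) * d) ≤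
      ((Nat.choose (28 * ((d - 3) / 181) + (d - 3)) (28 * ((d - 3) / 181)) : ℕ) : ℝ) := by
  set κ := (209 * Real.log 209 - 28 * Real.log 28 - 181 * Real.log 181) with hκ
  set η := κ - (14842 / 125) * Real.log 2 with hη
  have hη0 : 0 < η := kappa_pos
  -- the inequality for large t
  have hlog : ∀ᶠ t : ℕ in atTop, Real.log t ≤ η / 4 * t := by
    have h1 := (Real.isLittleO_log_id_atTop.bound (show (0 : ℝ) < η / 4 by positivity))
    have h2 := tendsto_natCast_atTop_atTop (R := ℝ) |>.eventually h1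
    filter_upwards [h2] with t ht
    simp only [id, Real.norm_eq_abs, Nat.abs_cast] at ht
    exact (le_abs_self _).trans ht
  set c := Real.log 4 + 0.656 * 183 * Real.log 2 + 2 + Real.log 28 + Real.log 181 with hc
  have hlin : ∀ᶠ t : ℕ in atTop, c ≤ η / 2 * t := by
    have h1 : Tendsto (fun t : ℕ => η / 2 * (t : ℝ)) atTop atTop :=
      Tendsto.const_mul_atTop (by positivity) tendsto_natCast_atTop_atTop
    exact h1.eventually_ge_atTop c
  obtain ⟨t₀, ht₀⟩ := eventually_atTop.1 (hlog.and (hlin.and (eventually_ge_atTop 1)))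
  refine ⟨181 * t₀ + 3, fun d hd => ?_⟩
  set t := (d - 3) / 181 with ht
  have htt : t₀ ≤ t := by
    rw [ht, Nat.le_div_iff_mul_le (by norm_num)]
    omega
  obtain ⟨h1, h2, h3⟩ := ht₀ t htt
  have hd1 : 181 * t ≤ d - 3 := Nat.mul_div_le _ _
  have hd2 : d ≤ 181 * t + 183 := by
    have := Nat.lt_mul_div_succ (d - 3) (show 0 < 181 by norm_num)
    rw [← ht] at this
    omega
  have hd2' : (d : ℝ) ≤ 181 * t + 183 := by exact_mod_cast hd2
  have hch : Nat.choose (28 * t + 181 * t) (28 * t) ≤ Nat.choose (28 * t + (d - 3)) (28 * t) :=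
    Nat.choose_le_choose _ (by omega)
  have hch' : ((Nat.choose (28 * t + 181 * t) (28 * t) : ℕ) : ℝ) ≤
      ((Nat.choose (28 * t + (d - 3)) (28 * t) : ℕ) : ℝ) := by exact_mod_cast hch
  refine le_trans ?_ hch'
  have hpos : (0 : ℝ) < ((Nat.choose (28 * t + 181 * t) (28 * t) : ℕ) : ℝ) := by
    exact_mod_cast Nat.choose_pos (by omega)
  rw [← Real.log_le_log_iff (by positivity) hpos]
  refine le_trans ?_ (log_choose_lower t h3)
  rw [Real.log_mul (by norm_num) (by positivity), Real.log_rpow (by norm_num)]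
  have hl2 : 0 < Real.log 2 := Real.log_pos (by norm_num)
  have h4 : (0.656 : ℝ) * d * Real.log 2 ≤ 0.656 * (181 * t + 183) * Real.log 2 := by gcongr
  rw [← hκ]
  have h5 : κ = η + (14842 / 125) * Real.log 2 := by rw [hη]; ring
  rw [h5]
  nlinarith

theorem kpoint_barrier : ∃ δ : ℝ, 0 < δ ∧ ∃ d₀ : ℕ, ∀ d : ℕ, d₀ ≤ d → ∀ k : ℕ, 2 ≤ k →
    (k : ℝ) ≤ 2 ^ (δ * d) → ∀ (T : Finset (Sph d) → Sph d → Sph d → ℝ) (lam : ℝ),
      IsFeasible d k T lam → (2 : ℝ) ^ ((0.328 : ℝ) * d) ≤ lam := by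
  -- the parameters
  set A : ℝ := 373209 / 100000 with hA
  set b : ℝ := 2 * A / (A ^ 2 + 1) with hb
  have hPar : Par A b := ⟨by rw [hA]; norm_num, by rw [hb]; field_simp⟩
  have hb2 : b < 1 / 2 := by rw [hb, hA]; norm_num
  have hβ : (28 / 181 : ℝ) < 2 / (A ^ 2 - 1) := by rw [hA]; norm_num
  obtain ⟨C, θ, hC, hθ0, hθ1, hdens⟩ := exists_density hPar hb2 hβ
  set ρ := Real.sqrt θ with hρ
  have hρ0 : 0 < ρ := Real.sqrt_pos.2 hθ0
  have hρ1 : ρ < 1 := by rw [hρ, Real.sqrt_lt' one_pos]; simpa using hθ1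
  have hρ2 : ρ ^ 2 = θ := Real.sq_sqrt hθ0.le
  have hδ : 0 < Real.logb 2 ρ⁻¹ := Real.logb_pos (by norm_num) ((one_lt_inv₀ hρ0).2 hρ1)
  refine ⟨Real.logb 2 ρ⁻¹, hδ, ?_⟩
  have hpow : ∀ d : ℕ, (2 : ℝ) ^ (Real.logb 2 ρ⁻¹ * d) = (ρ⁻¹) ^ d := by
    intro d
    rw [Real.rpow_mul (by norm_num), Real.rpow_logb (by norm_num) (by norm_num) (by positivity),
      Real.rpow_natCast]
  obtain ⟨d₁, hd₁⟩ := choose_large
  have hlim : Tendsto (fun d : ℕ => C * ρ ^ (d - 6)) atTop (𝓝 0) := by
    have h1 := (tendsto_pow_atTop_nhds_zero_of_lt_one hρ0.le hρ1).comp (tendsto_sub_atTop_nat 6)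
    simpa using h1.const_mul C
  have hl2 : 0 < Real.log 2 := Real.log_pos (by norm_num)
  obtain ⟨d₂, hd₂⟩ := eventually_atTop.1 (hlim.eventually (gt_mem_nhds hl2))
  refine ⟨max (max d₁ d₂) 6, fun d hd k hk hkd T lam hf => ?_⟩
  have hdd1 : d₁ ≤ d := le_trans (le_trans (le_max_left _ _) (le_max_left _ _)) hd
  have hdd2 : d₂ ≤ d := le_trans (le_trans (le_max_right _ _) (le_max_left _ _)) hd
  have hd6 : 6 ≤ d := le_trans (le_max_right _ _) hd
  have : NeZero d := ⟨by omega⟩
  rw [hpow] at hkd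
  set r := C * θ ^ (d - 3) with hr
  have hr0 : 0 < r := by positivity
  have hrk : r * k ≤ Real.log 2 := by
    calc r * k ≤ r * (ρ⁻¹) ^ d := by gcongr
      _ = C * ρ ^ (d - 6) := by
        rw [hr, ← hρ2, ← pow_mul]
        obtain ⟨e, rfl⟩ : ∃ e, d = e + 6 := ⟨d - 6, by omega⟩
        have e1 : 2 * (e + 6 - 3) = (e + 6) + (e + 6 - 6) := by omega
        rw [e1, pow_add, inv_pow]
        field_simp
      _ ≤ Real.log 2 := (hd₂ d hdd2).le
  have hk' : (2 : ℝ) ≤ k := by exact_mod_cast hk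
  have hlog2 : Real.log 2 < 1 := by
    have := Real.log_two_lt_d9
    linarith
  have hr1 : r ≤ 1 := by nlinarith
  set n := 28 * ((d - 3) / 181) with hn
  have hnβ : (n : ℝ) ≤ 28 / 181 * ((d - 3 : ℕ) : ℝ) := by
    have h1 : 181 * ((d - 3) / 181) ≤ d - 3 := Nat.mul_div_le _ _
    have h2 : (181 : ℝ) * (((d - 3) / 181 : ℕ) : ℝ) ≤ ((d - 3 : ℕ) : ℝ) := by exact_mod_cast h1
    rw [hn]
    push_cast
    linarith
  obtain ⟨g, hgm, hg0, hg1, hgz, hgI, hgj⟩ := hdens d n (by omega) hnβ hr1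
  set ε := Real.sqrt (1 / (Nat.choose (n + (d - 3)) n : ℝ)) with hε
  have hε0 : 0 ≤ ε := Real.sqrt_nonneg _
  set N : ℝ := 2 ^ ((0.328 : ℝ) * d) with hN
  have hN0 : 0 < N := by positivity
  have hεN : ε * (N * 2) ≤ 1 := by
    have hpos : (0 : ℝ) < (Nat.choose (n + (d - 3)) n : ℝ) := by
      exact_mod_cast Nat.choose_pos (by omega)
    have h1 : (N * 2) ^ 2 ≤ (Nat.choose (n + (d - 3)) n : ℝ) := by
      refine le_trans (le_of_eq ?_) (hd₁ d hdd1)
      rw [mul_pow, hN, ← Real.rpow_natCast (2 ^ ((0.328 : ℝ) * d)) 2, ← Real.rpow_mul (by norm_num)]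
      have : (0.328 : ℝ) * d * ((2 : ℕ) : ℝ) = 0.656 * d := by push_cast; ring
      rw [this]
      ring
    have h2 : (ε * (N * 2)) ^ 2 ≤ 1 := by
      rw [mul_pow, hε, Real.sq_sqrt (by positivity), one_div, inv_mul_le_one₀ hpos]
      exact h1
    have h3 : 0 ≤ ε * (N * 2) := by positivity
    nlinarith
  have hexp : (1 + r) ^ (k - 2) ≤ 2 := by
    calc (1 + r) ^ (k - 2) ≤ (1 + r) ^ k := pow_le_pow_right₀ (by linarith) (by omega)
      _ ≤ (Real.exp r) ^ k := by
        gcongr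
        have := Real.add_one_le_exp r
        linarith
      _ = Real.exp (r * k) := by rw [← Real.exp_nat_mul, mul_comm]
      _ ≤ Real.exp (Real.log 2) := Real.exp_le_exp.2 hrk
      _ = 2 := Real.exp_log (by norm_num)
  have hεB : ε * (N * (1 + r) ^ (k - 2)) ≤ 1 := by
    refine le_trans ?_ hεN
    gcongr
  exact kpoint_bound (by omega) hk hf hgm hg0 hr0.le hg1 hgI hgz hε0
    (fun j hj => by
      have := hgj j hj
      rw [abs_le] at this
      exact this.1) hN0 hεB

end Pool.Agent.Helper47.KP
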