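import Pool.Agent.Helper47.KP.Stein

/-!
Gegenbauer polynomials of the sphere `S^(d-1)`, their differential equation, orthogonality on the
sphere and their norms.
-/

set_option autoImplicit false

open MeasureTheory Set Metric Polynomial
open scoped RealInnerProductSpace

namespace Pool.Agent.Helper47.KP

/-- Gegenbauer polynomials of `S^(d-1)`, `P_j(1) = 1` -/
noncomputable def PP (d : ℕ) : ℕ → ℝ[X]
  | 0 => 1
  | 1 => X
  | (j + 2) => C ((2 * (j : ℝ) + d) / (j + d - 1)) * (X * PP d (j + 1))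
      - C (((j : ℝ) + 1) / (j + d - 1)) * PP d j

variable {d : ℕ}

lemma PP_zero : PP d 0 = 1 := rfl

lemma PP_one : PP d 1 = X := rfl

lemma PP_succ (j : ℕ) : PP d (j + 2) = C ((2 * (j : ℝ) + d) / (j + d - 1)) * (X * PP d (j + 1))
      - C (((j : ℝ) + 1) / (j + d - 1)) * PP d j := rfl

lemma PP_rec (hd : 3 ≤ d) (j : ℕ) (t : ℝ) : ((j : ℝ) + d - 1) * (PP d (j + 2)).eval t =
    (2 * j + d) * (t * (PP d (j + 1)).eval t) - (j + 1) * (PP d j).eval t := by
  have hd' : (3 : ℝ) ≤ d := by exact_mod_cast hd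
  have hj : (0 : ℝ) ≤ j := Nat.cast_nonneg j
  have h : (j : ℝ) + d - 1 ≠ 0 := by
    have : 0 < (j : ℝ) + d - 1 := by linarith
    exact this.ne'
  rw [PP_succ]
  simp only [eval_sub, eval_mul, eval_C, eval_X]
  field_simp

lemma PP_rec_deriv (hd : 3 ≤ d) (j : ℕ) (t : ℝ) :
    ((j : ℝ) + d - 1) * (derivative (PP d (j + 2))).eval t =
    (2 * j + d) * ((PP d (j + 1)).eval t + t * (derivative (PP d (j + 1))).eval t)
      - (j + 1) * (derivative (PP d j)).eval t := by
  have hd' : (3 : ℝ) ≤ d := by exact_mod_cast hd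
  have hj : (0 : ℝ) ≤ j := Nat.cast_nonneg j
  have h : (j : ℝ) + d - 1 ≠ 0 := by
    have : 0 < (j : ℝ) + d - 1 := by linarith
    exact this.ne'
  rw [PP_succ]
  simp only [derivative_sub, derivative_mul, derivative_C, derivative_X, eval_sub, eval_mul,
    eval_C, eval_X, eval_add, eval_zero, eval_one]
  field_simp
  ring

lemma PP_eval_one (hd : 3 ≤ d) (j : ℕ) : (PP d j).eval 1 = 1 := by
  have main : ∀ j, (PP d j).eval 1 = 1 ∧ (PP d (j + 1)).eval 1 = 1 := by
    intro j
    induction j with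
    | zero => simp [PP_zero, PP_one]
    | succ j ih =>
      refine ⟨ih.2, ?_⟩
      have h := PP_rec hd j 1
      rw [ih.1, ih.2] at h
      have hd' : (3 : ℝ) ≤ d := by exact_mod_cast hd
      have hj : (0 : ℝ) ≤ j := Nat.cast_nonneg j
      have h0 : (j : ℝ) + d - 1 ≠ 0 := by
        have : 0 < (j : ℝ) + d - 1 := by linarith
        exact this.ne'
      apply mul_left_cancel₀ h0
      rw [show j + 1 + 1 = j + 2 by ring, h]
      ring
  exact (main j).1

/-- the two first order relations -/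
lemma PP_AB (hd : 3 ≤ d) (j : ℕ) (t : ℝ) :
    (1 - t ^ 2) * (derivative (PP d (j + 1))).eval t =
        (j + 1) * ((PP d j).eval t - t * (PP d (j + 1)).eval t) ∧
    (1 - t ^ 2) * (derivative (PP d j)).eval t =
        (j + d - 2) * (t * (PP d j).eval t - (PP d (j + 1)).eval t) := by
  have hd' : (3 : ℝ) ≤ d := by exact_mod_cast hd
  induction j with
  | zero =>
    constructor
    · simp [PP_zero, PP_one]; ring
    · simp [PP_zero, PP_one]
  | succ j ih =>
    obtain ⟨hA, hB⟩ := ih
    have hr := PP_rec hd j t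
    have hr' := PP_rec_deriv hd j t
    have hj : (0 : ℝ) ≤ j := Nat.cast_nonneg j
    have h0 : (j : ℝ) + d - 1 ≠ 0 := by
      have : 0 < (j : ℝ) + d - 1 := by linarith
      exact this.ne'
    set p0 := (PP d j).eval t
    set p1 := (PP d (j + 1)).eval t
    set p2 := (PP d (j + 2)).eval t
    set q0 := (derivative (PP d j)).eval t
    set q1 := (derivative (PP d (j + 1))).eval t
    set q2 := (derivative (PP d (j + 2))).eval t
    constructor
    · apply mul_left_cancel₀ h0
      push_cast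
      change ((j : ℝ) + d - 1) * ((1 - t ^ 2) * q2) =
        ((j : ℝ) + d - 1) * ((j + 1 + 1) * (p1 - t * p2))
      linear_combination (1 - t ^ 2) * hr' + (2 * j + d) * t * hA - (j + 1) * hB
        + (j + 2) * t * hr
    · push_cast
      change (1 - t ^ 2) * q1 = (j + 1 + d - 2) * (t * p1 - p2)
      linear_combination hA + hr

/-- the Gegenbauer differential equation -/
lemma Lop_PP (hd : 3 ≤ d) (j : ℕ) :
    Lop d (PP d j) = C (-((j : ℝ) * (j + d - 2))) * PP d j := by
  have hd' : (3 : ℝ) ≤ d := by exact_mod_cast hd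
  rcases j with _ | j
  · simp [Lop, PP_zero]
  have h0 : (1 - X ^ 2 : ℝ[X]) ≠ 0 := by
    intro h
    have := congrArg (fun p => eval 0 p) h
    simp at this
  apply mul_left_cancel₀ h0
  apply Polynomial.funext
  intro t
  have hA : (1 - X ^ 2 : ℝ[X]) * derivative (PP d (j + 1)) =
      C ((j : ℝ) + 1) * (PP d j - X * PP d (j + 1)) := by
    apply Polynomial.funext
    intro s
    simp only [eval_mul, eval_sub, eval_one, eval_pow, eval_X, eval_C]
    exact (PP_AB hd j s).1
  have hA' := congrArg (fun p => eval t (derivative p)) hA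
  simp only [derivative_mul, derivative_sub, derivative_one, derivative_X_pow, derivative_C,
    derivative_X, eval_add, eval_mul, eval_sub, eval_one, eval_pow, eval_X, eval_C, eval_zero,
    zero_mul, zero_add, zero_sub, eval_neg] at hA'
  have hAt := (PP_AB hd j t).1
  have hBt := (PP_AB hd j t).2
  simp only [eval_mul, eval_sub, eval_one, eval_pow, eval_X, eval_C, Lop_eval]
  push_cast at hA' ⊢
  set p0 := (PP d j).eval t
  set p1 := (PP d (j + 1)).eval t
  set q0 := (derivative (PP d j)).eval t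
  set q1 := (derivative (PP d (j + 1))).eval t
  set r1 := (derivative (derivative (PP d (j + 1)))).eval t
  linear_combination (1 - t ^ 2) * hA' + (j + 1) * hBt - ((d - 3 + (j + 1)) * t) * hAt

/-- orthogonality on the sphere -/
lemma PP_orth [NeZero d] (hd : 3 ≤ d) {i j : ℕ} (hij : i ≠ j) (x y : Sph d) :
    ∫ z : Sph d, (PP d i).eval ⟪(x : EE d), z⟫ * (PP d j).eval ⟪(y : EE d), z⟫ ∂(sig d) = 0 := by
  have h := Lop_symm (PP d i) (PP d j) x y
  rw [Lop_PP hd, Lop_PP hd] at h
  simp only [eval_mul, eval_C] at h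
  set I := ∫ z : Sph d, (PP d i).eval ⟪(x : EE d), z⟫ * (PP d j).eval ⟪(y : EE d), z⟫ ∂(sig d)
    with hI
  have e1 : ∫ z : Sph d, (PP d i).eval ⟪(x : EE d), z⟫ *
      (-((j : ℝ) * (j + d - 2)) * (PP d j).eval ⟪(y : EE d), z⟫) ∂(sig d) =
      -((j : ℝ) * (j + d - 2)) * I := by
    rw [hI, ← integral_const_mul]
    congr 1; funext z; ring
  have e2 : ∫ z : Sph d, -((i : ℝ) * (i + d - 2)) * (PP d i).eval ⟪(x : EE d), z⟫ *
      (PP d j).eval ⟪(y : EE d), z⟫ ∂(sig d) = -((i : ℝ) * (i + d - 2)) * I := by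
    rw [hI, ← integral_const_mul]
    congr 1; funext z; ring
  rw [e1, e2] at h
  have hd' : (3 : ℝ) ≤ d := by exact_mod_cast hd
  have hi : (0 : ℝ) ≤ i := Nat.cast_nonneg i
  have hj : (0 : ℝ) ≤ j := Nat.cast_nonneg j
  have hne : ((i : ℝ) - j) ≠ 0 := sub_ne_zero.2 (by exact_mod_cast hij)
  have hpos : (i : ℝ) + j + d - 2 ≠ 0 := by
    have : 0 < (i : ℝ) + j + d - 2 := by linarith
    exact this.ne'
  have h2 : ((i : ℝ) - j) * ((i : ℝ) + j + d - 2) * I = 0 := by linear_combination h
  rcases mul_eq_zero.1 h2 with h3 | h3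
  · exact absurd h3 (mul_ne_zero hne hpos)
  · exact h3

lemma continuous_eval (p : ℝ[X]) (x : EE d) : Continuous (fun z : Sph d => p.eval ⟪x, (z : EE d)⟫) := by
  have : Continuous (fun z : EE d => ⟪x, z⟫) := by fun_prop
  exact p.continuous.comp (this.comp continuous_subtype_val)

lemma integrable_eval [NeZero d] (p : ℝ[X]) (x : EE d) :
    Integrable (fun z : Sph d => p.eval ⟪x, (z : EE d)⟫) (sig d) :=
  integrable_of_continuous (continuous_eval p x)

/-- the zonal functional -/
noncomputable def zon (x : Sph d) (p : ℝ[X]) : ℝ := ∫ z : Sph d, p.eval ⟪(x : EE d), z⟫ ∂(sig d)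

lemma zon_add [NeZero d] (x : Sph d) (p q : ℝ[X]) : zon x (p + q) = zon x p + zon x q := by
  unfold zon
  simp only [eval_add]
  exact integral_add (integrable_eval p _) (integrable_eval q _)

lemma zon_sub [NeZero d] (x : Sph d) (p q : ℝ[X]) : zon x (p - q) = zon x p - zon x q := by
  unfold zon
  simp only [eval_sub]
  exact integral_sub (integrable_eval p _) (integrable_eval q _)

lemma zon_C_mul (x : Sph d) (c : ℝ) (p : ℝ[X]) : zon x (C c * p) = c * zon x p := by
  unfold zon
  rw [← integral_const_mul]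
  simp

lemma zon_one [NeZero d] (x : Sph d) : zon x 1 = 1 := by
  simp [zon]

lemma zon_orth [NeZero d] (hd : 3 ≤ d) {i j : ℕ} (hij : i ≠ j) (x : Sph d) :
    zon x (PP d i * PP d j) = 0 := by
  have := PP_orth hd hij x x
  simpa [zon] using this

/-- the recursion for the norms -/
lemma zon_norm_rec [NeZero d] (hd : 3 ≤ d) (x : Sph d) (j : ℕ) :
    (((j : ℝ) + d - 2) * (2 * j + d)) * zon x (PP d (j + 1) * PP d (j + 1)) =
      ((j + 1) * (2 * j + d - 2)) * zon x (PP d j * PP d j) := by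
  have hd' : (3 : ℝ) ≤ d := by exact_mod_cast hd
  have hj : (0 : ℝ) ≤ j := Nat.cast_nonneg j
  -- `(2j+d) E[X P_{j+1} P_j] = (j+1) n_j`
  have h1 : ∀ j : ℕ, (2 * (j : ℝ) + d) * zon x (X * PP d (j + 1) * PP d j) =
      (j + 1) * zon x (PP d j * PP d j) := by
    intro j
    have hj : (0 : ℝ) ≤ j := Nat.cast_nonneg j
    have h0 : zon x (PP d (j + 2) * PP d j) = 0 := zon_orth hd (by omega) x
    rw [PP_succ, sub_mul, zon_sub,
      show C ((2 * (j : ℝ) + d) / (j + d - 1)) * (X * PP d (j + 1)) * PP d j =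
        C ((2 * (j : ℝ) + d) / (j + d - 1)) * (X * PP d (j + 1) * PP d j) by ring,
      show C (((j : ℝ) + 1) / (j + d - 1)) * PP d j * PP d j =
        C (((j : ℝ) + 1) / (j + d - 1)) * (PP d j * PP d j) by ring, zon_C_mul, zon_C_mul] at h0
    have h : (j : ℝ) + d - 1 ≠ 0 := by
      have : 0 < (j : ℝ) + d - 1 := by linarith
      exact this.ne'
    field_simp at h0
    linarith
  rcases j with _ | j
  · -- `n_1 = 1/d`
    have h2 := h1 0
    simp only [PP_zero, PP_one, Nat.cast_zero, mul_zero, zero_add, mul_one, zon_one] at h2 ⊢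
    linear_combination ((d : ℝ) - 2) * h2
  · -- general case
    have h2 := h1 (j + 1)
    have h3 : ((j : ℝ) + d - 1) * zon x (PP d (j + 2) * PP d (j + 2)) =
        (2 * j + d) * zon x (X * PP d (j + 2) * PP d (j + 1)) := by
      have h0 : zon x (PP d j * PP d (j + 2)) = 0 := zon_orth hd (by omega) x
      have h4 : zon x (PP d (j + 2) * PP d (j + 2)) =
          (2 * (j : ℝ) + d) / (j + d - 1) * zon x (X * PP d (j + 2) * PP d (j + 1)) := by
        conv_lhs => rw [show PP d (j + 2) * PP d (j + 2) =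
          C ((2 * (j : ℝ) + d) / (j + d - 1)) * (X * PP d (j + 2) * PP d (j + 1)) -
            C (((j : ℝ) + 1) / (j + d - 1)) * (PP d j * PP d (j + 2)) by
            nth_rewrite 1 [PP_succ]; ring]
        rw [zon_sub, zon_C_mul, zon_C_mul, h0]
        ring
      have h : (j : ℝ) + d - 1 ≠ 0 := by
        have hj : (0 : ℝ) ≤ j := Nat.cast_nonneg j
        have : 0 < (j : ℝ) + d - 1 := by linarith
        exact this.ne'
      rw [h4]
      field_simp
    push_cast at h2 h3 ⊢
    rw [show j + 1 + 1 = j + 2 by ring] at h2 ⊢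
    linear_combination (2 * (j : ℝ) + 2 + d) * h3 + (2 * (j : ℝ) + d) * h2

/-- the norm of `P_j` -/
lemma zon_norm [NeZero d] (hd : 3 ≤ d) (x : Sph d) (j : ℕ) :
    (2 * (j : ℝ) + d - 2) * (Nat.choose (j + (d - 3)) j) * zon x (PP d j * PP d j) = d - 2 := by
  have hd' : (3 : ℝ) ≤ d := by exact_mod_cast hd
  have hc : ((d - 3 : ℕ) : ℝ) = (d : ℝ) - 3 := by rw [Nat.cast_sub hd]; norm_num
  induction j with
  | zero => simp [PP_zero, zon_one]
  | succ j ih =>
    have hj : (0 : ℝ) ≤ j := Nat.cast_nonneg j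
    have h1 := zon_norm_rec hd x j
    have h2 : ((j : ℝ) + 1) * (Nat.choose (j + 1 + (d - 3)) (j + 1)) =
        (j + 1 + (d - 3)) * Nat.choose (j + (d - 3)) j := by
      have h3 := Nat.add_one_mul_choose_eq (j + (d - 3)) j
      have h4 : ((j + (d - 3) + 1 : ℕ) : ℝ) * (Nat.choose (j + (d - 3)) j : ℝ) =
          (Nat.choose (j + (d - 3) + 1) (j + 1) : ℝ) * ((j + 1 : ℕ) : ℝ) := by exact_mod_cast h3
      rw [show j + 1 + (d - 3) = j + (d - 3) + 1 by ring]
      push_cast at h4
      rw [hc] at h4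
      linarith
    set n0 := zon x (PP d j * PP d j)
    set n1 := zon x (PP d (j + 1) * PP d (j + 1))
    set c0 := (Nat.choose (j + (d - 3)) j : ℝ)
    set c1 := (Nat.choose (j + 1 + (d - 3)) (j + 1) : ℝ)
    have hpos : ((j : ℝ) + 1) ≠ 0 := by positivity
    apply mul_left_cancel₀ hpos
    push_cast
    have h5 : (j : ℝ) + 1 + (d - 3) = j + d - 2 := by ring
    rw [h5] at h2
    have h6 : ((j : ℝ) + 1) * ((2 * (j + 1) + d - 2) * c1 * n1) =
        (2 * j + d) * n1 * ((j + d - 2) * c0) := by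
      rw [← h2]; ring
    rw [h6]
    linear_combination c0 * h1 + (j + 1) * ih

lemma zon_norm_nonneg (x : Sph d) (p : ℝ[X]) : 0 ≤ zon x (p * p) := by
  unfold zon
  apply integral_nonneg
  intro z
  simp only [eval_mul, Pi.zero_apply]
  exact mul_self_nonneg _

lemma zon_norm_le [NeZero d] (hd : 3 ≤ d) (x : Sph d) (j : ℕ) :
    (Nat.choose (j + (d - 3)) j : ℝ) * zon x (PP d j * PP d j) ≤ 1 := by
  have h := zon_norm hd x j
  have hd' : (3 : ℝ) ≤ d := by exact_mod_cast hd
  have hj : (0 : ℝ) ≤ j := Nat.cast_nonneg j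
  have h0 := zon_norm_nonneg x (PP d j)
  have h1 : 0 ≤ (Nat.choose (j + (d - 3)) j : ℝ) * zon x (PP d j * PP d j) := by positivity
  nlinarith

lemma zon_norm_pos [NeZero d] (hd : 3 ≤ d) (x : Sph d) (j : ℕ) :
    0 < zon x (PP d j * PP d j) := by
  have h := zon_norm hd x j
  have hd' : (3 : ℝ) ≤ d := by exact_mod_cast hd
  rcases (zon_norm_nonneg x (PP d j)).lt_or_eq with h1 | h1
  · exact h1
  · rw [← h1] at h
    linarith

end Pool.Agent.Helper47.KP
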