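import Pool.Agent.Helper47.KP.Weights

/-!
The identity between the weighted sums over tuples and the conditional forms.
-/

set_option autoImplicit false

open MeasureTheory Finset

namespace Pool.Agent.Helper47.KP

section

variable {X : Type} [MeasurableSpace X] (σ : Measure X) [IsProbabilityMeasure σ]

/-- the part of pairs -/
noncomputable def P3 (t : ∀ q, (Fin q → X) → X → X → ℝ) : ∀ n, (Fin (n + 1) → X) → ℝ
  | 0, _ => 0
  | n + 1, z => ∑ a, ∑ c : Fin (n + 1),
      t n (fun e => z (a.succAbove (c.succAbove e))) (z a) (z (a.succAbove c))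

/-- the whole sum on the level `n + 1` -/
noncomputable def XB (t : ∀ q, (Fin q → X) → X → X → ℝ) (n : ℕ) (z : Fin (n + 1) → X) : ℝ :=
  ∑ a, ∑ b, t (n + 1) z (z a) (z b) +
      ∑ a, (t n (fun c => z (a.succAbove c)) (z a) (z a) + ∑ c : Fin n,
        (t n (fun c => z (a.succAbove c)) (z a) (z (a.succAbove c)) +
         t n (fun c => z (a.succAbove c)) (z (a.succAbove c)) (z a))) + P3 t n z

variable (N : ℝ) {h : X → X → ℝ} (hh : Bd (fun p : X × X => h p.1 p.2))
  {t : ∀ q, (Fin q → X) → X → X → ℝ}
  (ht : ∀ q, Bd (fun p : (Fin q → X) × X × X => t q p.1 p.2.1 p.2.2))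
  (hs : ∀ q v x y, t q v x y = t q v y x)

include hh ht hs

lemma integral_P3 (n : ℕ) : Bd (fun z : Fin (n + 1) → X => rho N h z * P3 t n z) ∧
    ∫ z : Fin (n + 1) → X, rho N h z * P3 t n z ∂(pim σ (n + 1)) =
      ((n : ℝ) + 1) * (n * PC σ N h t (n - 1)) := by
  rcases n with _ | n
  · simp only [P3, mul_zero]
    constructor
    · exact Bd.const 0
    · simp
  · have e : (fun z : Fin (n + 2) → X => rho N h z * P3 t (n + 1) z) =
        fun z => ∑ a : Fin (n + 2), ∑ c : Fin (n + 1), rho N h z *
      t n (fun e => z (a.succAbove (c.succAbove e))) (z a) (z (a.succAbove c)) := by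
      funext z
      simp only [P3, mul_sum]
    constructor
    · rw [e]
      exact Bd.sum _ fun a _ => Bd.sum _ fun c _ => (integral_PC σ N hh ht hs n a c).1
    · rw [e, integral_finsetSum]
      · have e2 : ∀ a : Fin (n + 2), ∫ z : Fin (n + 2) → X, ∑ c : Fin (n + 1), rho N h z *
            t n (fun e => z (a.succAbove (c.succAbove e))) (z a) (z (a.succAbove c))
            ∂(pim σ (n + 2)) = ((n : ℝ) + 1) * PC σ N h t n := by
          intro a
          rw [integral_finsetSum]
          · rw [sum_congr rfl fun c _ => (integral_PC σ N hh ht hs n a c).2]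
            simp
          · intro c _
            exact (integral_PC σ N hh ht hs n a c).1.integrable _
        rw [sum_congr rfl fun a _ => e2 a]
        simp only [sum_const, card_univ, Fintype.card_fin, nsmul_eq_mul, Nat.add_sub_cancel]
        push_cast
        ring
      · intro a _
        exact (Bd.sum _ fun c _ => (integral_PC σ N hh ht hs n a c).1).integrable _

lemma integral_XB (n : ℕ) : Bd (fun z : Fin (n + 1) → X => rho N h z * XB t n z) ∧
    ∫ z : Fin (n + 1) → X, rho N h z * XB t n z ∂(pim σ (n + 1)) =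
      PA σ N h t (n + 1) + ((n : ℝ) + 1) * PB σ N h t n +
      ((n : ℝ) + 1) * (n * PC σ N h t (n - 1)) := by
  have e : (fun z : Fin (n + 1) → X => rho N h z * XB t n z) =
      fun z => rho N h z * (∑ a, ∑ b, t (n + 1) z (z a) (z b)) +
      ∑ a, rho N h z * (t n (fun c => z (a.succAbove c)) (z a) (z a) + ∑ c : Fin n,
        (t n (fun c => z (a.succAbove c)) (z a) (z (a.succAbove c)) +
         t n (fun c => z (a.succAbove c)) (z (a.succAbove c)) (z a))) +
      rho N h z * P3 t n z := by
    funext z
    simp only [XB, mul_add, mul_sum]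
  have b1 := Bd_PA N hh ht (n + 1)
  have b2 : Bd (fun z : Fin (n + 1) → X => ∑ a, rho N h z *
      (t n (fun c => z (a.succAbove c)) (z a) (z a) + ∑ c : Fin n,
        (t n (fun c => z (a.succAbove c)) (z a) (z (a.succAbove c)) +
         t n (fun c => z (a.succAbove c)) (z (a.succAbove c)) (z a)))) :=
    Bd.sum _ fun a _ => (integral_PB σ N hh ht n a).1
  have b3 := integral_P3 σ N hh ht hs n
  constructor
  · rw [e]
    exact (b1.add b2).add b3.1
  · rw [e, integral_add ((b1.add b2).integrable _) (b3.1.integrable _),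
      integral_add (b1.integrable _) (b2.integrable _), b3.2, integral_finsetSum]
    · rw [sum_congr rfl fun a _ => (integral_PB σ N hh ht n a).2]
      simp only [sum_const, card_univ, Fintype.card_fin, nsmul_eq_mul]
      push_cast
      rfl
    · intro a _
      exact (integral_PB σ N hh ht n a).1.integrable _

/-- the identity -/
theorem total_identity (K : ℕ) (h0 : ∀ q, K ≤ q → ∀ v x y, t q v x y = 0) :
    ∑ n ∈ range (K + 1), (1 / ((n + 1).factorial : ℝ)) *
      ∫ z : Fin (n + 1) → X, rho N h z * XB t n z ∂(pim σ (n + 1)) =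
    ∑ q ∈ range K, (1 / (q.factorial : ℝ)) * (PA σ N h t q + PB σ N h t q + PC σ N h t q) := by
  have z1 : ∀ q, K ≤ q → PA σ N h t q = 0 := fun q hq => by
    simp [PA, h0 q hq]
  have z2 : ∀ q, K ≤ q → PB σ N h t q = 0 := fun q hq => by
    simp [PB, h0 q hq]
  have z0 : PA σ N h t 0 = 0 := by simp [PA]
  have e1 : ∀ n : ℕ, (1 / ((n + 1).factorial : ℝ)) *
      ∫ z : Fin (n + 1) → X, rho N h z * XB t n z ∂(pim σ (n + 1)) =
      (1 / ((n + 1).factorial : ℝ)) * PA σ N h t (n + 1) +
      (1 / (n.factorial : ℝ)) * PB σ N h t n +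
      (if n = 0 then 0 else (1 / ((n - 1).factorial : ℝ)) * PC σ N h t (n - 1)) := by
    intro n
    rw [(integral_XB σ N hh ht hs n).2, Nat.factorial_succ]
    have hf : (n.factorial : ℝ) ≠ 0 := by positivity
    have hn1 : (n : ℝ) + 1 ≠ 0 := by positivity
    rcases n with _ | n
    · simp
    · rw [if_neg (Nat.succ_ne_zero n), Nat.add_sub_cancel]
      have hf' : (n.factorial : ℝ) ≠ 0 := by positivity
      have hn : (n : ℝ) + 1 ≠ 0 := by positivity
      rw [Nat.factorial_succ] at hf ⊢
      push_cast at hn1 hf ⊢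
      field_simp
      try ring
  rw [sum_congr rfl fun n _ => e1 n, sum_add_distrib, sum_add_distrib]
  have s1 : ∑ n ∈ range (K + 1), (1 / ((n + 1).factorial : ℝ)) * PA σ N h t (n + 1) =
      ∑ q ∈ range K, (1 / (q.factorial : ℝ)) * PA σ N h t q := by
    have := sum_range_succ' (fun q => (1 / (q.factorial : ℝ)) * PA σ N h t q) (K + 1)
    rw [z0, mul_zero, add_zero] at this
    rw [← this, sum_range_succ, sum_range_succ, z1 (K + 1) (by omega), z1 K le_rfl]
    simp
  have s2 : ∑ n ∈ range (K + 1), (1 / (n.factorial : ℝ)) * PB σ N h t n =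
      ∑ q ∈ range K, (1 / (q.factorial : ℝ)) * PB σ N h t q := by
    rw [sum_range_succ, z2 K le_rfl]
    simp
  have s3 : ∑ n ∈ range (K + 1), (if n = 0 then 0 else
      (1 / ((n - 1).factorial : ℝ)) * PC σ N h t (n - 1)) =
      ∑ q ∈ range K, (1 / (q.factorial : ℝ)) * PC σ N h t q := by
    rw [sum_range_succ']
    simp
  rw [s1, s2, s3, ← sum_add_distrib, ← sum_add_distrib]
  refine sum_congr rfl fun q _ => ?_
  ring

end

end Pool.Agent.Helper47.KP
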