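import Pool.Agent.Helper47.KP.Geg

/-!
The law of the inner product with a fixed unit vector: it has density proportional to
`(1-t²)^((d-3)/2)` on `[-1,1]`.
-/

set_option autoImplicit false

open MeasureTheory Set Metric Polynomial
open scoped RealInnerProductSpace ENNReal

namespace Pool.Agent.Helper47.KP

variable {d : ℕ}

/-- Two finite measures on `[-1,1]` with the same moments are equal. -/
lemma ext_moments {μ ν : Measure ℝ} [IsFiniteMeasure μ] [IsFiniteMeasure ν]
    (hμ : ∀ᵐ t ∂μ, t ∈ Icc (-1 : ℝ) 1) (hν : ∀ᵐ t ∂ν, t ∈ Icc (-1 : ℝ) 1)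
    (h : ∀ p : ℝ[X], ∫ t, p.eval t ∂μ = ∫ t, p.eval t ∂ν) : μ = ν := by
  have hint : ∀ (κ : Measure ℝ) [IsFiniteMeasure κ], (∀ᵐ t ∂κ, t ∈ Icc (-1 : ℝ) 1) →
      ∀ p : ℝ[X], Integrable (fun t => p.eval t) κ := by
    intro κ _ hκ p
    obtain ⟨C, hC⟩ := (isCompact_Icc (a := (-1 : ℝ)) (b := 1)).image p.continuous |>.isBounded.exists_norm_le
    refine Integrable.of_bound p.continuous.aestronglyMeasurable C ?_
    filter_upwards [hκ] with t ht
    exact hC _ ⟨t, ht, rfl⟩
  apply ext_of_forall_integral_eq_of_IsFiniteMeasure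
  intro f
  have key : ∀ η : ℝ, 0 < η → |∫ t, f t ∂μ - ∫ t, f t ∂ν| ≤ η * (μ.real univ + ν.real univ) := by
    intro η hη
    obtain ⟨p, hp⟩ := exists_polynomial_near_of_continuousOn (-1) 1 f f.continuous.continuousOn η hη
    have hk : ∀ (κ : Measure ℝ) [IsFiniteMeasure κ], (∀ᵐ t ∂κ, t ∈ Icc (-1 : ℝ) 1) →
        |∫ t, f t ∂κ - ∫ t, p.eval t ∂κ| ≤ η * κ.real univ := by
      intro κ _ hκ
      rw [← integral_sub (f.integrable κ) (hint κ hκ p), ← Real.norm_eq_abs]
      apply norm_integral_le_of_norm_le_const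
      filter_upwards [hκ] with t ht
      rw [Real.norm_eq_abs, abs_sub_comm]
      exact (hp t ht).le
    have h1 := hk μ hμ
    have h2 := hk ν hν
    have h3 := h p
    rw [h3] at h1
    have : ∫ t, f t ∂μ - ∫ t, f t ∂ν = (∫ t, f t ∂μ - ∫ t, p.eval t ∂ν) -
        (∫ t, f t ∂ν - ∫ t, p.eval t ∂ν) := by ring
    rw [this]
    refine (abs_sub _ _).trans ?_
    linarith
  by_contra hne
  have hpos : 0 < |∫ t, f t ∂μ - ∫ t, f t ∂ν| := abs_pos.2 (sub_ne_zero.2 hne)
  set M := μ.real univ + ν.real univ
  have hM : 0 ≤ M := by positivity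
  have h1 := key (|∫ t, f t ∂μ - ∫ t, f t ∂ν| / (2 * (M + 1))) (by positivity)
  rw [div_mul_eq_mul_div, le_div_iff₀ (by positivity)] at h1
  nlinarith

/-- linear functionals killed by the Gegenbauer operator are unique -/
lemma functional_unique (hd : 3 ≤ d) (E F : ℝ[X] →ₗ[ℝ] ℝ) (hE1 : E 1 = 1) (hF1 : F 1 = 1)
    (hE : ∀ q, E (Lop d q) = 0) (hF : ∀ q, F (Lop d q) = 0) : E = F := by
  have hd' : (3 : ℝ) ≤ d := by exact_mod_cast hd
  -- the moment recursion
  have hrec : ∀ G : ℝ[X] →ₗ[ℝ] ℝ, (∀ q, G (Lop d q) = 0) → G X = 0 ∧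
      ∀ a : ℕ, ((a : ℝ) + d) * G (X ^ (a + 2)) = (a + 1) * G (X ^ a) := by
    intro G hG
    constructor
    · have h1 := hG X
      have h2 : Lop d (X : ℝ[X]) = (-((d : ℝ) - 1)) • X := by
        simp only [Lop, derivative_X, derivative_one, mul_zero, mul_one, zero_sub]
        rw [smul_eq_C_mul]; simp; ring
      rw [h2, map_smul, smul_eq_mul] at h1
      rcases mul_eq_zero.1 h1 with h3 | h3
      · linarith
      · exact h3
    · intro a
      have h1 := hG (X ^ (a + 2))
      have h2 : Lop d (X ^ (a + 2) : ℝ[X]) =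
          (((a : ℝ) + 2) * (a + 1)) • X ^ a - (((a : ℝ) + 2) * (a + d)) • X ^ (a + 2) := by
        simp only [Lop, derivative_X_pow, derivative_mul, derivative_C, smul_eq_C_mul]
        have e1 : (a + 2 - 1 : ℕ) = a + 1 := by omega
        have e2 : (a + 1 - 1 : ℕ) = a := by omega
        rw [e1]
        simp only [derivative_X_pow, e2]
        push_cast
        simp only [map_add, map_mul, map_sub, map_one, map_natCast, map_ofNat]
        ring
      rw [h2, map_sub, map_smul, map_smul, smul_eq_mul, smul_eq_mul] at h1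
      have ha : (0 : ℝ) ≤ a := Nat.cast_nonneg a
      have h3 : ((a : ℝ) + 2) ≠ 0 := by positivity
      apply mul_left_cancel₀ h3
      linarith
  have hX : ∀ a : ℕ, E (X ^ a) = F (X ^ a) := by
    intro a
    induction a using Nat.strong_induction_on with
    | _ a ih =>
      rcases a with _ | _ | a
      · simpa using hE1.trans hF1.symm
      · simp [(hrec E hE).1, (hrec F hF).1]
      · have h1 := (hrec E hE).2 a
        have h2 := (hrec F hF).2 a
        rw [ih a (by omega), ← h2] at h1
        have ha : (0 : ℝ) ≤ a := Nat.cast_nonneg a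
        have h3 : ((a : ℝ) + d) ≠ 0 := by
          have : 0 < (a : ℝ) + d := by linarith
          exact this.ne'
        exact mul_left_cancel₀ h3 h1
  apply LinearMap.ext
  intro p
  induction p using Polynomial.induction_on' with
  | add p q hp hq => rw [map_add, map_add, hp, hq]
  | monomial n a =>
    rw [← C_mul_X_pow_eq_monomial, ← smul_eq_C_mul, map_smul, map_smul, hX]

/-- the weight `(1-t²)^(D/2)` -/
noncomputable def wt (D : ℕ) (t : ℝ) : ℝ := Real.sqrt (1 - t ^ 2) ^ D

lemma continuous_wt (D : ℕ) : Continuous (wt D) := by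
  unfold wt; fun_prop

lemma wt_nonneg (D : ℕ) (t : ℝ) : 0 ≤ wt D t := by unfold wt; positivity

lemma wt_le_one (D : ℕ) (t : ℝ) : wt D t ≤ 1 := by
  unfold wt
  apply pow_le_one₀ (Real.sqrt_nonneg _)
  rw [Real.sqrt_le_one]
  nlinarith [sq_nonneg t]

lemma integral_wt_pos (D : ℕ) : 0 < ∫ t in (-1 : ℝ)..1, wt D t := by
  apply intervalIntegral.intervalIntegral_pos_of_pos_on
  · exact (continuous_wt D).intervalIntegrable _ _
  · intro t ht
    unfold wt
    have : 0 < 1 - t ^ 2 := by nlinarith [ht.1, ht.2]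
    positivity
  · norm_num

/-- integration by parts for the weight -/
lemma integral_Lop_wt (hd : 3 ≤ d) (q : ℝ[X]) :
    ∫ t in (-1 : ℝ)..1, (Lop d q).eval t * wt (d - 3) t = 0 := by
  have hc : ((d - 3 : ℕ) : ℝ) = (d : ℝ) - 3 := by rw [Nat.cast_sub hd]; norm_num
  set D := d - 3 with hD
  have h := intervalIntegral.integral_eq_sub_of_hasDerivAt_of_le (a := (-1 : ℝ)) (b := 1)
    (f := fun t => (derivative q).eval t * Real.sqrt (1 - t ^ 2) ^ (D + 2))
    (f' := fun t => (Lop d q).eval t * wt D t) (by norm_num)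
    (by
      apply Continuous.continuousOn
      have := (derivative q).continuous
      fun_prop)
    (by
      intro t ht
      have hpos : 0 < 1 - t ^ 2 := by nlinarith [ht.1, ht.2]
      have h1 : HasDerivAt (fun t : ℝ => 1 - t ^ 2) (-(2 * t)) t := by
        have := (hasDerivAt_pow 2 t).const_sub 1
        simpa using this
      have h2 := (h1.sqrt hpos.ne').pow (D + 2)
      have h3 := ((derivative q).hasDerivAt t).mul h2
      refine h3.congr_deriv ?_
      rw [Lop_eval]
      unfold wt
      simp only [Pi.pow_apply]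
      have hs : Real.sqrt (1 - t ^ 2) ≠ 0 := (Real.sqrt_pos.2 hpos).ne'
      have hs2 : Real.sqrt (1 - t ^ 2) ^ 2 = 1 - t ^ 2 := Real.sq_sqrt hpos.le
      have e : D + 2 - 1 = D + 1 := by omega
      rw [e]
      push_cast
      rw [hc]
      have e3 : Real.sqrt (1 - t ^ 2) ^ (D + 2) = (1 - t ^ 2) * Real.sqrt (1 - t ^ 2) ^ D := by
        rw [pow_add, hs2]; ring
      have e4 : Real.sqrt (1 - t ^ 2) ^ (D + 1) = Real.sqrt (1 - t ^ 2) * Real.sqrt (1 - t ^ 2) ^ D := by
        rw [pow_add]; ring
      rw [e3, e4]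
      field_simp
      ring)
    (by
      apply Continuous.intervalIntegrable
      exact (Lop d q).continuous.mul (continuous_wt D))
  rw [h]
  norm_num

/-- the normalising constant -/
noncomputable def cst (d : ℕ) : ℝ := (∫ t in (-1 : ℝ)..1, wt (d - 3) t)⁻¹

lemma cst_pos (d : ℕ) : 0 < cst d := inv_pos.2 (integral_wt_pos _)

/-- the zonal law -/
noncomputable def den (d : ℕ) : Measure ℝ :=
  (volume.restrict (Ioc (-1 : ℝ) 1)).withDensity
    (fun t => ((Real.toNNReal (cst d * wt (d - 3) t) : NNReal) : ℝ≥0∞))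

lemma integral_den (f : ℝ → ℝ) :
    ∫ t, f t ∂(den d) = cst d * ∫ t in (-1 : ℝ)..1, f t * wt (d - 3) t := by
  unfold den
  rw [integral_withDensity_eq_integral_smul]
  · rw [intervalIntegral.integral_of_le (by norm_num), ← integral_const_mul]
    congr 1
    funext t
    rw [NNReal.smul_def, smul_eq_mul, Real.coe_toNNReal _
      (mul_nonneg (cst_pos d).le (wt_nonneg _ _))]
    ring
  · exact (continuous_const.mul (continuous_wt _)).measurable.real_toNNReal

instance den_finite : IsFiniteMeasure (den d) := by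
  unfold den
  apply isFiniteMeasure_withDensity
  have h : ∫⁻ t in Ioc (-1 : ℝ) 1, ((Real.toNNReal (cst d * wt (d - 3) t) : NNReal) : ℝ≥0∞) ≤
      ∫⁻ _t in Ioc (-1 : ℝ) 1, ENNReal.ofReal (cst d) := by
    apply lintegral_mono
    intro t
    show ENNReal.ofReal _ ≤ _
    apply ENNReal.ofReal_le_ofReal
    have := wt_le_one (d - 3) t
    have h2 := cst_pos d
    nlinarith
  refine ne_top_of_le_ne_top ?_ h
  simp
  exact ENNReal.mul_ne_top ENNReal.ofReal_ne_top (by norm_num)

lemma den_supp : ∀ᵐ t ∂(den d), t ∈ Icc (-1 : ℝ) 1 := by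
  have h1 : ∀ᵐ t ∂(volume.restrict (Ioc (-1 : ℝ) 1)), t ∈ Icc (-1 : ℝ) 1 := by
    filter_upwards [ae_restrict_mem measurableSet_Ioc] with t ht
    exact ⟨ht.1.le, ht.2⟩
  exact (withDensity_absolutelyContinuous _ _).ae_le h1

lemma abs_inner_le (x z : Sph d) : ⟪(x : EE d), z⟫ ∈ Icc (-1 : ℝ) 1 := by
  have := abs_real_inner_le_norm (x : EE d) z
  rw [norm_S, norm_S, one_mul] at this
  exact ⟨(abs_le.1 this).1, (abs_le.1 this).2⟩

lemma continuous_inner_S (x : EE d) : Continuous (fun z : Sph d => ⟪x, (z : EE d)⟫) := by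
  have : Continuous (fun z : EE d => ⟪x, z⟫) := by fun_prop
  exact this.comp continuous_subtype_val

/-- the law of the inner product -/
theorem map_inner [NeZero d] (hd : 3 ≤ d) (x : Sph d) :
    (sig d).map (fun z : Sph d => ⟪(x : EE d), (z : EE d)⟫) = den d := by
  have hm := (continuous_inner_S (x : EE d)).measurable
  have : IsFiniteMeasure ((sig d).map (fun z : Sph d => ⟪(x : EE d), (z : EE d)⟫)) :=
    Measure.isFiniteMeasure_map _ _
  apply ext_moments
  · exact (ae_map_iff (p := fun t => t ∈ Icc (-1 : ℝ) 1) hm.aemeasurable measurableSet_Icc).2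
      (Filter.Eventually.of_forall fun z => abs_inner_le x z)
  · exact den_supp
  · intro p
    rw [integral_map hm.aemeasurable p.continuous.aestronglyMeasurable]
    have hint : ∀ p : ℝ[X], IntervalIntegrable (fun t => p.eval t * wt (d - 3) t) volume (-1) 1 :=
      fun p => (p.continuous.mul (continuous_wt _)).intervalIntegrable _ _
    let E : ℝ[X] →ₗ[ℝ] ℝ :=
      { toFun := zon x
        map_add' := fun p q => zon_add x p q
        map_smul' := fun c p => by
          rw [smul_eq_C_mul, zon_C_mul]; rfl }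
    let F : ℝ[X] →ₗ[ℝ] ℝ :=
      { toFun := fun p => cst d * ∫ t in (-1 : ℝ)..1, p.eval t * wt (d - 3) t
        map_add' := fun p q => by
          rw [← mul_add, ← intervalIntegral.integral_add (hint p) (hint q)]
          congr 2; funext t; rw [eval_add]; ring
        map_smul' := fun c p => by
          simp only [RingHom.id_apply, smul_eq_mul, eval_smul]
          have h1 : ∫ t in (-1 : ℝ)..1, c * eval t p * wt (d - 3) t =
              c * ∫ t in (-1 : ℝ)..1, eval t p * wt (d - 3) t := by
            rw [← intervalIntegral.integral_const_mul]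
            congr 1; funext t; ring
          rw [h1]; ring }
    have hEF : E = F := by
      apply functional_unique hd
      · exact zon_one x
      · show cst d * ∫ t in (-1 : ℝ)..1, (1 : ℝ[X]).eval t * wt (d - 3) t = 1
        simp only [eval_one, one_mul]
        unfold cst
        exact inv_mul_cancel₀ (integral_wt_pos _).ne'
      · intro q
        have h := green 1 q x x
        simp only [derivative_one, eval_zero, zero_mul, eval_one, one_mul, integral_zero,
          neg_zero] at h
        exact h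
      · intro q
        show cst d * _ = 0
        rw [integral_Lop_wt hd, mul_zero]
    have h2 := congrArg (fun G => G p) hEF
    rw [integral_den]
    exact h2

/-- integrals of zonal functions -/
theorem integral_zonal [NeZero d] (hd : 3 ≤ d) (x : Sph d) {f : ℝ → ℝ} (hf : Measurable f) :
    ∫ z : Sph d, f ⟪(x : EE d), z⟫ ∂(sig d) = cst d * ∫ t in (-1 : ℝ)..1, f t * wt (d - 3) t := by
  rw [← integral_den, ← map_inner hd x,
    integral_map (continuous_inner_S _).measurable.aemeasurable hf.aestronglyMeasurable]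

end Pool.Agent.Helper47.KP
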