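import Pool.Agent.Helper47.KP.Ident
import Pool.Agent.Helper47.KP.Defs
import Pool.Agent.Helper47.KP.Disc

/-!
The lower bound for the `k`-point bound, for a given density.
-/

set_option autoImplicit false

open MeasureTheory Finset
open scoped RealInnerProductSpace

namespace Pool.Agent.Helper47.KP

variable {d : ℕ}

/-- Finite sets of points of the sphere with pairwise inner products at most `1/2`. -/
def Separated (S : Finset (Sph d)) : Prop :=
  ∀ x ∈ S, ∀ y ∈ S, x ≠ y → ⟪(x : EE d), (y : EE d)⟫ ≤ 1 / 2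

/-- separated tuples -/
def SepT {q : ℕ} (w : Fin q → Sph d) : Prop :=
  ∀ a b, a ≠ b → ⟪(w a : EE d), (w b : EE d)⟫ ≤ 1 / 2

open Classical in
/-- feasible solutions of the `k`-point semidefinite program -/
structure IsFeasible (d k : ℕ) (T : Finset (Sph d) → Sph d → Sph d → ℝ) (lam : ℝ) : Prop where
  cont : ∀ q, q + 2 ≤ k → ContinuousOn
    (fun p : (Fin q → Sph d) × Sph d × Sph d => T (univ.image p.1) p.2.1 p.2.2)
    {p | SepT p.1}
  symm : ∀ Q, Q.card + 2 ≤ k → Separated Q → ∀ x y, T Q x y = T Q y x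
  psd : ∀ Q, Q.card + 2 ≤ k → Separated Q → ∀ (n : ℕ) (x : Fin n → Sph d) (c : Fin n → ℝ),
    0 ≤ ∑ i, ∑ j, c i * c j * T Q (x i) (x j)
  le : ∀ S : Finset (Sph d), S.Nonempty → S.card ≤ k → Separated S →
    BB k T S ≤ (if S.card = 1 then lam else 0) - (if S.card = 2 then 2 else 0)

lemma SepT.injective {q : ℕ} {w : Fin q → Sph d} (h : SepT w) : Function.Injective w := by
  intro a b hab
  by_contra hne
  have := h a b hne
  rw [hab, inner_self_S] at this
  norm_num at this

open Classical in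
lemma SepT.separated {q : ℕ} {w : Fin q → Sph d} (h : SepT w) : Separated (univ.image w) := by
  intro x hx y hy hxy
  simp only [mem_image, mem_univ, true_and] at hx hy
  obtain ⟨a, rfl⟩ := hx
  obtain ⟨b, rfl⟩ := hy
  exact h a b (fun hab => hxy (by rw [hab]))

open Classical in
lemma SepT.card {q : ℕ} {w : Fin q → Sph d} (h : SepT w) : (univ.image w).card = q := by
  rw [card_image_of_injective _ h.injective, card_univ, Fintype.card_fin]

open Classical in
/-- the kernels extended by zero -/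
noncomputable def tk (k : ℕ) (T : Finset (Sph d) → Sph d → Sph d → ℝ) (q : ℕ) (w : Fin q → Sph d)
    (x y : Sph d) : ℝ :=
  if q + 2 ≤ k ∧ SepT w then T (univ.image w) x y else 0

lemma isClosed_SepT {Y : Type} [TopologicalSpace Y] (q : ℕ) {f : Y → Fin q → Sph d}
    (hf : Continuous f) : IsClosed {p : Y | SepT (f p)} := by
  have : {p : Y | SepT (f p)} = ⋂ a, ⋂ b, ⋂ (_ : a ≠ b),
      {p : Y | ⟪(f p a : EE d), (f p b : EE d)⟫ ≤ 1 / 2} := by
    ext p
    simp [SepT]
  rw [this]
  refine isClosed_iInter fun a => isClosed_iInter fun b => isClosed_iInter fun _ => ?_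
  have h1 : ∀ a, Continuous (fun p : Y => (f p a : EE d)) := fun a =>
    continuous_subtype_val.comp ((continuous_apply a).comp hf)
  exact isClosed_le ((h1 a).inner (h1 b)) continuous_const

lemma Bd_tk {k : ℕ} {T : Finset (Sph d) → Sph d → Sph d → ℝ} {lam : ℝ}
    (hf : IsFeasible d k T lam) (q : ℕ) :
    Bd (fun p : (Fin q → Sph d) × Sph d × Sph d => tk k T q p.1 p.2.1 p.2.2) := by
  classical
  by_cases hq : q + 2 ≤ k
  · set s : Set ((Fin q → Sph d) × Sph d × Sph d) := {p | SepT p.1} with hsdef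
    have hs : IsClosed s := isClosed_SepT q continuous_fst
    have hc : ContinuousOn
      (fun p : (Fin q → Sph d) × Sph d × Sph d => T (univ.image p.1) p.2.1 p.2.2) s := by
      convert hf.cont q hq
    have e : (fun p : (Fin q → Sph d) × Sph d × Sph d => tk k T q p.1 p.2.1 p.2.2) =
        s.piecewise (fun p => T (univ.image p.1) p.2.1 p.2.2) (fun _ => 0) := by
      funext p
      by_cases hp : SepT p.1
      · rw [Set.piecewise_eq_of_mem _ _ _ (show p ∈ s from hp), tk, if_pos ⟨hq, hp⟩]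
      · rw [Set.piecewise_eq_of_notMem _ _ _ (show p ∉ s from hp), tk,
          if_neg (fun h => hp h.2)]
    constructor
    · rw [e]
      exact hc.measurable_piecewise continuousOn_const hs.measurableSet
    · obtain ⟨C, hC⟩ := hs.isCompact.exists_bound_of_continuousOn hc
      refine ⟨max C 0, fun p => ?_⟩
      by_cases hp : SepT p.1
      · rw [tk, if_pos ⟨hq, hp⟩]
        exact (hC p hp).trans (le_max_left _ _)
      · rw [tk, if_neg (fun h => hp h.2), abs_zero]
        exact le_max_right _ _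
  · have : ∀ p : (Fin q → Sph d) × Sph d × Sph d, tk k T q p.1 p.2.1 p.2.2 = 0 := by
      intro p
      rw [tk, if_neg (fun h => hq h.1)]
    simp only [this]
    exact Bd.const 0

lemma tk_symm {k : ℕ} {T : Finset (Sph d) → Sph d → Sph d → ℝ} {lam : ℝ}
    (hf : IsFeasible d k T lam) (q : ℕ) (w : Fin q → Sph d) (x y : Sph d) :
    tk k T q w x y = tk k T q w y x := by
  classical
  unfold tk
  split_ifs with h
  · exact hf.symm _ (by rw [h.2.card]; exact h.1) h.2.separated x y
  · rfl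

/-- the square root weight -/
noncomputable def hg (g : ℝ → ℝ) (x y : Sph d) : ℝ := Real.sqrt (g ⟪(x : EE d), (y : EE d)⟫)

lemma hg_mul {g : ℝ → ℝ} (h0 : ∀ t, 0 ≤ g t) (x y : Sph d) :
    hg g x y * hg g y x = g ⟪(x : EE d), (y : EE d)⟫ := by
  unfold hg
  rw [real_inner_comm (x : EE d) (y : EE d)]
  exact Real.mul_self_sqrt (h0 _)

lemma Bd_hg {g : ℝ → ℝ} (hm : Measurable g) {G : ℝ} (h1 : ∀ t, g t ≤ G) :
    Bd (fun p : Sph d × Sph d => hg g p.1 p.2) := by
  constructor
  · unfold hg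
    exact Real.continuous_sqrt.measurable.comp (hm.comp continuous_inner2.measurable)
  · refine ⟨Real.sqrt G, fun p => ?_⟩
    unfold hg
    rw [abs_of_nonneg (Real.sqrt_nonneg _)]
    exact Real.sqrt_le_sqrt (h1 _)

lemma rho_nonneg {N : ℝ} (hN : 0 ≤ N) (g : ℝ → ℝ) {m : ℕ} (z : Fin m → Sph d) :
    0 ≤ rho N (hg g) z := by
  unfold rho
  refine mul_nonneg (pow_nonneg hN _) (prod_nonneg fun a _ => prod_nonneg fun b _ => ?_)
  split_ifs
  · exact zero_le_one
  · exact Real.sqrt_nonneg _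

lemma rho_eq_zero (N : ℝ) {g : ℝ → ℝ} (hz : ∀ t, 1 / 2 < t → g t = 0) {m : ℕ}
    {z : Fin m → Sph d} (h : ¬ SepT z) : rho N (hg g) z = 0 := by
  unfold SepT at h
  push Not at h
  obtain ⟨a, b, hab, hlt⟩ := h
  unfold rho
  rw [prod_eq_zero (mem_univ a), mul_zero]
  apply prod_eq_zero (mem_univ b)
  rw [if_neg hab, hg, hz _ hlt, Real.sqrt_zero]

lemma bz_bounds {N : ℝ} (hN : 0 ≤ N) {g : ℝ → ℝ} (h0 : ∀ t, 0 ≤ g t) {r : ℝ}
    (h1 : ∀ t, g t ≤ 1 + r) (hr : 0 ≤ r) {q K : ℕ} (hq : q ≤ K) (v : Fin q → Sph d) (x : Sph d) :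
    0 ≤ bz N (hg g) v x ∧ bz N (hg g) v x ≤ N * (1 + r) ^ K := by
  unfold bz
  simp only [hg_mul h0]
  constructor
  · exact mul_nonneg hN (prod_nonneg fun c _ => h0 _)
  · apply mul_le_mul_of_nonneg_left _ hN
    calc ∏ c, g ⟪(x : EE d), (v c : EE d)⟫ ≤ ∏ _c : Fin q, (1 + r) :=
          prod_le_prod (fun c _ => h0 _) fun c _ => h1 _
      _ = (1 + r) ^ q := by simp
      _ ≤ (1 + r) ^ K := pow_le_pow_right₀ (by linarith) hq

open Classical in
lemma BB_eq_XB {k n : ℕ} (T : Finset (Sph d) → Sph d → Sph d → ℝ) {z : Fin (n + 1) → Sph d}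
    (hz : SepT z) : BB k T (univ.image z) = XB (tk k T) n z := by
  have ht : ∀ (q : ℕ) (f : Fin q → Fin (n + 1)), Function.Injective f → ∀ x y,
      tk k T q (fun c => z (f c)) x y =
        if q + 2 ≤ k then T (univ.image fun c => z (f c)) x y else 0 := by
    intro q f hf x y
    have h1 : SepT (fun c => z (f c)) := fun a b hab => hz _ _ (fun h => hab (hf h))
    unfold tk
    simp only [h1, and_true]
  rw [BB_succ k T (tk k T) z hz.injective ht]
  unfold XB
  congr 1
  rcases n with _ | n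
  · simp [P3]
  · unfold P3
    refine sum_congr rfl fun a _ => sum_congr rfl fun c _ => ?_
    exact tJ_pair k T (tk k T) z ht a c

end Pool.Agent.Helper47.KP
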