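import Pool.Agent.Helper47.KP.FH

/-!
The operator inequality for zonal kernels.
-/

set_option autoImplicit false

open MeasureTheory Set Metric Polynomial
open scoped RealInnerProductSpace ENNReal

namespace Pool.Agent.Helper47.KP

variable {d : ℕ}

/-- bounded measurable functions -/
structure BM (φ : Sph d → ℝ) (B : ℝ) : Prop where
  meas : Measurable φ
  bd : ∀ x, |φ x| ≤ B

lemma BM.nonneg {φ : Sph d → ℝ} {B : ℝ} (h : BM φ B) (x : Sph d) : 0 ≤ B :=
  (abs_nonneg _).trans (h.bd x)

lemma BM.integrable [NeZero d] {φ : Sph d → ℝ} {B : ℝ} (h : BM φ B) : Integrable φ (sig d) :=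
  Integrable.of_bound h.meas.aestronglyMeasurable B
    (Filter.Eventually.of_forall fun x => by rw [Real.norm_eq_abs]; exact h.bd x)

lemma integrable_prod_of_bound [NeZero d] {F : Sph d × Sph d → ℝ} (hF : Measurable F) {C : ℝ}
    (hC : ∀ p, |F p| ≤ C) : Integrable F ((sig d).prod (sig d)) :=
  Integrable.of_bound hF.aestronglyMeasurable C
    (Filter.Eventually.of_forall fun x => by rw [Real.norm_eq_abs]; exact hC x)

lemma exists_bound_eval (p : ℝ[X]) : ∃ C : ℝ, 0 ≤ C ∧ ∀ x z : Sph d, |p.eval ⟪(x : EE d), z⟫| ≤ C := by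
  obtain ⟨C, hC⟩ := (isCompact_Icc (a := (-1 : ℝ)) (b := 1)).image p.continuous
    |>.isBounded.exists_norm_le
  refine ⟨max C 0, le_max_right _ _, fun x z => ?_⟩
  exact (hC _ ⟨_, abs_inner_le x z, rfl⟩).trans (le_max_left _ _)

/-- zonal transform -/
noncomputable def TT (p : ℝ[X]) (φ : Sph d → ℝ) (z : Sph d) : ℝ :=
  ∫ x : Sph d, φ x * p.eval ⟪(x : EE d), z⟫ ∂(sig d)

lemma continuous_TT [NeZero d] (p : ℝ[X]) {φ : Sph d → ℝ} {B : ℝ} (h : BM φ B) :
    Continuous (TT p φ) := by
  obtain ⟨C, hC0, hC⟩ := exists_bound_eval (d := d) p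
  have hcl : ∀ z : Sph d, Continuous (fun x : Sph d => p.eval ⟪(x : EE d), (z : EE d)⟫) := by
    intro z
    exact p.continuous.comp (continuous_inner2.comp (Continuous.prodMk_left z))
  apply continuous_of_dominated (bound := fun _ => B * C)
  · intro z
    exact (h.meas.mul (hcl z).measurable).aestronglyMeasurable
  · intro z
    refine Filter.Eventually.of_forall fun x => ?_
    rw [Real.norm_eq_abs, abs_mul]
    exact mul_le_mul (h.bd x) (hC x z) (abs_nonneg _) (h.nonneg x)
  · exact integrable_const _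
  · refine Filter.Eventually.of_forall fun x => ?_
    exact continuous_const.mul (continuous_eval p _)

lemma BM_TT [NeZero d] (p : ℝ[X]) {φ : Sph d → ℝ} {B : ℝ} (h : BM φ B) : ∃ C, BM (TT p φ) C := by
  have hc := continuous_TT p h
  obtain ⟨C, hC⟩ := (isCompact_range hc).isBounded.exists_norm_le
  exact ⟨C, hc.measurable, fun x => hC _ ⟨x, rfl⟩⟩

lemma TT_inner [NeZero d] (p q : ℝ[X]) {φ : Sph d → ℝ} {B : ℝ} (h : BM φ B) :
    ∫ z : Sph d, TT p φ z * TT q φ z ∂(sig d) =
      ∫ x : Sph d, φ x * ∫ y : Sph d, φ y * ∫ z : Sph d, p.eval ⟪(x : EE d), z⟫ *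
        q.eval ⟪(y : EE d), z⟫ ∂(sig d) ∂(sig d) ∂(sig d) := by
  obtain ⟨C, hC0, hC⟩ := exists_bound_eval (d := d) p
  obtain ⟨C', hC0', hC'⟩ := exists_bound_eval (d := d) q
  obtain ⟨A, hA⟩ := BM_TT q h
  have hm1 : Measurable (fun w : Sph d × Sph d => p.eval ⟪(w.2 : EE d), (w.1 : EE d)⟫) :=
    (p.continuous.comp (continuous_inner2.comp continuous_swap)).measurable
  have hm2 : Measurable (fun w : Sph d × Sph d => q.eval ⟪(w.2 : EE d), (w.1 : EE d)⟫) :=
    (q.continuous.comp (continuous_inner2.comp continuous_swap)).measurable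
  have h1 : ∫ z : Sph d, TT p φ z * TT q φ z ∂(sig d) =
      ∫ z : Sph d, ∫ x : Sph d, φ x * p.eval ⟪(x : EE d), z⟫ * TT q φ z ∂(sig d) ∂(sig d) := by
    congr 1; funext z
    rw [integral_mul_const]; rfl
  rw [h1, integral_integral_swap]
  swap
  · apply integrable_prod_of_bound (C := B * C * A)
    · exact ((h.meas.comp measurable_snd).mul hm1).mul (hA.meas.comp measurable_fst)
    · intro w
      show |φ w.2 * p.eval ⟪(w.2 : EE d), (w.1 : EE d)⟫ * TT q φ w.1| ≤ _
      rw [abs_mul, abs_mul]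
      have b0 := h.nonneg w.1
      have a0 := hA.nonneg w.1
      exact mul_le_mul (mul_le_mul (h.bd _) (hC _ _) (abs_nonneg _) b0) (hA.bd _) (abs_nonneg _)
        (by positivity)
  congr 1; funext x
  have h2 : ∫ z : Sph d, φ x * p.eval ⟪(x : EE d), z⟫ * TT q φ z ∂(sig d) =
      φ x * ∫ z : Sph d, ∫ y : Sph d, φ y * (p.eval ⟪(x : EE d), z⟫ * q.eval ⟪(y : EE d), z⟫)
        ∂(sig d) ∂(sig d) := by
    rw [← integral_const_mul]
    congr 1; funext z
    have h3 : p.eval ⟪(x : EE d), z⟫ * TT q φ z = ∫ y : Sph d, φ y *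
        (p.eval ⟪(x : EE d), z⟫ * q.eval ⟪(y : EE d), z⟫) ∂(sig d) := by
      unfold TT
      rw [← integral_const_mul]
      congr 1; funext y; ring
    rw [← h3]; ring
  rw [h2, integral_integral_swap]
  swap
  · apply integrable_prod_of_bound (C := B * (C * C'))
    · have hm3 : Measurable (fun w : Sph d × Sph d => p.eval ⟪(x : EE d), (w.1 : EE d)⟫) :=
        ((continuous_eval p (x : EE d)).comp continuous_fst).measurable
      exact (h.meas.comp measurable_snd).mul (hm3.mul hm2)
    · intro w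
      show |φ w.2 * (p.eval ⟪(x : EE d), (w.1 : EE d)⟫ * q.eval ⟪(w.2 : EE d), (w.1 : EE d)⟫)| ≤ _
      rw [abs_mul, abs_mul]
      have b0 := h.nonneg w.1
      exact mul_le_mul (h.bd _) (mul_le_mul (hC _ _) (hC' _ _) (abs_nonneg _) hC0)
        (by positivity) b0
  congr 2; funext y
  rw [integral_const_mul]

/-- the quadratic form of a zonal kernel -/
noncomputable def QF (p : ℝ → ℝ) (φ : Sph d → ℝ) : ℝ :=
  ∫ x : Sph d, φ x * ∫ y : Sph d, φ y * p ⟪(x : EE d), y⟫ ∂(sig d) ∂(sig d)

lemma QF_eq_TT (p : ℝ[X]) (φ : Sph d → ℝ) :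
    QF (fun t => p.eval t) φ = ∫ x : Sph d, φ x * TT p φ x ∂(sig d) := by
  unfold QF TT
  congr 1; funext x
  congr 2; funext y
  rw [real_inner_comm]

lemma TT_inner_ne [NeZero d] (hd : 3 ≤ d) {i j : ℕ} (hij : i ≠ j) {φ : Sph d → ℝ} {B : ℝ}
    (h : BM φ B) : ∫ z : Sph d, TT (PP d i) φ z * TT (PP d j) φ z ∂(sig d) = 0 := by
  rw [TT_inner _ _ h]
  have : ∀ x y : Sph d, ∫ z : Sph d, (PP d i).eval ⟪(x : EE d), z⟫ *
      (PP d j).eval ⟪(y : EE d), z⟫ ∂(sig d) = 0 := fun x y => PP_orth hd hij x y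
  simp [this]

lemma TT_inner_eq [NeZero d] (hd : 3 ≤ d) (j : ℕ) {φ : Sph d → ℝ} {B : ℝ}
    (h : BM φ B) : ∫ z : Sph d, TT (PP d j) φ z * TT (PP d j) φ z ∂(sig d) =
      nrm d j * QF (fun t => (PP d j).eval t) φ := by
  rw [TT_inner _ _ h]
  unfold QF
  rw [← integral_const_mul]
  congr 1; funext x
  have : ∀ y : Sph d, ∫ z : Sph d, (PP d j).eval ⟪(x : EE d), z⟫ *
      (PP d j).eval ⟪(y : EE d), z⟫ ∂(sig d) = nrm d j * (PP d j).eval ⟪(x : EE d), y⟫ :=
    fun y => conv_eq hd j x y
  simp only [this]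
  have h3 : ∫ y : Sph d, φ y * (nrm d j * (PP d j).eval ⟪(x : EE d), y⟫) ∂(sig d) =
      nrm d j * ∫ y : Sph d, φ y * (PP d j).eval ⟪(x : EE d), y⟫ ∂(sig d) := by
    rw [← integral_const_mul]
    congr 1; funext y; ring
  rw [h3]; ring

lemma nrm_pos [NeZero d] (hd : 3 ≤ d) (j : ℕ) : 0 < nrm d j := by
  obtain ⟨x⟩ : Nonempty (Sph d) := by
    refine ⟨⟨EuclideanSpace.single 0 1, ?_⟩⟩
    simp
  rw [← zon_eq_nrm hd x]; exact zon_norm_pos hd x j

lemma QF_PP_nonneg [NeZero d] (hd : 3 ≤ d) (j : ℕ) {φ : Sph d → ℝ} {B : ℝ}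
    (h : BM φ B) : 0 ≤ QF (fun t => (PP d j).eval t) φ := by
  have h1 := TT_inner_eq hd j h
  have h2 : 0 ≤ ∫ z : Sph d, TT (PP d j) φ z * TT (PP d j) φ z ∂(sig d) :=
    integral_nonneg fun z => mul_self_nonneg _
  rw [h1] at h2
  exact nonneg_of_mul_nonneg_right h2 (nrm_pos hd j)

/-- Bessel's inequality -/
lemma bessel [NeZero d] (hd : 3 ≤ d) (J : ℕ) {φ : Sph d → ℝ} {B : ℝ} (h : BM φ B) :
    ∑ j ∈ Finset.range J, QF (fun t => (PP d j).eval t) φ / nrm d j ≤ ∫ x : Sph d, φ x ^ 2 ∂(sig d) := by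
  set S : Sph d → ℝ := fun z => ∑ j ∈ Finset.range J, TT (PP d j) φ z / nrm d j with hS
  have hSc : Continuous S := by
    apply continuous_finsetSum
    intro j _
    exact (continuous_TT _ h).div_const _
  obtain ⟨A, hA⟩ := (isCompact_range hSc).isBounded.exists_norm_le
  have hSb : BM S A := ⟨hSc.measurable, fun x => hA _ ⟨x, rfl⟩⟩
  have i1 : Integrable (fun z => φ z ^ 2) (sig d) := by
    apply BM.integrable (B := B ^ 2)
    exact ⟨h.meas.pow_const 2, fun x => by
      rw [abs_pow]; exact pow_le_pow_left₀ (abs_nonneg _) (h.bd x) 2⟩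
  have i2 : Integrable (fun z => φ z * S z) (sig d) := by
    apply BM.integrable (B := B * A)
    exact ⟨h.meas.mul hSb.meas, fun x => by
      rw [abs_mul]; exact mul_le_mul (h.bd x) (hSb.bd x) (abs_nonneg _) (h.nonneg x)⟩
  have i3 : Integrable (fun z => S z ^ 2) (sig d) := integrable_of_continuous (hSc.pow 2)
  have i4 : ∀ j, Integrable (fun z => φ z * TT (PP d j) φ z) (sig d) := by
    intro j
    obtain ⟨C, hC⟩ := BM_TT (PP d j) h
    apply BM.integrable (B := B * C)
    exact ⟨h.meas.mul hC.meas, fun x => by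
      rw [abs_mul]; exact mul_le_mul (h.bd x) (hC.bd x) (abs_nonneg _) (h.nonneg x)⟩
  have e1 : ∫ z : Sph d, φ z * S z ∂(sig d) =
      ∑ j ∈ Finset.range J, QF (fun t => (PP d j).eval t) φ / nrm d j := by
    simp only [hS, Finset.mul_sum]
    rw [integral_finsetSum]
    · apply Finset.sum_congr rfl
      intro j _
      rw [QF_eq_TT, ← integral_div]
      congr 1; funext z; ring
    · intro j _
      have := (i4 j).div_const (nrm d j)
      refine this.congr (Filter.Eventually.of_forall fun z => ?_)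
      show φ z * TT (PP d j) φ z / nrm d j = φ z * (TT (PP d j) φ z / nrm d j)
      ring
  have e2 : ∫ z : Sph d, S z ^ 2 ∂(sig d) =
      ∑ j ∈ Finset.range J, QF (fun t => (PP d j).eval t) φ / nrm d j := by
    have h1 : ∀ z, S z ^ 2 = ∑ i ∈ Finset.range J, ∑ j ∈ Finset.range J,
        (TT (PP d i) φ z * TT (PP d j) φ z) / (nrm d i * nrm d j) := by
      intro z
      rw [sq, hS, Finset.sum_mul_sum]
      apply Finset.sum_congr rfl
      intro i _
      apply Finset.sum_congr rfl
      intro j _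
      rw [div_mul_div_comm]
    simp only [h1]
    have hint : ∀ i j : ℕ, Integrable (fun z => (TT (PP d i) φ z * TT (PP d j) φ z) /
        (nrm d i * nrm d j)) (sig d) := fun i j => integrable_of_continuous
      (((continuous_TT _ h).mul (continuous_TT _ h)).div_const _)
    rw [integral_finsetSum]
    · apply Finset.sum_congr rfl
      intro i hi
      rw [integral_finsetSum]
      · rw [Finset.sum_eq_single i]
        · rw [integral_div, TT_inner_eq hd i h]
          have := (nrm_pos hd i).ne'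
          field_simp
        · intro j _ hji
          rw [integral_div, TT_inner_ne hd (Ne.symm hji) h, zero_div]
        · intro h'; exact absurd hi h'
      · intro j _; exact hint i j
    · intro i _
      exact integrable_finsetSum _ fun j _ => hint i j
  have h0 : 0 ≤ ∫ z : Sph d, (φ z - S z) ^ 2 ∂(sig d) := integral_nonneg fun z => sq_nonneg _
  have e3 : ∫ z : Sph d, (φ z - S z) ^ 2 ∂(sig d) = ∫ z : Sph d, φ z ^ 2 ∂(sig d) -
      2 * ∫ z : Sph d, φ z * S z ∂(sig d) + ∫ z : Sph d, S z ^ 2 ∂(sig d) := by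
    rw [← integral_const_mul, ← integral_sub i1 (i2.const_mul 2), ← integral_add _ i3]
    · congr 1; funext z; ring
    · exact i1.sub (i2.const_mul 2)
  rw [e3, e1, e2] at h0
  linarith

/-- `L²` (and `L¹`) approximation by polynomials -/
lemma exists_poly_near {g : ℝ → ℝ} (hg : Measurable g) {G : ℝ} (hG : ∀ t, |g t| ≤ G)
    {η : ℝ} (hη : 0 < η) : ∃ q : ℝ[X], ∫ t, |g t - q.eval t| ∂(den d) ≤ η := by
  have hint : Integrable g (den d) := Integrable.of_bound hg.aestronglyMeasurable G
    (Filter.Eventually.of_forall fun x => by rw [Real.norm_eq_abs]; exact hG x)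
  obtain ⟨f, hf, hfi⟩ := hint.exists_boundedContinuous_integral_sub_le (ε := η / 2) (by positivity)
  set M := (den d).real univ with hM
  have hM0 : 0 ≤ M := by positivity
  obtain ⟨q, hq⟩ := exists_polynomial_near_of_continuousOn (-1) 1 f f.continuous.continuousOn
    (η / (2 * (M + 1))) (by positivity)
  have hqi : Integrable (fun t => q.eval t) (den d) := by
    obtain ⟨C, hC⟩ := (isCompact_Icc (a := (-1 : ℝ)) (b := 1)).image q.continuous
      |>.isBounded.exists_norm_le
    refine Integrable.of_bound q.continuous.aestronglyMeasurable C ?_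
    filter_upwards [den_supp] with t ht
    exact hC _ ⟨t, ht, rfl⟩
  refine ⟨q, ?_⟩
  have h1 : ∫ t, |g t - q.eval t| ∂(den d) ≤
      ∫ t, (‖g t - f t‖ + |f t - q.eval t|) ∂(den d) := by
    apply integral_mono (hint.sub hqi).abs
    · exact (hint.sub hfi).norm.add (hfi.sub hqi).abs
    · intro t
      show |g t - q.eval t| ≤ ‖g t - f t‖ + |f t - q.eval t|
      rw [Real.norm_eq_abs]
      have := abs_add_le (g t - f t) (f t - q.eval t)
      rwa [sub_add_sub_cancel] at this
  have h2 : ∫ t, (‖g t - f t‖ + |f t - q.eval t|) ∂(den d) =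
      ∫ t, ‖g t - f t‖ ∂(den d) + ∫ t, |f t - q.eval t| ∂(den d) :=
    integral_add (hint.sub hfi).norm (hfi.sub hqi).abs
  have h3 : ∫ t, |f t - q.eval t| ∂(den d) ≤ η / (2 * (M + 1)) * M := by
    have h4 : ‖∫ t, |f t - q.eval t| ∂(den d)‖ ≤ η / (2 * (M + 1)) * (den d).real univ := by
      apply norm_integral_le_of_norm_le_const
      filter_upwards [den_supp] with t ht
      rw [Real.norm_eq_abs, abs_abs, abs_sub_comm]
      exact (hq t ht).le
    exact (le_abs_self _).trans h4
  have h5 : η / (2 * (M + 1)) * M ≤ η / 2 := by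
    rw [div_mul_eq_mul_div, div_le_div_iff₀ (by positivity) (by norm_num)]
    nlinarith
  rw [h2] at h1
  linarith

lemma exists_point [NeZero d] : Nonempty (Sph d) := by
  refine ⟨⟨EuclideanSpace.single 0 1, ?_⟩⟩
  simp

/-- `|P_j| ≤ 1` on the sphere -/
lemma abs_PP_le [NeZero d] (hd : 3 ≤ d) (j : ℕ) (x y : Sph d) :
    |(PP d j).eval ⟪(x : EE d), y⟫| ≤ 1 := by
  have hn := nrm_pos hd (d := d) j
  have h1 := conv_eq hd j x y
  have h2 : |conv d j x y| ≤ nrm d j := by
    unfold conv
    have i0 : ∀ u v : Sph d, Integrable (fun z : Sph d => (PP d j).eval ⟪(u : EE d), z⟫ *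
        (PP d j).eval ⟪(v : EE d), z⟫) (sig d) := fun u v => integrable_of_continuous
      ((continuous_eval (PP d j) (u : EE d)).mul (continuous_eval (PP d j) (v : EE d)))
    have i1 := i0 x y
    have i2 := i0 x x
    have i3 := i0 y y
    refine (abs_integral_le_integral_abs).trans ?_
    have h3 : ∫ z : Sph d, |(PP d j).eval ⟪(x : EE d), z⟫ * (PP d j).eval ⟪(y : EE d), z⟫| ∂(sig d)
        ≤ ∫ z : Sph d, ((PP d j).eval ⟪(x : EE d), z⟫ * (PP d j).eval ⟪(x : EE d), z⟫ +
          (PP d j).eval ⟪(y : EE d), z⟫ * (PP d j).eval ⟪(y : EE d), z⟫) / 2 ∂(sig d) := by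
      apply integral_mono i1.abs ((i2.add i3).div_const 2)
      intro z
      show |(PP d j).eval ⟪(x : EE d), z⟫ * (PP d j).eval ⟪(y : EE d), z⟫| ≤
        ((PP d j).eval ⟪(x : EE d), z⟫ * (PP d j).eval ⟪(x : EE d), z⟫ +
          (PP d j).eval ⟪(y : EE d), z⟫ * (PP d j).eval ⟪(y : EE d), z⟫) / 2
      rw [abs_le]
      constructor
      · nlinarith [mul_self_nonneg ((PP d j).eval ⟪(x : EE d), z⟫ + (PP d j).eval ⟪(y : EE d), z⟫)]
      · nlinarith [mul_self_nonneg ((PP d j).eval ⟪(x : EE d), z⟫ - (PP d j).eval ⟪(y : EE d), z⟫)]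
    refine h3.trans ?_
    rw [integral_div, integral_add i2 i3]
    have e1 := zon_eq_nrm hd x j
    have e2 := zon_eq_nrm hd y j
    unfold zon at e1 e2
    simp only [eval_mul] at e1 e2
    rw [e1, e2]
    linarith
  rw [h1, abs_mul, abs_of_pos hn] at h2
  exact le_of_mul_le_mul_left (by linarith) hn

lemma int_zonal_den [NeZero d] (hd : 3 ≤ d) (x : Sph d) {f : ℝ → ℝ} (hf : Measurable f) :
    ∫ z : Sph d, f ⟪(x : EE d), z⟫ ∂(sig d) = ∫ t, f t ∂(den d) := by
  rw [integral_zonal hd x hf, integral_den]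

lemma integrable_zonal [NeZero d] {f : ℝ → ℝ} (hf : Measurable f) {C : ℝ}
    (hC : ∀ t ∈ Icc (-1 : ℝ) 1, |f t| ≤ C) (x : Sph d) :
    Integrable (fun z : Sph d => f ⟪(x : EE d), z⟫) (sig d) :=
  BM.integrable (B := C) ⟨hf.comp (continuous_inner_S _).measurable,
    fun z => hC _ (abs_inner_le x z)⟩

lemma QF_add [NeZero d] {p q : ℝ → ℝ} (hp : Measurable p) (hq : Measurable q) {C C' : ℝ}
    (hC : ∀ t ∈ Icc (-1 : ℝ) 1, |p t| ≤ C) (hC' : ∀ t ∈ Icc (-1 : ℝ) 1, |q t| ≤ C')
    {φ : Sph d → ℝ} {B : ℝ} (h : BM φ B) :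
    QF (fun t => p t + q t) φ = QF p φ + QF q φ := by
  have hin : ∀ {p : ℝ → ℝ}, Measurable p → ∀ {C : ℝ}, (∀ t ∈ Icc (-1 : ℝ) 1, |p t| ≤ C) →
      (∀ x : Sph d, Integrable (fun y : Sph d => φ y * p ⟪(x : EE d), y⟫) (sig d)) ∧
      Integrable (fun x : Sph d => φ x * ∫ y : Sph d, φ y * p ⟪(x : EE d), y⟫ ∂(sig d)) (sig d) := by
    intro p hp C hC
    have hm : Measurable (fun w : Sph d × Sph d => φ w.2 * p ⟪(w.1 : EE d), (w.2 : EE d)⟫) :=
      (h.meas.comp measurable_snd).mul (hp.comp continuous_inner2.measurable)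
    constructor
    · intro x
      apply BM.integrable (B := B * C)
      refine ⟨hm.comp measurable_prodMk_left, fun y => ?_⟩
      rw [abs_mul]
      exact mul_le_mul (h.bd y) (hC _ (abs_inner_le x y)) (abs_nonneg _) (h.nonneg y)
    · apply BM.integrable (B := B * (B * C))
      refine ⟨h.meas.mul hm.stronglyMeasurable.integral_prod_right.measurable, fun x => ?_⟩
      rw [abs_mul]
      apply mul_le_mul (h.bd x) _ (abs_nonneg _) (h.nonneg x)
      rw [← Real.norm_eq_abs]
      have := norm_integral_le_of_norm_le_const (μ := sig d) (C := B * C)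
        (f := fun y : Sph d => φ y * p ⟪(x : EE d), y⟫) (Filter.Eventually.of_forall fun y => by
          rw [Real.norm_eq_abs, abs_mul]
          exact mul_le_mul (h.bd y) (hC _ (abs_inner_le x y)) (abs_nonneg _) (h.nonneg y))
      simpa using this
  obtain ⟨a1, a2⟩ := hin hp hC
  obtain ⟨b1, b2⟩ := hin hq hC'
  unfold QF
  rw [← integral_add a2 b2]
  congr 1; funext x
  rw [← mul_add, ← integral_add (a1 x) (b1 x)]
  congr 2; funext y; ring

lemma abs_QF_le [NeZero d] (hd : 3 ≤ d) {p : ℝ → ℝ} (hp : Measurable p) {C : ℝ}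
    (hC : ∀ t ∈ Icc (-1 : ℝ) 1, |p t| ≤ C)
    {φ : Sph d → ℝ} {B : ℝ} (h : BM φ B) : |QF p φ| ≤ B ^ 2 * ∫ t, |p t| ∂(den d) := by
  obtain ⟨x0⟩ := exists_point (d := d)
  have hB := h.nonneg x0
  have h1 : ∀ x : Sph d, |∫ y : Sph d, φ y * p ⟪(x : EE d), y⟫ ∂(sig d)| ≤
      B * ∫ t, |p t| ∂(den d) := by
    intro x
    refine (abs_integral_le_integral_abs).trans ?_
    rw [← int_zonal_den hd x (f := fun t => |p t|) hp.abs, ← integral_const_mul]
    apply integral_mono
    · apply BM.integrable (B := B * C)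
      refine ⟨(h.meas.mul (hp.comp (continuous_inner_S _).measurable)).abs, fun y => ?_⟩
      rw [abs_abs, abs_mul]
      exact mul_le_mul (h.bd y) (hC _ (abs_inner_le x y)) (abs_nonneg _) hB
    · apply Integrable.const_mul
      exact integrable_zonal hp.abs (C := C) (fun t ht => by rw [abs_abs]; exact hC t ht) x
    · intro y
      show |φ y * p ⟪(x : EE d), y⟫| ≤ B * |p ⟪(x : EE d), y⟫|
      rw [abs_mul]
      exact mul_le_mul_of_nonneg_right (h.bd y) (abs_nonneg _)
  have h2 := norm_integral_le_of_norm_le_const (μ := sig d)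
    (C := B * (B * ∫ t, |p t| ∂(den d)))
    (f := fun x : Sph d => φ x * ∫ y : Sph d, φ y * p ⟪(x : EE d), y⟫ ∂(sig d))
    (Filter.Eventually.of_forall fun x => by
      rw [Real.norm_eq_abs, abs_mul]
      exact mul_le_mul (h.bd x) (h1 x) (abs_nonneg _) hB)
  rw [Real.norm_eq_abs] at h2
  have e : (sig d).real univ = 1 := by simp
  rw [e, mul_one] at h2
  unfold QF
  calc _ ≤ _ := h2
    _ = _ := by ring

lemma QF_sum [NeZero d] (J : ℕ) (a : ℕ → ℝ) {φ : Sph d → ℝ} {B : ℝ} (h : BM φ B) :
    QF (fun t => ∑ j ∈ Finset.range J, a j * (PP d j).eval t) φ =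
      ∑ j ∈ Finset.range J, a j * QF (fun t => (PP d j).eval t) φ := by
  have hcont : ∀ j, Continuous (fun t : ℝ => a j * (PP d j).eval t) := fun j =>
    continuous_const.mul (PP d j).continuous
  have hmul : ∀ j, QF (fun t => a j * (PP d j).eval t) φ = a j * QF (fun t => (PP d j).eval t) φ := by
    intro j
    unfold QF
    rw [← integral_const_mul]
    congr 1; funext x
    have : ∫ y : Sph d, φ y * (a j * (PP d j).eval ⟪(x : EE d), y⟫) ∂(sig d) =
        a j * ∫ y : Sph d, φ y * (PP d j).eval ⟪(x : EE d), y⟫ ∂(sig d) := by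
      rw [← integral_const_mul]
      congr 1; funext y; ring
    rw [this]; ring
  induction J with
  | zero => simp [QF]
  | succ J ih =>
    simp only [Finset.sum_range_succ]
    have hc1 : Continuous (fun t : ℝ => ∑ j ∈ Finset.range J, a j * (PP d j).eval t) :=
      continuous_finsetSum _ fun j _ => hcont j
    obtain ⟨C, hC⟩ := (isCompact_Icc (a := (-1 : ℝ)) (b := 1)).image hc1 |>.isBounded.exists_norm_le
    obtain ⟨C', hC'⟩ := (isCompact_Icc (a := (-1 : ℝ)) (b := 1)).image (hcont J)
      |>.isBounded.exists_norm_le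
    rw [QF_add hc1.measurable (hcont J).measurable (C := C) (C' := C')
      (fun t ht => hC _ ⟨t, ht, rfl⟩) (fun t ht => hC' _ ⟨t, ht, rfl⟩) h, ih, hmul]

lemma nrm_zero : nrm d 0 = 1 := by
  unfold nrm cst
  simp only [PP_zero, eval_one, one_pow, one_mul]
  exact inv_mul_cancel₀ (integral_wt_pos _).ne'

/-- the operator inequality -/
theorem op_ineq [NeZero d] (hd : 3 ≤ d) {g : ℝ → ℝ} (hg : Measurable g) {G : ℝ}
    (hG : ∀ t, |g t| ≤ G) (h0 : ∫ t, g t ∂(den d) = 1) {ε : ℝ} (hε : 0 ≤ ε)
    (hj : ∀ j, 1 ≤ j → -ε ≤ ∫ t, g t * (PP d j).eval t ∂(den d))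
    {φ : Sph d → ℝ} {B : ℝ} (h : BM φ B) :
    (∫ x : Sph d, φ x ∂(sig d)) ^ 2 - ε * ∫ x : Sph d, φ x ^ 2 ∂(sig d) ≤ QF g φ := by
  obtain ⟨x0⟩ := exists_point (d := d)
  set N2 := ∫ x : Sph d, φ x ^ 2 ∂(sig d) with hN2
  have hN2nn : 0 ≤ N2 := integral_nonneg fun x => sq_nonneg _
  set s : ℕ → ℝ := fun j => QF (fun t => (PP d j).eval t) φ / nrm d j with hs
  have hs0 : ∀ j, 0 ≤ s j := fun j => div_nonneg (QF_PP_nonneg hd j h) (nrm_pos hd j).le
  have hs00 : s 0 = (∫ x : Sph d, φ x ∂(sig d)) ^ 2 := by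
    simp only [hs, nrm_zero, div_one, QF, PP_zero, eval_one, mul_one]
    rw [integral_mul_const, sq]
  have hgi : Integrable g (den d) := Integrable.of_bound hg.aestronglyMeasurable G
    (Filter.Eventually.of_forall fun x => by rw [Real.norm_eq_abs]; exact hG x)
  have key : ∀ η : ℝ, 0 < η → (∫ x : Sph d, φ x ∂(sig d)) ^ 2 - ε * N2 - η * (N2 + B ^ 2) ≤
      QF g φ := by
    intro η hη
    obtain ⟨q, hq⟩ := exists_poly_near (d := d) hg hG hη
    obtain ⟨J, a, ha⟩ := exists_expansion hd q
    obtain ⟨Cq, hCq⟩ := (isCompact_Icc (a := (-1 : ℝ)) (b := 1)).image q.continuous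
      |>.isBounded.exists_norm_le
    have hqi : Integrable (fun t => q.eval t) (den d) := by
      refine Integrable.of_bound q.continuous.aestronglyMeasurable Cq ?_
      filter_upwards [den_supp] with t ht
      exact hCq _ ⟨t, ht, rfl⟩
    -- decomposition
    have hdec : QF g φ = QF (fun t => g t - q.eval t) φ + QF (fun t => q.eval t) φ := by
      have e := QF_add (p := fun t => g t - q.eval t) (q := fun t => q.eval t)
        (hg.sub q.continuous.measurable) q.continuous.measurable (C := G + Cq)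
        (C' := Cq) (fun t ht => (abs_sub _ _).trans (add_le_add (hG t) (hCq _ ⟨t, ht, rfl⟩)))
        (fun t ht => hCq _ ⟨t, ht, rfl⟩) h
      rw [← e]
      congr 1; funext t; ring
    have hrem : |QF (fun t => g t - q.eval t) φ| ≤ B ^ 2 * η := by
      refine (abs_QF_le hd (hg.sub q.continuous.measurable) (C := G + Cq) ?_ h).trans ?_
      · intro t ht
        refine (abs_sub _ _).trans ?_
        exact add_le_add (hG t) (hCq _ ⟨t, ht, rfl⟩)
      · exact mul_le_mul_of_nonneg_left hq (sq_nonneg _)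
    -- coefficients
    have hcoef : ∀ j, j < J + 1 → ∫ t, q.eval t * (PP d j).eval t ∂(den d) = a j * nrm d j := by
      intro j hj'
      rw [← int_zonal_den hd x0 (f := fun t => q.eval t * (PP d j).eval t)
        (q.continuous.mul (PP d j).continuous).measurable]
      simp only [ha, Finset.sum_mul]
      rw [integral_finsetSum]
      · rw [Finset.sum_eq_single j]
        · have e1 := zon_eq_nrm hd x0 j
          unfold zon at e1
          simp only [eval_mul] at e1
          rw [← e1, ← integral_const_mul]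
          congr 1; funext z; ring
        · intro i _ hij
          have := PP_orth hd hij x0 x0
          have e2 : ∫ z : Sph d, a i * (PP d i).eval ⟪(x0 : EE d), z⟫ *
              (PP d j).eval ⟪(x0 : EE d), z⟫ ∂(sig d) = a i * ∫ z : Sph d,
              (PP d i).eval ⟪(x0 : EE d), z⟫ * (PP d j).eval ⟪(x0 : EE d), z⟫ ∂(sig d) := by
            rw [← integral_const_mul]
            congr 1; funext z; ring
          rw [e2, this, mul_zero]
        · intro h'; exact absurd (Finset.mem_range.2 hj') h'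
      · intro i _
        exact integrable_of_continuous
          ((continuous_const.mul (continuous_eval _ _)).mul (continuous_eval _ _))
    have hdiff : ∀ j, |∫ t, (q.eval t - g t) * (PP d j).eval t ∂(den d)| ≤ η := by
      intro j
      rw [← int_zonal_den hd x0 (f := fun t => (q.eval t - g t) * (PP d j).eval t)
        ((q.continuous.measurable.sub hg).mul (PP d j).continuous.measurable)]
      refine (abs_integral_le_integral_abs).trans ?_
      refine le_trans ?_ hq
      rw [← int_zonal_den hd x0 (f := fun t => |g t - q.eval t|)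
        (hg.sub q.continuous.measurable).abs]
      obtain ⟨Cj, hCj⟩ := (isCompact_Icc (a := (-1 : ℝ)) (b := 1)).image
        (PP d j).continuous |>.isBounded.exists_norm_le
      apply integral_mono
      · have := integrable_zonal (d := d) (f := fun t => |(q.eval t - g t) * (PP d j).eval t|)
          ((q.continuous.measurable.sub hg).mul (PP d j).continuous.measurable).abs
          (C := (Cq + G) * Cj) (fun t ht => by
            rw [abs_abs, abs_mul]
            apply mul_le_mul _ _ (abs_nonneg _) _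
            · exact (abs_sub _ _).trans (add_le_add (hCq _ ⟨t, ht, rfl⟩) (hG t))
            · exact hCj _ ⟨t, ht, rfl⟩
            · have h1 := abs_nonneg (g 0)
              have h2 := hG 0
              have h3 := hCq _ ⟨t, ht, rfl⟩
              have h4 := norm_nonneg (q.eval t)
              simp only at h3
              linarith) x0
        exact this
      · exact integrable_zonal (d := d) (f := fun t => |g t - q.eval t|)
          (hg.sub q.continuous.measurable).abs (C := G + Cq) (fun t ht => by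
            rw [abs_abs]
            exact (abs_sub _ _).trans (add_le_add (hG t) (hCq _ ⟨t, ht, rfl⟩))) x0
      · intro z
        show |(q.eval ⟪(x0 : EE d), z⟫ - g ⟪(x0 : EE d), z⟫) * (PP d j).eval ⟪(x0 : EE d), z⟫| ≤
          |g ⟪(x0 : EE d), z⟫ - q.eval ⟪(x0 : EE d), z⟫|
        rw [abs_mul, abs_sub_comm]
        have := abs_PP_le hd j x0 z
        have h2 := abs_nonneg (g ⟪(x0 : EE d), z⟫ - q.eval ⟪(x0 : EE d), z⟫)
        nlinarith
    have hcoef2 : ∀ j, j < J + 1 → ∫ t, g t * (PP d j).eval t ∂(den d) - η ≤ a j * nrm d j := by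
      intro j hj'
      have h1 := hdiff j
      have h2 := hcoef j hj'
      have i1 : Integrable (fun t => q.eval t * (PP d j).eval t) (den d) := by
        obtain ⟨C, hC⟩ := (isCompact_Icc (a := (-1 : ℝ)) (b := 1)).image
          (q.continuous.mul (PP d j).continuous) |>.isBounded.exists_norm_le
        refine Integrable.of_bound (q.continuous.mul (PP d j).continuous).aestronglyMeasurable C ?_
        filter_upwards [den_supp] with t ht
        exact hC _ ⟨t, ht, rfl⟩
      have i2 : Integrable (fun t => g t * (PP d j).eval t) (den d) := by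
        obtain ⟨C, hC⟩ := (isCompact_Icc (a := (-1 : ℝ)) (b := 1)).image
          (PP d j).continuous |>.isBounded.exists_norm_le
        refine Integrable.of_bound (hg.mul (PP d j).continuous.measurable).aestronglyMeasurable
          (G * C) ?_
        filter_upwards [den_supp] with t ht
        rw [norm_mul]
        exact mul_le_mul (by rw [Real.norm_eq_abs]; exact hG t) (hC _ ⟨t, ht, rfl⟩) (norm_nonneg _)
          ((abs_nonneg _).trans (hG 0))
      have e : ∫ t, (q.eval t - g t) * (PP d j).eval t ∂(den d) =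
          ∫ t, q.eval t * (PP d j).eval t ∂(den d) - ∫ t, g t * (PP d j).eval t ∂(den d) := by
        rw [← integral_sub i1 i2]
        congr 1; funext t; ring
      rw [e, h2] at h1
      have := (abs_le.1 h1).1
      linarith
    have hQ : QF (fun t => q.eval t) φ = ∑ j ∈ Finset.range (J + 1), (a j * nrm d j) * s j := by
      simp only [ha]
      rw [QF_sum _ _ h]
      apply Finset.sum_congr rfl
      intro j _
      simp only [hs]
      have := (nrm_pos hd j).ne'
      field_simp
    have hlow : ∑ j ∈ Finset.range (J + 1), (a j * nrm d j) * s j ≥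
        s 0 - (ε + η) * ∑ j ∈ Finset.range (J + 1), s j := by
      rw [Finset.sum_range_succ', Finset.sum_range_succ' (fun j => s j)]
      have h1 : ∑ j ∈ Finset.range J, (a (j + 1) * nrm d (j + 1)) * s (j + 1) ≥
          -(ε + η) * ∑ j ∈ Finset.range J, s (j + 1) := by
        rw [Finset.mul_sum]
        apply Finset.sum_le_sum
        intro j hj'
        rw [Finset.mem_range] at hj'
        apply mul_le_mul_of_nonneg_right _ (hs0 _)
        have h2 := hcoef2 (j + 1) (by omega)
        have h3 := hj (j + 1) (by omega)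
        linarith
      have h4 : (a 0 * nrm d 0) * s 0 ≥ (1 - η) * s 0 := by
        apply mul_le_mul_of_nonneg_right _ (hs0 _)
        have h2 := hcoef2 0 (by omega)
        simp only [PP_zero, eval_one, mul_one] at h2
        rw [h0] at h2
        exact h2
      nlinarith [hs0 0]
    have hbes := bessel hd (J + 1) h
    have hbes' : ∑ j ∈ Finset.range (J + 1), s j ≤ N2 := hbes
    have hr := (abs_le.1 hrem).1
    rw [hdec, hQ]
    have : (ε + η) * ∑ j ∈ Finset.range (J + 1), s j ≤ (ε + η) * N2 :=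
      mul_le_mul_of_nonneg_left hbes' (by linarith)
    rw [← hs00]
    nlinarith
  apply le_of_forall_pos_lt_add
  intro δ hδ
  have hM : 0 ≤ N2 + B ^ 2 := by positivity
  have h1 := key (δ / (2 * (N2 + B ^ 2 + 1))) (by positivity)
  have h2 : δ / (2 * (N2 + B ^ 2 + 1)) * (N2 + B ^ 2) < δ := by
    rw [div_mul_eq_mul_div, div_lt_iff₀ (by positivity)]
    nlinarith
  linarith

end Pool.Agent.Helper47.KP
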