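import Mathlib

/-!
The uniform probability measure on the unit sphere, its rotation invariance and the infinitesimal
form of the rotation invariance.
-/

set_option autoImplicit false

open MeasureTheory Set Metric
open scoped Pointwise ENNReal RealInnerProductSpace

namespace Pool.Agent.Helper47.KP

/-- Euclidean space -/
abbrev EE (d : ℕ) := EuclideanSpace ℝ (Fin d)

/-- The unit sphere of `ℝ^d`. -/
abbrev Sph (d : ℕ) : Type := Metric.sphere (0 : EuclideanSpace ℝ (Fin d)) 1

variable {d : ℕ}

lemma norm_S (x : Sph d) : ‖(x : EE d)‖ = 1 := by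
  have := x.2
  simp at this ⊢

lemma inner_self_S (x : Sph d) : ⟪(x : EE d), (x : EE d)⟫ = 1 := by
  rw [real_inner_self_eq_norm_sq, norm_S]; norm_num

/-- the uniform probability measure on the sphere -/
noncomputable def sig (d : ℕ) : Measure (Sph d) :=
  ((volume : Measure (EE d)).toSphere univ)⁻¹ • (volume : Measure (EE d)).toSphere

instance sig_prob [NeZero d] : IsProbabilityMeasure (sig d) := by
  have : Nontrivial (EE d) := by
    have : Nonempty (Fin d) := ⟨0⟩
    infer_instance
  constructor
  rw [sig, Measure.smul_apply, smul_eq_mul, ENNReal.inv_mul_cancel]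
  · rw [Measure.measure_univ_ne_zero]
    exact Measure.toSphere_ne_zero _
  · exact measure_ne_top _ _

/-- action of linear isometries on the sphere -/
noncomputable def rotS (U : EE d ≃ₗᵢ[ℝ] EE d) (x : Sph d) : Sph d :=
  ⟨U x, by simp⟩

@[simp] lemma rotS_coe (U : EE d ≃ₗᵢ[ℝ] EE d) (x : Sph d) : (rotS U x : EE d) = U x := rfl

lemma continuous_rotS (U : EE d ≃ₗᵢ[ℝ] EE d) : Continuous (rotS U) :=
  Continuous.subtype_mk (U.continuous.comp continuous_subtype_val) _

lemma smul_preimage (U : EE d ≃ₗᵢ[ℝ] EE d) (s : Set (Sph d)) :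
    Ioo (0 : ℝ) 1 • ((↑) '' (rotS U ⁻¹' s) : Set (EE d)) =
      U ⁻¹' (Ioo (0 : ℝ) 1 • ((↑) '' s : Set (EE d))) := by
  ext z
  simp only [mem_smul, mem_image, mem_preimage]
  constructor
  · rintro ⟨r, hr, y, ⟨x, hx, rfl⟩, rfl⟩
    exact ⟨r, hr, _, ⟨rotS U x, hx, rfl⟩, by simp⟩
  · rintro ⟨r, hr, y, ⟨x, hx, rfl⟩, h⟩
    refine ⟨r, hr, _, ⟨rotS U.symm x, ?_, rfl⟩, ?_⟩
    · have : rotS U (rotS U.symm x) = x := by ext1; simp
      rw [this]; exact hx
    · have h2 := congrArg U.symm h
      simpa using h2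

lemma map_toSphere (U : EE d ≃ₗᵢ[ℝ] EE d) :
    ((volume : Measure (EE d)).toSphere).map (rotS U) = (volume : Measure (EE d)).toSphere := by
  ext s hs
  rw [Measure.map_apply (continuous_rotS U).measurable hs,
    Measure.toSphere_apply' _ ((continuous_rotS U).measurable hs),
    Measure.toSphere_apply' _ hs, smul_preimage,
    U.measurePreserving.measure_preimage_emb U.toHomeomorph.measurableEmbedding]

lemma map_sig (U : EE d ≃ₗᵢ[ℝ] EE d) : (sig d).map (rotS U) = sig d := by
  rw [sig, Measure.map_smul, map_toSphere]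

/-- rotation invariance -/
lemma integral_rotS (U : EE d ≃ₗᵢ[ℝ] EE d) (f : Sph d → ℝ) :
    ∫ x, f (rotS U x) ∂(sig d) = ∫ x, f x ∂(sig d) := by
  let e : Sph d ≃ₜ Sph d :=
    { toFun := rotS U
      invFun := rotS U.symm
      left_inv := fun x => by ext1; simp
      right_inv := fun x => by ext1; simp
      continuous_toFun := continuous_rotS U
      continuous_invFun := continuous_rotS U.symm }
  have h : ∫ x, f x ∂((sig d).map (rotS U)) = ∫ x, f (rotS U x) ∂(sig d) :=
    e.measurableEmbedding.integral_map (μ := sig d) f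
  rw [← h, map_sig]

lemma integrable_of_continuous [NeZero d] {f : Sph d → ℝ} (hf : Continuous f) :
    Integrable f (sig d) := by
  obtain ⟨C, hC⟩ := (isCompact_range hf).isBounded.exists_norm_le
  exact Integrable.of_bound hf.aestronglyMeasurable C
    (Filter.Eventually.of_forall fun x => hC _ (mem_range_self x))

end Pool.Agent.Helper47.KP
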