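import Pool.Agent.Helper47.KP.Sphere

/-!
The infinitesimal form of the rotation invariance.
-/

set_option autoImplicit false

open MeasureTheory Set Metric
open scoped Pointwise ENNReal RealInnerProductSpace

namespace Pool.Agent.Helper47.KP

variable {d : ℕ}

/-- rotation by `θ` in the plane of two orthonormal vectors -/
noncomputable def planeMap (u v : EE d) (θ : ℝ) : EE d →ₗ[ℝ] EE d where
  toFun z := z + (Real.cos θ - 1) • (⟪u, z⟫ • u + ⟪v, z⟫ • v)
    + Real.sin θ • (⟪u, z⟫ • v - ⟪v, z⟫ • u)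
  map_add' x y := by
    simp only [inner_add_right]
    module
  map_smul' c x := by
    simp only [inner_smul_right, RingHom.id_apply]
    module

lemma planeMap_apply (u v : EE d) (θ : ℝ) (z : EE d) : planeMap u v θ z =
    z + (Real.cos θ - 1) • (⟪u, z⟫ • u + ⟪v, z⟫ • v)
    + Real.sin θ • (⟪u, z⟫ • v - ⟪v, z⟫ • u) := rfl

lemma planeMap_norm {u v : EE d} (hu : ‖u‖ = 1) (hv : ‖v‖ = 1) (huv : ⟪u, v⟫ = 0) (θ : ℝ)
    (z : EE d) : ‖planeMap u v θ z‖ = ‖z‖ := by
  have huu : ⟪u, u⟫ = 1 := by rw [real_inner_self_eq_norm_sq, hu]; norm_num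
  have hvv : ⟪v, v⟫ = 1 := by rw [real_inner_self_eq_norm_sq, hv]; norm_num
  have hvu : ⟪v, u⟫ = 0 := by rw [real_inner_comm]; exact huv
  have h : ‖planeMap u v θ z‖ ^ 2 = ‖z‖ ^ 2 := by
    rw [← real_inner_self_eq_norm_sq, ← real_inner_self_eq_norm_sq, planeMap_apply]
    simp only [inner_add_left, inner_add_right, inner_sub_left, inner_sub_right, inner_smul_left,
      inner_smul_right, huu, hvv, huv, hvu, real_inner_comm u z, real_inner_comm v z,
      RCLike.conj_to_real]
    have := Real.sin_sq_add_cos_sq θ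
    set a := ⟪u, z⟫
    set b := ⟪v, z⟫
    have hs : Real.sin θ ^ 2 = 1 - Real.cos θ ^ 2 := by linarith
    linear_combination (a ^ 2 + b ^ 2) * hs
  exact (pow_left_inj₀ (norm_nonneg _) (norm_nonneg _) two_ne_zero).1 h

/-- rotation by `θ` in the plane of two orthonormal vectors -/
noncomputable def planeRot {u v : EE d} (hu : ‖u‖ = 1) (hv : ‖v‖ = 1) (huv : ⟪u, v⟫ = 0) (θ : ℝ) :
    EE d ≃ₗᵢ[ℝ] EE d :=
  LinearIsometry.toLinearIsometryEquiv
    { toLinearMap := planeMap u v θ, norm_map' := planeMap_norm hu hv huv θ } rfl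

lemma planeRot_apply {u v : EE d} (hu : ‖u‖ = 1) (hv : ‖v‖ = 1) (huv : ⟪u, v⟫ = 0) (θ : ℝ)
    (z : EE d) : planeRot hu hv huv θ z = z + (Real.cos θ - 1) • (⟪u, z⟫ • u + ⟪v, z⟫ • v)
    + Real.sin θ • (⟪u, z⟫ • v - ⟪v, z⟫ • u) := rfl

lemma stein_orthonormal [NeZero d] {u v : EE d} (hu : ‖u‖ = 1) (hv : ‖v‖ = 1) (huv : ⟪u, v⟫ = 0)
    {G : EE d → ℝ} (hG : ContDiff ℝ 1 G) :
    ∫ z : Sph d, fderiv ℝ G z (⟪u, (z : EE d)⟫ • v - ⟪v, (z : EE d)⟫ • u) ∂(sig d) = 0 := by
  set R := fun (θ : ℝ) (z : EE d) => planeRot hu hv huv θ z with hR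
  set R' := fun (θ : ℝ) (z : EE d) => (-Real.sin θ) • (⟪u, z⟫ • u + ⟪v, z⟫ • v)
    + Real.cos θ • (⟪u, z⟫ • v - ⟪v, z⟫ • u) with hR'
  have hd : ∀ (z : EE d) (θ : ℝ), HasDerivAt (fun θ => R θ z) (R' θ z) θ := by
    intro z θ
    have h1 := ((Real.hasDerivAt_cos θ).sub_const 1).smul_const (⟪u, z⟫ • u + ⟪v, z⟫ • v)
    have h2 := (Real.hasDerivAt_sin θ).smul_const (⟪u, z⟫ • v - ⟪v, z⟫ • u)
    exact ((h1.const_add z).add h2)
  have hRn : ∀ θ z, ‖R θ z‖ = ‖z‖ := fun θ z => (planeRot hu hv huv θ).norm_map z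
  have hGd : ∀ z, HasFDerivAt G (fderiv ℝ G z) z := fun z =>
    (hG.differentiable (by norm_num) z).hasFDerivAt
  have hcf : Continuous (fderiv ℝ G) := hG.continuous_fderiv (by norm_num)
  obtain ⟨C, hC⟩ := ((isCompact_sphere (0 : EE d) 1).image hcf).isBounded.exists_norm_le
  have hC' : ∀ z : EE d, ‖z‖ = 1 → ‖fderiv ℝ G z‖ ≤ C := fun z hz =>
    hC _ ⟨z, by simpa using hz, rfl⟩
  have hR'n : ∀ θ (z : EE d), ‖z‖ = 1 → ‖R' θ z‖ ≤ 4 := by
    intro θ z hz
    have hu' : |⟪u, z⟫| ≤ 1 := by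
      have := abs_real_inner_le_norm u z
      rwa [hu, hz, one_mul] at this
    have hv' : |⟪v, z⟫| ≤ 1 := by
      have := abs_real_inner_le_norm v z
      rwa [hv, hz, one_mul] at this
    have n1 : ‖⟪u, z⟫ • u + ⟪v, z⟫ • v‖ ≤ 2 := by
      refine (norm_add_le _ _).trans ?_
      rw [norm_smul, norm_smul, hu, hv, Real.norm_eq_abs, Real.norm_eq_abs]
      linarith
    have n2 : ‖⟪u, z⟫ • v - ⟪v, z⟫ • u‖ ≤ 2 := by
      refine (norm_sub_le _ _).trans ?_
      rw [norm_smul, norm_smul, hu, hv, Real.norm_eq_abs, Real.norm_eq_abs]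
      linarith
    refine (norm_add_le _ _).trans ?_
    rw [norm_smul, norm_smul, Real.norm_eq_abs, Real.norm_eq_abs, abs_neg]
    have s1 := Real.abs_sin_le_one θ
    have s2 := Real.abs_cos_le_one θ
    have m1 : |Real.sin θ| * ‖⟪u, z⟫ • u + ⟪v, z⟫ • v‖ ≤ 1 * 2 :=
      mul_le_mul s1 n1 (norm_nonneg _) (by norm_num)
    have m2 : |Real.cos θ| * ‖⟪u, z⟫ • v - ⟪v, z⟫ • u‖ ≤ 1 * 2 :=
      mul_le_mul s2 n2 (norm_nonneg _) (by norm_num)
    linarith
  have hcR : ∀ θ, Continuous (fun z : EE d => R θ z) := fun θ => (planeRot hu hv huv θ).continuous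
  have hcR' : Continuous (fun z : EE d => R' 0 z) := by
    simp only [hR']
    fun_prop
  have key := hasDerivAt_integral_of_dominated_loc_of_deriv_le (μ := sig d) (𝕜 := ℝ)
    (F := fun θ (z : Sph d) => G (R θ z)) (x₀ := (0 : ℝ)) (s := univ)
    (F' := fun θ (z : Sph d) => fderiv ℝ G (R θ z) (R' θ z)) (bound := fun _ => C * 4)
    Filter.univ_mem
    (Filter.Eventually.of_forall fun θ =>
      (hG.continuous.comp ((hcR θ).comp continuous_subtype_val)).aestronglyMeasurable)
    (integrable_of_continuous (hG.continuous.comp ((hcR 0).comp continuous_subtype_val)))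
    (by
      apply Continuous.aestronglyMeasurable
      exact (hcf.comp ((hcR 0).comp continuous_subtype_val)).clm_apply
        (hcR'.comp continuous_subtype_val))
    (Filter.Eventually.of_forall fun z θ _ => by
      have hz : ‖(z : EE d)‖ = 1 := norm_S z
      refine (ContinuousLinearMap.le_opNorm _ _).trans ?_
      exact mul_le_mul (hC' _ (by rw [hRn, hz])) (hR'n θ _ hz) (norm_nonneg _)
        ((norm_nonneg _).trans (hC' _ hz)))
    (integrable_const _)
    (Filter.Eventually.of_forall fun z θ _ => by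
      exact (hGd (R θ z)).comp_hasDerivAt θ (hd z θ))
  have hconst : (fun θ : ℝ => ∫ z : Sph d, G (R θ z) ∂(sig d)) =
      fun _ => ∫ z : Sph d, G z ∂(sig d) := by
    funext θ
    exact integral_rotS (planeRot hu hv huv θ) (fun z => G z)
  have h2 := key.2
  rw [hconst] at h2
  have h3 := h2.unique (hasDerivAt_const (0 : ℝ) _)
  rw [← h3]
  congr 1
  funext z
  have e1 : R 0 (z : EE d) = z := by
    simp [hR, planeRot_apply]
  have e2 : R' 0 (z : EE d) = ⟪u, (z : EE d)⟫ • v - ⟪v, (z : EE d)⟫ • u := by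
    simp [hR']
  rw [e1, e2]

/-- the standard basis vectors -/
noncomputable abbrev bas (k : Fin d) : EE d := EuclideanSpace.single k (1 : ℝ)

lemma bas_norm (k : Fin d) : ‖bas k‖ = 1 := by simp [bas]

lemma bas_inner (k l : Fin d) : ⟪bas k, bas l⟫ = if k = l then 1 else 0 := by
  simp [bas, EuclideanSpace.inner_single_left]

lemma bas_inner_left (k : Fin d) (z : EE d) : ⟪bas k, z⟫ = z k := by
  simp [bas, EuclideanSpace.inner_single_left]

lemma sum_bas (y : EE d) : ∑ l, y l • bas l = y := by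
  ext j
  simp [bas, Finset.sum_apply, Pi.single_apply]

lemma stein [NeZero d] {G : EE d → ℝ} (hG : ContDiff ℝ 1 G) (k : Fin d) (y : EE d) :
    ∫ z : Sph d, fderiv ℝ G z ((z : EE d) k • y - ⟪y, (z : EE d)⟫ • bas k) ∂(sig d) = 0 := by
  have hcf : Continuous (fderiv ℝ G) := hG.continuous_fderiv (by norm_num)
  have e1 : ∀ z : EE d, fderiv ℝ G z (z k • y - ⟪y, z⟫ • bas k) =
      ∑ l, y l * fderiv ℝ G z (⟪bas k, z⟫ • bas l - ⟪bas l, z⟫ • bas k) := by
    intro z
    have h1 : z k • y - ⟪y, z⟫ • bas k =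
        ∑ l, y l • (⟪bas k, z⟫ • bas l - ⟪bas l, z⟫ • bas k) := by
      have h2 : ∑ l, y l • (⟪bas k, z⟫ • bas l - ⟪bas l, z⟫ • bas k) =
          z k • ∑ l, y l • bas l - (∑ l, y l * z l) • bas k := by
        rw [Finset.smul_sum, Finset.sum_smul, ← Finset.sum_sub_distrib]
        apply Finset.sum_congr rfl
        intro l _
        rw [bas_inner_left, bas_inner_left]
        module
      rw [h2, sum_bas]
      congr 2
      rw [real_inner_comm, PiLp.inner_apply]
      apply Finset.sum_congr rfl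
      intro l _
      simp
    rw [h1, map_sum]
    apply Finset.sum_congr rfl
    intro l _
    rw [map_smul, smul_eq_mul]
  simp only [e1]
  rw [integral_finsetSum]
  · apply Finset.sum_eq_zero
    intro l _
    rw [integral_const_mul]
    by_cases hkl : k = l
    · subst hkl
      simp
    · rw [stein_orthonormal (bas_norm k) (bas_norm l) (by rw [bas_inner, if_neg hkl]) hG, mul_zero]
  · intro l _
    apply integrable_of_continuous
    have h2 : Continuous (fun z : EE d => ⟪bas k, z⟫ • bas l - ⟪bas l, z⟫ • bas k) := by fun_prop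
    exact continuous_const.mul ((hcf.comp continuous_subtype_val).clm_apply
      (h2.comp continuous_subtype_val))

open Polynomial in
/-- the Gegenbauer operator `(1-X²) h'' - (d-1) X h'` -/
noncomputable def Lop (d : ℕ) (h : ℝ[X]) : ℝ[X] :=
  (1 - X ^ 2) * derivative (derivative h) - C ((d : ℝ) - 1) * X * derivative h

open Polynomial in
lemma Lop_eval (d : ℕ) (h : ℝ[X]) (t : ℝ) : (Lop d h).eval t =
    (1 - t ^ 2) * (derivative (derivative h)).eval t - (d - 1) * t * (derivative h).eval t := by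
  simp [Lop]

lemma pcd (p : Polynomial ℝ) : ContDiff ℝ 1 (fun t : ℝ => p.eval t) := by
  have := p.contDiff_aeval (𝕜 := ℝ) 1
  simpa using this

open Polynomial in
/-- Green's formula on the sphere -/
lemma green [NeZero d] (p q : ℝ[X]) (x y : Sph d) :
    ∫ z : Sph d, p.eval ⟪(x : EE d), z⟫ * (Lop d q).eval ⟪(y : EE d), z⟫ ∂(sig d) =
      - ∫ z : Sph d, (derivative p).eval ⟪(x : EE d), z⟫ * (derivative q).eval ⟪(y : EE d), z⟫ *
        (⟪(x : EE d), y⟫ - ⟪(x : EE d), z⟫ * ⟪(y : EE d), z⟫) ∂(sig d) := by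
  have hcp : ∀ (r : ℝ[X]) (w : EE d), Continuous (fun z : Sph d => r.eval ⟪w, (z : EE d)⟫) := by
    intro r w
    have : Continuous (fun z : EE d => ⟪w, z⟫) := by fun_prop
    exact r.continuous.comp (this.comp continuous_subtype_val)
  have hck : ∀ k : Fin d, Continuous (fun z : Sph d => (z : EE d) k) := by
    intro k
    have : Continuous (fun z : EE d => z k) := by fun_prop
    exact this.comp continuous_subtype_val
  have hci : ∀ w : EE d, Continuous (fun z : Sph d => ⟪w, (z : EE d)⟫) := by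
    intro w
    have : Continuous (fun z : EE d => ⟪w, z⟫) := by fun_prop
    exact this.comp continuous_subtype_val
  -- the integrand for each coordinate
  have hk : ∀ k : Fin d, ∫ z : Sph d,
      ((derivative p).eval ⟪(x : EE d), z⟫ * ((z : EE d) k * ⟪(x : EE d), y⟫
          - ⟪(y : EE d), z⟫ * (x : EE d) k) * (derivative q).eval ⟪(y : EE d), z⟫ * (z : EE d) k
        + p.eval ⟪(x : EE d), z⟫ * ((derivative (derivative q)).eval ⟪(y : EE d), z⟫ *
          ((z : EE d) k - ⟪(y : EE d), z⟫ * (y : EE d) k)) * (z : EE d) k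
        + p.eval ⟪(x : EE d), z⟫ * (derivative q).eval ⟪(y : EE d), z⟫ *
          ((z : EE d) k * (y : EE d) k - ⟪(y : EE d), z⟫)) ∂(sig d) = 0 := by
    intro k
    have hG : ContDiff ℝ 1 (fun z : EE d => p.eval ⟪(x : EE d), z⟫ *
        (derivative q).eval ⟪(y : EE d), z⟫ * z k) := by
      have a1 : ContDiff ℝ 1 (fun z : EE d => p.eval ⟪(x : EE d), z⟫) :=
        (pcd p).comp (contDiff_const.inner ℝ contDiff_id)
      have a2 : ContDiff ℝ 1 (fun z : EE d => (derivative q).eval ⟪(y : EE d), z⟫) :=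
        (pcd (derivative q)).comp (contDiff_const.inner ℝ contDiff_id)
      have a3 : ContDiff ℝ 1 (fun z : EE d => z k) := by fun_prop
      exact (a1.mul a2).mul a3
    rw [← stein hG k (y : EE d)]
    congr 1
    funext z
    have b0 : ∀ w : EE d, HasFDerivAt (fun z : EE d => ⟪w, z⟫) (innerSL ℝ w) (z : EE d) :=
      fun w => (innerSL ℝ w).hasFDerivAt
    have b1 : HasFDerivAt (fun z : EE d => p.eval ⟪(x : EE d), z⟫)
        ((derivative p).eval ⟪(x : EE d), (z : EE d)⟫ • innerSL ℝ (x : EE d)) (z : EE d) :=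
      (p.hasDerivAt _).comp_hasFDerivAt (z : EE d) (b0 x)
    have b2 : HasFDerivAt (fun z : EE d => (derivative q).eval ⟪(y : EE d), z⟫)
        ((derivative (derivative q)).eval ⟪(y : EE d), (z : EE d)⟫ • innerSL ℝ (y : EE d))
        (z : EE d) :=
      ((derivative q).hasDerivAt _).comp_hasFDerivAt (z : EE d) (b0 y)
    have b3 : HasFDerivAt (fun z : EE d => z k) (innerSL ℝ (bas k)) (z : EE d) := by
      have := b0 (bas k)
      simpa only [bas_inner_left] using this
    have b4 : fderiv ℝ (fun z : EE d => p.eval ⟪(x : EE d), z⟫ *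
        (derivative q).eval ⟪(y : EE d), z⟫ * z k) (z : EE d) = _ :=
      ((b1.mul b2).mul b3).fderiv
    rw [b4]
    have yy : ⟪(y : EE d), (y : EE d)⟫ = 1 := inner_self_S y
    simp only [ContinuousLinearMap.add_apply, ContinuousLinearMap.smul_apply, smul_eq_mul,
      Pi.mul_apply, innerSL_apply_apply, inner_sub_right, inner_smul_right, bas_inner_left, yy]
    have c1 : ⟪(x : EE d), bas k⟫ = (x : EE d) k := by rw [real_inner_comm, bas_inner_left]
    have c2 : ⟪(y : EE d), bas k⟫ = (y : EE d) k := by rw [real_inner_comm, bas_inner_left]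
    have c3 : (bas k : EE d) k = 1 := by simp [bas]
    rw [c1, c2, c3]
    ring
  have hsum := Finset.sum_eq_zero (s := Finset.univ) (fun k _ => hk k)
  rw [← integral_finsetSum] at hsum
  swap
  · intro k _
    apply integrable_of_continuous
    have := hcp p x
    have := hcp (derivative p) x
    have := hcp (derivative q) y
    have := hcp (derivative (derivative q)) y
    have := hck k
    have := hci y
    fun_prop
  rw [← sub_eq_zero, sub_neg_eq_add, ← integral_add, ← hsum]
  rotate_left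
  · apply integrable_of_continuous
    exact (hcp p x).mul (hcp _ y)
  · apply integrable_of_continuous
    exact ((hcp _ x).mul (hcp _ y)).mul (continuous_const.sub ((hci x).mul (hci y)))
  congr 1
  funext z
  rw [Lop_eval]
  have zz : ∑ k, (z : EE d) k * (z : EE d) k = 1 := by
    have := inner_self_S z
    rw [PiLp.inner_apply] at this
    simp only [← sq]
    simpa using this
  have xz : ∑ k, (x : EE d) k * (z : EE d) k = ⟪(x : EE d), z⟫ := by
    rw [PiLp.inner_apply]
    apply Finset.sum_congr rfl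
    intro k _
    simp [mul_comm]
  have yz : ∑ k, (y : EE d) k * (z : EE d) k = ⟪(y : EE d), z⟫ := by
    rw [PiLp.inner_apply]
    apply Finset.sum_congr rfl
    intro k _
    simp [mul_comm]
  set s := ⟪(x : EE d), (z : EE d)⟫
  set t := ⟪(y : EE d), (z : EE d)⟫
  have expand : ∀ k : Fin d, (derivative p).eval s * ((z : EE d) k * ⟪(x : EE d), y⟫
          - t * (x : EE d) k) * (derivative q).eval t * (z : EE d) k
        + p.eval s * ((derivative (derivative q)).eval t *
          ((z : EE d) k - t * (y : EE d) k)) * (z : EE d) k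
        + p.eval s * (derivative q).eval t * ((z : EE d) k * (y : EE d) k - t) =
      ((derivative p).eval s * (derivative q).eval t * ⟪(x : EE d), y⟫ +
        p.eval s * (derivative (derivative q)).eval t) * ((z : EE d) k * (z : EE d) k) -
      ((derivative p).eval s * (derivative q).eval t * t) * ((x : EE d) k * (z : EE d) k) +
      (p.eval s * (derivative q).eval t - p.eval s * (derivative (derivative q)).eval t * t) *
        ((y : EE d) k * (z : EE d) k) - p.eval s * (derivative q).eval t * t := by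
    intro k; ring
  simp only [expand]
  rw [Finset.sum_sub_distrib, Finset.sum_add_distrib, Finset.sum_sub_distrib, ← Finset.mul_sum,
    ← Finset.mul_sum, ← Finset.mul_sum, zz, xz, yz, Finset.sum_const, Finset.card_univ,
    Fintype.card_fin, nsmul_eq_mul]
  ring

/-- the Gegenbauer operator is symmetric on zonal functions -/
lemma Lop_symm [NeZero d] (p q : Polynomial ℝ) (x y : Sph d) :
    ∫ z : Sph d, p.eval ⟪(x : EE d), z⟫ * (Lop d q).eval ⟪(y : EE d), z⟫ ∂(sig d) =
      ∫ z : Sph d, (Lop d p).eval ⟪(x : EE d), z⟫ * q.eval ⟪(y : EE d), z⟫ ∂(sig d) := by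
  rw [green]
  have h := green q p y x
  have e1 : ∫ z : Sph d, (Lop d p).eval ⟪(x : EE d), z⟫ * q.eval ⟪(y : EE d), z⟫ ∂(sig d) =
      ∫ z : Sph d, q.eval ⟪(y : EE d), z⟫ * (Lop d p).eval ⟪(x : EE d), z⟫ ∂(sig d) := by
    congr 1; funext z; ring
  rw [e1, h]
  congr 2
  funext z
  rw [real_inner_comm (x : EE d) (y : EE d)]
  ring

end Pool.Agent.Helper47.KP
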