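import Mathlib

/-!
Weights on finite tuples and the integration over tuples.
-/

set_option autoImplicit false

open MeasureTheory Finset

namespace Pool.Agent.Helper47.KP

/-- bounded measurable functions -/
structure Bd {Y : Type} [MeasurableSpace Y] (f : Y → ℝ) : Prop where
  meas : Measurable f
  bd : ∃ C : ℝ, ∀ y, |f y| ≤ C

section

variable {Y Z : Type} [MeasurableSpace Y] [MeasurableSpace Z]

lemma Bd.integrable {f : Y → ℝ} (h : Bd f) (μ : Measure Y) [IsFiniteMeasure μ] :
    Integrable f μ := by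
  obtain ⟨C, hC⟩ := h.bd
  exact Integrable.of_bound h.meas.aestronglyMeasurable C
    (Filter.Eventually.of_forall fun x => by rw [Real.norm_eq_abs]; exact hC x)

lemma Bd.const (c : ℝ) : Bd (fun _ : Y => c) := ⟨measurable_const, |c|, fun _ => le_rfl⟩

lemma Bd.comp {f : Z → ℝ} (h : Bd f) {g : Y → Z} (hg : Measurable g) : Bd (fun y => f (g y)) :=
  ⟨h.meas.comp hg, h.bd.imp fun _ hC y => hC (g y)⟩

lemma Bd.add {f g : Y → ℝ} (hf : Bd f) (hg : Bd g) : Bd (fun y => f y + g y) := by
  obtain ⟨C, hC⟩ := hf.bd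
  obtain ⟨D, hD⟩ := hg.bd
  exact ⟨hf.meas.add hg.meas, C + D, fun y => (abs_add_le _ _).trans (add_le_add (hC y) (hD y))⟩

lemma Bd.mul {f g : Y → ℝ} (hf : Bd f) (hg : Bd g) : Bd (fun y => f y * g y) := by
  obtain ⟨C, hC⟩ := hf.bd
  obtain ⟨D, hD⟩ := hg.bd
  refine ⟨hf.meas.mul hg.meas, C * D, fun y => ?_⟩
  rw [abs_mul]
  exact mul_le_mul (hC y) (hD y) (abs_nonneg _) ((abs_nonneg _).trans (hC y))

lemma Bd.sum {ι : Type} (s : Finset ι) {f : ι → Y → ℝ} (hf : ∀ i ∈ s, Bd (f i)) :
    Bd (fun y => ∑ i ∈ s, f i y) := by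
  classical
  induction s using Finset.induction_on with
  | empty => simpa using Bd.const 0
  | insert i s hi ih =>
    simp only [Finset.sum_insert hi]
    exact (hf i (Finset.mem_insert_self _ _)).add
      (ih fun j hj => hf j (Finset.mem_insert_of_mem hj))

lemma Bd.prod {ι : Type} (s : Finset ι) {f : ι → Y → ℝ} (hf : ∀ i ∈ s, Bd (f i)) :
    Bd (fun y => ∏ i ∈ s, f i y) := by
  classical
  induction s using Finset.induction_on with
  | empty => simpa using Bd.const 1
  | insert i s hi ih =>
    simp only [Finset.prod_insert hi]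
    exact (hf i (Finset.mem_insert_self _ _)).mul
      (ih fun j hj => hf j (Finset.mem_insert_of_mem hj))

lemma Bd.integral {F : Y × Z → ℝ} (h : Bd F) (μ : Measure Z) [IsProbabilityMeasure μ] :
    Bd (fun y => ∫ z, F (y, z) ∂μ) := by
  obtain ⟨C, hC⟩ := h.bd
  refine ⟨h.meas.stronglyMeasurable.integral_prod_right'.measurable, C, fun y => ?_⟩
  have h1 := norm_integral_le_of_norm_le_const (μ := μ) (C := C) (f := fun z => F (y, z))
    (Filter.Eventually.of_forall fun x => by rw [Real.norm_eq_abs]; exact hC _)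
  simpa using h1

end

section

variable {X : Type} [MeasurableSpace X] (σ : Measure X) [IsProbabilityMeasure σ]

/-- the product measure on tuples -/
noncomputable abbrev pim (m : ℕ) : Measure (Fin m → X) := Measure.pi fun _ => σ

lemma integral_succAbove {m : ℕ} (i : Fin (m + 1)) {F : (Fin m → X) → X → ℝ}
    (hF : Bd (fun p : (Fin m → X) × X => F p.1 p.2)) :
    ∫ z : Fin (m + 1) → X, F (fun c => z (i.succAbove c)) (z i) ∂(pim σ (m + 1)) =
      ∫ v, ∫ x, F v x ∂σ ∂(pim σ m) := by
  have h := measurePreserving_piFinSuccAbove (fun _ : Fin (m + 1) => σ) i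
  have h1 := h.integral_comp' (fun p : X × (Fin m → X) => F p.2 p.1)
  have h2 := integral_prod_symm (μ := σ) (ν := pim σ m) (fun p : X × (Fin m → X) => F p.2 p.1)
    ((hF.comp (Z := (Fin m → X) × X) (g := fun p : X × (Fin m → X) => (p.2, p.1))
      (measurable_snd.prodMk measurable_fst)).integrable _)
  simp only at h2
  rw [← h2, ← h1]
  rfl

/-- the density of the tuples -/
noncomputable def rho (N : ℝ) (h : X → X → ℝ) {m : ℕ} (z : Fin m → X) : ℝ :=
  N ^ m * ∏ a, ∏ b, if a = b then 1 else h (z a) (z b)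

/-- the conditional weight -/
noncomputable def bz (N : ℝ) (h : X → X → ℝ) {m : ℕ} (v : Fin m → X) (x : X) : ℝ :=
  N * ∏ c, (h x (v c) * h (v c) x)

lemma rho_succ (N : ℝ) (h : X → X → ℝ) {m : ℕ} (z : Fin (m + 1) → X) (i : Fin (m + 1)) :
    rho N h z = rho N h (fun c => z (i.succAbove c)) * bz N h (fun c => z (i.succAbove c)) (z i) := by
  unfold rho bz
  rw [Fin.prod_univ_succAbove _ i]
  have e1 : (∏ b, if i = b then (1 : ℝ) else h (z i) (z b)) =
      ∏ c : Fin m, h (z i) (z (i.succAbove c)) := by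
    rw [Fin.prod_univ_succAbove _ i, if_pos rfl, one_mul]
    refine prod_congr rfl fun c _ => ?_
    rw [if_neg (Fin.succAbove_ne i c).symm]
  have e2 : ∀ c : Fin m, (∏ b, if i.succAbove c = b then (1 : ℝ) else
      h (z (i.succAbove c)) (z b)) = h (z (i.succAbove c)) (z i) *
      ∏ e : Fin m, if c = e then (1 : ℝ) else h (z (i.succAbove c)) (z (i.succAbove e)) := by
    intro c
    rw [Fin.prod_univ_succAbove _ i, if_neg (Fin.succAbove_ne i c)]
    congr 1
    refine prod_congr rfl fun e _ => ?_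
    simp only [Fin.succAbove_right_inj]
  rw [e1]
  simp only [e2, prod_mul_distrib, pow_succ]
  ring

lemma bz_succ (N : ℝ) (h : X → X → ℝ) {m : ℕ} (w : Fin (m + 1) → X) (c : Fin (m + 1)) (x : X) :
    bz N h w x = bz N h (fun e => w (c.succAbove e)) x * (h x (w c) * h (w c) x) := by
  unfold bz
  rw [Fin.prod_univ_succAbove _ c]
  ring

lemma Bd_rho (N : ℝ) {h : X → X → ℝ} (hh : Bd (fun p : X × X => h p.1 p.2)) {m : ℕ} :
    Bd (fun z : Fin m → X => rho N h z) := by
  unfold rho
  refine (Bd.const _).mul (Bd.prod _ fun a _ => Bd.prod _ fun b _ => ?_)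
  by_cases hab : a = b
  · simpa [hab] using Bd.const 1
  · simp only [if_neg hab]
    exact hh.comp (g := fun z : Fin m → X => (z a, z b))
      ((measurable_pi_apply a).prodMk (measurable_pi_apply b))

lemma Bd_bz (N : ℝ) {h : X → X → ℝ} (hh : Bd (fun p : X × X => h p.1 p.2)) {m : ℕ} :
    Bd (fun p : (Fin m → X) × X => bz N h p.1 p.2) := by
  unfold bz
  refine (Bd.const _).mul (Bd.prod _ fun c _ => ?_)
  have m1 : Measurable (fun p : (Fin m → X) × X => p.1 c) :=
    (measurable_pi_apply c).comp measurable_fst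
  exact (hh.comp (g := fun p : (Fin m → X) × X => (p.2, p.1 c))
    (measurable_snd.prodMk m1)).mul (hh.comp (g := fun p : (Fin m → X) × X => (p.1 c, p.2))
    (m1.prodMk measurable_snd))

/-- the three parts of the identity -/
noncomputable def PA (N : ℝ) (h : X → X → ℝ) (t : ∀ q, (Fin q → X) → X → X → ℝ) (q : ℕ) : ℝ :=
  ∫ z : Fin q → X, rho N h z * ∑ a, ∑ b, t q z (z a) (z b) ∂(pim σ q)

noncomputable def PB (N : ℝ) (h : X → X → ℝ) (t : ∀ q, (Fin q → X) → X → X → ℝ) (q : ℕ) : ℝ :=
  ∫ v : Fin q → X, rho N h v * ∫ x, (bz N h v x * t q v x x +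
    ∑ c, bz N h v x * (t q v x (v c) + t q v (v c) x)) ∂σ ∂(pim σ q)

noncomputable def PC (N : ℝ) (h : X → X → ℝ) (t : ∀ q, (Fin q → X) → X → X → ℝ) (q : ℕ) : ℝ :=
  ∫ v : Fin q → X, rho N h v * ∫ x, ∫ y, bz N h v x * (bz N h v y * ((h x y * h y x) *
    t q v x y)) ∂σ ∂σ ∂(pim σ q)

section

variable (N : ℝ) {h : X → X → ℝ} (hh : Bd (fun p : X × X => h p.1 p.2))
  {t : ∀ q, (Fin q → X) → X → X → ℝ}
  (ht : ∀ q, Bd (fun p : (Fin q → X) × X × X => t q p.1 p.2.1 p.2.2))

include hh ht

lemma Bd_PA (q : ℕ) : Bd (fun z : Fin q → X => rho N h z * ∑ a, ∑ b, t q z (z a) (z b)) := by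
  refine (Bd_rho N hh).mul (Bd.sum _ fun a _ => Bd.sum _ fun b _ => ?_)
  exact (ht q).comp (g := fun z : Fin q → X => (z, z a, z b))
    (measurable_id.prodMk ((measurable_pi_apply a).prodMk (measurable_pi_apply b)))

lemma Bd_inB (q : ℕ) : Bd (fun p : (Fin q → X) × X => bz N h p.1 p.2 * t q p.1 p.2 p.2 +
    ∑ c, bz N h p.1 p.2 * (t q p.1 p.2 (p.1 c) + t q p.1 (p.1 c) p.2)) := by
  have m1 : ∀ c, Measurable (fun p : (Fin q → X) × X => p.1 c) := fun c =>
    (measurable_pi_apply c).comp measurable_fst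
  refine ((Bd_bz N hh).mul ?_).add (Bd.sum _ fun c _ => (Bd_bz N hh).mul (Bd.add ?_ ?_))
  · exact (ht q).comp (g := fun p : (Fin q → X) × X => (p.1, p.2, p.2))
      (measurable_fst.prodMk (measurable_snd.prodMk measurable_snd))
  · exact (ht q).comp (g := fun p : (Fin q → X) × X => (p.1, p.2, p.1 c))
      (measurable_fst.prodMk (measurable_snd.prodMk (m1 c)))
  · exact (ht q).comp (g := fun p : (Fin q → X) × X => (p.1, p.1 c, p.2))
      (measurable_fst.prodMk ((m1 c).prodMk measurable_snd))

lemma integral_PB (n : ℕ) (a : Fin (n + 1)) :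
    Bd (fun z : Fin (n + 1) → X => rho N h z * (t n (fun c => z (a.succAbove c)) (z a) (z a) +
      ∑ c : Fin n, (t n (fun c => z (a.succAbove c)) (z a) (z (a.succAbove c)) +
         t n (fun c => z (a.succAbove c)) (z (a.succAbove c)) (z a)))) ∧
    ∫ z : Fin (n + 1) → X, rho N h z * (t n (fun c => z (a.succAbove c)) (z a) (z a) +
      ∑ c : Fin n, (t n (fun c => z (a.succAbove c)) (z a) (z (a.succAbove c)) +
         t n (fun c => z (a.succAbove c)) (z (a.succAbove c)) (z a))) ∂(pim σ (n + 1)) =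
    PB σ N h t n := by
  have hB : Bd (fun p : (Fin n → X) × X => rho N h p.1 * (bz N h p.1 p.2 * t n p.1 p.2 p.2 +
    ∑ c, bz N h p.1 p.2 * (t n p.1 p.2 (p.1 c) + t n p.1 (p.1 c) p.2))) :=
    ((Bd_rho N hh).comp measurable_fst).mul (Bd_inB N hh ht n)
  have hm : Measurable (fun z : Fin (n + 1) → X => ((fun c => z (a.succAbove c) : Fin n → X), z a)) :=
    (measurable_pi_iff.2 fun c => measurable_pi_apply _).prodMk (measurable_pi_apply a)
  have e1 : ∀ z : Fin (n + 1) → X, rho N h z * (t n (fun c => z (a.succAbove c)) (z a) (z a) +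
      ∑ c : Fin n, (t n (fun c => z (a.succAbove c)) (z a) (z (a.succAbove c)) +
         t n (fun c => z (a.succAbove c)) (z (a.succAbove c)) (z a))) =
      rho N h (fun c => z (a.succAbove c)) * (bz N h (fun c => z (a.succAbove c)) (z a) *
        t n (fun c => z (a.succAbove c)) (z a) (z a) + ∑ c,
        bz N h (fun c => z (a.succAbove c)) (z a) *
        (t n (fun c => z (a.succAbove c)) (z a) (z (a.succAbove c)) +
         t n (fun c => z (a.succAbove c)) (z (a.succAbove c)) (z a))) := by
    intro z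
    rw [rho_succ N h z a, ← mul_sum]
    ring
  constructor
  · have := hB.comp hm
    simpa only [← e1] using this
  · simp only [e1]
    rw [integral_succAbove σ a (F := fun v x => rho N h v * (bz N h v x * t n v x x +
      ∑ c, bz N h v x * (t n v x (v c) + t n v (v c) x))) hB]
    unfold PB
    congr 1; funext v
    rw [integral_const_mul]

lemma integral_PC (hs : ∀ q v x y, t q v x y = t q v y x) (n : ℕ) (a : Fin (n + 2))
    (c : Fin (n + 1)) :
    Bd (fun z : Fin (n + 2) → X => rho N h z *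
      t n (fun e => z (a.succAbove (c.succAbove e))) (z a) (z (a.succAbove c))) ∧
    ∫ z : Fin (n + 2) → X, rho N h z *
      t n (fun e => z (a.succAbove (c.succAbove e))) (z a) (z (a.succAbove c)) ∂(pim σ (n + 2)) =
    PC σ N h t n := by
  have m0 : Measurable (fun p : (Fin (n + 1) → X) × X => p.1 c) :=
    (measurable_pi_apply c).comp measurable_fst
  have m1 : Measurable (fun p : (Fin (n + 1) → X) × X =>
      (fun e => p.1 (c.succAbove e) : Fin n → X)) :=
    measurable_pi_iff.2 fun e => (measurable_pi_apply _).comp measurable_fst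
  have hG : Bd (fun p : (Fin (n + 1) → X) × X => rho N h p.1 * bz N h p.1 p.2 *
      t n (fun e => p.1 (c.succAbove e)) p.2 (p.1 c)) :=
    (((Bd_rho N hh).comp measurable_fst).mul (Bd_bz N hh)).mul
      ((ht n).comp (g := fun p : (Fin (n + 1) → X) × X =>
        ((fun e => p.1 (c.succAbove e) : Fin n → X), p.2, p.1 c))
        (m1.prodMk (measurable_snd.prodMk m0)))
  have hm : Measurable (fun z : Fin (n + 2) → X =>
      ((fun e => z (a.succAbove e) : Fin (n + 1) → X), z a)) :=
    (measurable_pi_iff.2 fun c => measurable_pi_apply _).prodMk (measurable_pi_apply a)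
  have e1 : ∀ z : Fin (n + 2) → X, rho N h z *
      t n (fun e => z (a.succAbove (c.succAbove e))) (z a) (z (a.succAbove c)) =
      rho N h (fun e => z (a.succAbove e)) * bz N h (fun e => z (a.succAbove e)) (z a) *
      t n (fun e => z (a.succAbove (c.succAbove e))) (z a) (z (a.succAbove c)) := by
    intro z
    rw [rho_succ N h z a]
  constructor
  · have := hG.comp hm
    simpa only [← e1] using this
  · simp only [e1]
    rw [integral_succAbove σ a (F := fun w x => rho N h w * bz N h w x *
      t n (fun e => w (c.succAbove e)) x (w c)) hG]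
    -- second step
    have hq : Bd (fun q : ((Fin n → X) × X) × X => rho N h q.1.1 * (bz N h q.1.1 q.1.2 *
        (bz N h q.1.1 q.2 * ((h q.1.2 q.2 * h q.2 q.1.2) * t n q.1.1 q.1.2 q.2)))) := by
      have k1 : Measurable (fun q : ((Fin n → X) × X) × X => q.1.1) :=
        measurable_fst.comp measurable_fst
      have k2 : Measurable (fun q : ((Fin n → X) × X) × X => q.1.2) :=
        measurable_snd.comp measurable_fst
      have k3 : Measurable (fun q : ((Fin n → X) × X) × X => q.2) := measurable_snd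
      exact ((Bd_rho N hh).comp k1).mul (((Bd_bz N hh).comp (k1.prodMk k2)).mul
        (((Bd_bz N hh).comp (k1.prodMk k3)).mul (((hh.comp (k2.prodMk k3)).mul
          (hh.comp (k3.prodMk k2))).mul ((ht n).comp (k1.prodMk (k2.prodMk k3))))))
    have e2 : ∀ w : Fin (n + 1) → X, (∫ x, rho N h w * bz N h w x *
        t n (fun e => w (c.succAbove e)) x (w c) ∂σ) =
        ∫ y, rho N h (fun e => w (c.succAbove e)) * (bz N h (fun e => w (c.succAbove e)) (w c) *
          (bz N h (fun e => w (c.succAbove e)) y * ((h (w c) y * h y (w c)) *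
          t n (fun e => w (c.succAbove e)) (w c) y))) ∂σ := by
      intro w
      congr 1; funext y
      rw [rho_succ N h w c, bz_succ N h w c y, hs n _ y (w c)]
      ring
    simp only [e2]
    rw [integral_succAbove σ c (F := fun v x => ∫ y, rho N h v * (bz N h v x *
      (bz N h v y * ((h x y * h y x) * t n v x y))) ∂σ) (hq.integral σ)]
    unfold PC
    congr 1; funext v
    rw [← integral_const_mul]
    congr 1; funext x
    rw [integral_const_mul]

end

end

end Pool.Agent.Helper47.KP
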